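import Pool.Agent.H506R3.Mag.Boch2

/-!
# Bochner's theorem for bounded continuous functions on `ℝ^d` (helper14)

Adapted from `Pool.Agent.N878.BR.BochA` (the plane).
-/

set_option autoImplicit false
set_option linter.all false

open MeasureTheory Filter Topology ProbabilityTheory
open scoped RealInnerProductSpace

namespace Pool.Agent.W2helper14.EM

open Pool.Agent.H506R3.Mag (PSDFun bochner)

variable {d : ℕ}

theorem psd_mul {φ : EuclideanSpace ℝ (Fin d) → ℝ} (hφ : PSDFun φ) (ν : Measure ℝ)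
    [IsProbabilityMeasure ν]
    (c : EuclideanSpace ℝ (Fin d) → ℝ) (hc : ∀ x y, c (x - y) = c x - c y) :
    PSDFun (fun x => φ x * ∫ t, Real.cos (c x * t) ∂ν) := by
  intro s w
  have hint : ∀ a : ℝ, Integrable (fun t : ℝ => Real.cos (a * t)) ν := fun a =>
    Integrable.of_bound (by fun_prop) 1 (Filter.Eventually.of_forall fun t => by
      rw [Real.norm_eq_abs]; exact Real.abs_cos_le_one _)
  have h1 : ∑ x ∈ s, ∑ y ∈ s, w x * w y * (φ (x - y) * ∫ t, Real.cos (c (x - y) * t) ∂ν) =
      ∫ t, ∑ x ∈ s, ∑ y ∈ s, w x * w y * (φ (x - y) * Real.cos (c (x - y) * t)) ∂ν := by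
    rw [integral_finsetSum]
    · refine Finset.sum_congr rfl fun x _ => ?_
      rw [integral_finsetSum]
      · refine Finset.sum_congr rfl fun y _ => ?_
        rw [integral_const_mul, integral_const_mul]
      · exact fun y _ => ((hint _).const_mul _).const_mul _
    · exact fun x _ => integrable_finsetSum _ fun y _ => ((hint _).const_mul _).const_mul _
  rw [h1]
  refine integral_nonneg fun t => ?_
  have h2 := hφ s (fun x => w x * Real.cos (c x * t))
  have h3 := hφ s (fun x => w x * Real.sin (c x * t))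
  have h4 : ∑ x ∈ s, ∑ y ∈ s, w x * w y * (φ (x - y) * Real.cos (c (x - y) * t)) =
      (∑ x ∈ s, ∑ y ∈ s, (w x * Real.cos (c x * t)) * (w y * Real.cos (c y * t)) * φ (x - y)) +
      ∑ x ∈ s, ∑ y ∈ s, (w x * Real.sin (c x * t)) * (w y * Real.sin (c y * t)) * φ (x - y) := by
    rw [← Finset.sum_add_distrib]
    refine Finset.sum_congr rfl fun x _ => ?_
    rw [← Finset.sum_add_distrib]
    refine Finset.sum_congr rfl fun y _ => ?_
    rw [hc, sub_mul, Real.cos_sub]
    ring
  show 0 ≤ ∑ x ∈ s, ∑ y ∈ s, w x * w y * (φ (x - y) * Real.cos (c (x - y) * t))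
  rw [h4]
  exact add_nonneg h2 h3

/-- the variance `2 / (k + 1)` -/
noncomputable def vk (k : ℕ) : NNReal := 2 / ((k : NNReal) + 1)

theorem vk_coe (k : ℕ) : ((vk k : ℝ) : ℂ) = ((2 / ((k : ℝ) + 1) : ℝ) : ℂ) := by
  simp [vk]

/-- `E cos (a X) = exp (-a² / (k + 1))` for a Gaussian variable `X` -/
theorem gauss_cos (k : ℕ) (a : ℝ) :
    ∫ t, Real.cos (a * t) ∂(gaussianReal 0 (vk k)) = Real.exp (-a ^ 2 / ((k : ℝ) + 1)) := by
  have h := charFun_gaussianReal (μ := 0) (v := vk k) a
  rw [charFun_apply_real] at h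
  have h1 := congrArg Complex.re h
  rw [← Complex.reCLM_apply, ← ContinuousLinearMap.integral_comp_comm] at h1
  · have h2 : ∀ t : ℝ, Complex.reCLM (Complex.exp (a * t * Complex.I)) = Real.cos (a * t) := by
      intro t
      rw [Complex.reCLM_apply, show (a : ℂ) * t * Complex.I = ((a * t : ℝ) : ℂ) * Complex.I by
        push_cast; ring, Complex.exp_ofReal_mul_I_re]
    simp_rw [h2] at h1
    rw [h1]
    have h3 : (a : ℂ) * ((0 : ℝ) : ℂ) * Complex.I - ((vk k : ℝ) : ℂ) * (a : ℂ) ^ 2 / 2 =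
        ((-a ^ 2 / ((k : ℝ) + 1) : ℝ) : ℂ) := by
      rw [vk_coe]
      push_cast
      ring
    rw [h3, Complex.exp_ofReal_re]
  · refine Integrable.of_bound (by fun_prop) 1 (Filter.Eventually.of_forall fun t => ?_)
    rw [show (a : ℂ) * t * Complex.I = ((a * t : ℝ) : ℂ) * Complex.I by push_cast; ring,
      Complex.norm_exp_ofReal_mul_I]

theorem psd_prod {g : EuclideanSpace ℝ (Fin d) → ℝ} (hf : PSDFun g) (k : ℕ)
    (T : Finset (Fin d)) :
    PSDFun (fun x => g x * ∏ i ∈ T, Real.exp (-(x i) ^ 2 / ((k : ℝ) + 1))) := by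
  classical
  induction T using Finset.induction_on with
  | empty => simpa using hf
  | insert i T hi ih =>
    have h1 := psd_mul ih (gaussianReal 0 (vk k)) (fun x => x i) (fun x y => rfl)
    intro s w
    have := h1 s w
    simp only [gauss_cos] at this
    simp only [Finset.prod_insert hi]
    refine this.trans_eq ?_
    refine Finset.sum_congr rfl fun x _ => Finset.sum_congr rfl fun y _ => ?_
    ring

/-- **Bochner's theorem** on `ℝ^d` -/
theorem bochner_bdd {g : EuclideanSpace ℝ (Fin d) → ℝ} (hf : PSDFun g) (hc : Continuous g)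
    (hb : ∀ x, |g x| ≤ 1) (he : ∀ x, g (-x) = g x) (h0 : g 0 = 1) :
    ∃ P : Measure (EuclideanSpace ℝ (Fin d)), IsProbabilityMeasure P ∧
      ∀ x, charFun P x = (g x : ℂ) := by
  -- the regularised functions
  let G : ℕ → EuclideanSpace ℝ (Fin d) → ℝ := fun k x =>
    g x * ∏ i, Real.exp (-(x i) ^ 2 / ((k : ℝ) + 1))
  have hG : ∀ k x, G k x = g x * Real.exp (-‖x‖ ^ 2 / ((k : ℝ) + 1)) := by
    intro k x
    simp only [G]
    rw [← Real.exp_sum, EuclideanSpace.norm_sq_eq, ← Finset.sum_div, Finset.sum_neg_distrib]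
    simp only [Real.norm_eq_abs, sq_abs]
  have hpsd : ∀ k, PSDFun (G k) := fun k => psd_prod hf k Finset.univ
  have hcont : ∀ k, Continuous (G k) := fun k => by
    have : G k = fun x => g x * Real.exp (-‖x‖ ^ 2 / ((k : ℝ) + 1)) := funext (hG k)
    rw [this]
    fun_prop
  have hle : ∀ (k : ℕ) (x : EuclideanSpace ℝ (Fin d)),
      Real.exp (-‖x‖ ^ 2 / ((k : ℝ) + 1)) ≤ 1 := fun k x => by
    rw [Real.exp_le_one_iff]
    exact div_nonpos_of_nonpos_of_nonneg (by nlinarith [sq_nonneg ‖x‖]) (by positivity)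
  have hbd : ∀ k x, |G k x| ≤ 1 := by
    intro k x
    rw [hG, abs_mul, abs_of_pos (Real.exp_pos _)]
    exact mul_le_one₀ (hb x) (Real.exp_pos _).le (hle k x)
  have hintg : ∀ k : ℕ, Integrable (fun x : EuclideanSpace ℝ (Fin d) =>
      Real.exp (-‖x‖ ^ 2 / ((k : ℝ) + 1))) := by
    intro k
    have h1 : (0 : ℝ) < 1 / ((k : ℝ) + 1) := by positivity
    have h2 := GaussianFourier.integrable_cexp_neg_mul_sq_norm_add
      (V := EuclideanSpace ℝ (Fin d))
      (b := ((1 / ((k : ℝ) + 1) : ℝ) : ℂ)) (by rw [Complex.ofReal_re]; exact h1) 0 0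
    refine h2.norm.congr (Filter.Eventually.of_forall fun x => ?_)
    simp only [zero_mul, add_zero]
    rw [Complex.norm_exp]
    congr 1
    have : (-((1 / ((k : ℝ) + 1) : ℝ) : ℂ) * (‖x‖ : ℂ) ^ 2) =
        ((-‖x‖ ^ 2 / ((k : ℝ) + 1) : ℝ) : ℂ) := by
      push_cast
      ring
    rw [this, Complex.ofReal_re]
  have hint : ∀ k, Integrable (G k) := by
    intro k
    refine (hintg k).mono' (hcont k).aestronglyMeasurable (Filter.Eventually.of_forall fun x => ?_)
    rw [hG, norm_mul, Real.norm_eq_abs, Real.norm_eq_abs, abs_of_pos (Real.exp_pos _)]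
    exact mul_le_of_le_one_left (Real.exp_pos _).le (hb x)
  have hev : ∀ k x, G k (-x) = G k x := fun k x => by rw [hG, hG, he, norm_neg]
  have hz : ∀ k, G k 0 = 1 := fun k => by rw [hG, h0]; simp
  choose P hP hPc using fun k => bochner (hpsd k) (hcont k) (hbd k) (hint k) (hev k) (hz k)
  have hlim : ∀ x, Tendsto (fun k => charFun (P k) x) atTop (𝓝 (g x : ℂ)) := by
    intro x
    simp_rw [hPc, hG]
    have h1 : Tendsto (fun k : ℕ => -‖x‖ ^ 2 / ((k : ℝ) + 1)) atTop (𝓝 0) := by
      have := (tendsto_one_div_add_atTop_nhds_zero_nat (𝕜 := ℝ)).const_mul (-‖x‖ ^ 2)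
      rw [mul_zero] at this
      exact this.congr fun n => mul_one_div _ _
    have h2 := ((Real.continuous_exp.tendsto _).comp h1).const_mul (g x)
    rw [Real.exp_zero, mul_one] at h2
    exact (Complex.continuous_ofReal.tendsto _).comp h2
  have htight : IsTightMeasureSet (Set.range P) :=
    isTightMeasureSet_of_tendsto_charFun (f := fun x => (g x : ℂ))
      (Complex.continuous_ofReal.comp hc).continuousAt hlim
  let Q : ℕ → ProbabilityMeasure (EuclideanSpace ℝ (Fin d)) := fun k => ⟨P k, hP k⟩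
  have hcomp : IsCompact (closure (Set.range Q)) := by
    refine isCompact_closure_of_isTightMeasureSet ?_
    convert htight using 1
    ext μ
    constructor
    · rintro ⟨_, ⟨k, rfl⟩, rfl⟩
      exact ⟨k, rfl⟩
    · rintro ⟨k, rfl⟩
      exact ⟨Q k, ⟨k, rfl⟩, rfl⟩
  let U : Ultrafilter ℕ := Filter.hyperfilter ℕ
  have hU : (U : Filter ℕ) ≤ atTop := by
    rw [← Nat.cofinite_eq_atTop]
    exact Filter.hyperfilter_le_cofinite
  obtain ⟨Q0, -, hQ0⟩ := hcomp.ultrafilter_le_nhds (U.map Q) (by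
    rw [le_principal_iff]
    exact Filter.mem_of_superset (Filter.range_mem_map) subset_closure)
  refine ⟨(Q0 : Measure (EuclideanSpace ℝ (Fin d))), inferInstance, fun x => ?_⟩
  have h1 : Tendsto Q U (𝓝 Q0) := hQ0
  rw [ProbabilityMeasure.tendsto_iff_forall_integral_rclike_tendsto ℂ] at h1
  have h2 : Tendsto (fun k => charFun (P k) x) U
      (𝓝 (charFun (Q0 : Measure (EuclideanSpace ℝ (Fin d))) x)) := by
    have h3 := h1 (BoundedContinuousFunction.innerProbChar x)
    simp only [← charFun_eq_integral_innerProbChar] at h3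
    exact h3
  exact tendsto_nhds_unique h2 ((hlim x).mono_left hU)

end Pool.Agent.W2helper14.EM
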