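import Pool.Agent.W2helper14.EM.A
import Pool.Agent.Y139.SW.B

/-!
# Spectral measures of stationary smooth fields (helper14)
-/

set_option autoImplicit false
set_option linter.all false

open MeasureTheory Filter Topology ProbabilityTheory
open scoped ContDiff ENNReal RealInnerProductSpace

namespace Pool.Agent.W2helper14.EM

open Pool.Agent.Y139.SW
open Pool.Agent.H506R3.Mag (PSDFun)

noncomputable section

variable {d : ℕ}

/-- the derivative in the direction `v` -/
def DV (v : E d) (f : E d → ℝ) (y : E d) : ℝ := fderiv ℝ f y v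

lemma DV_sm {f : E d → ℝ} (hf : ContDiff ℝ ∞ f) (v : E d) : ContDiff ℝ ∞ (DV v f) :=
  (hf.fderiv_right (m := ∞) le_rfl).clm_apply contDiff_const

lemma DV_mul {f g : E d → ℝ} (hf : ContDiff ℝ ∞ f) (hg : ContDiff ℝ ∞ g) (v : E d) (y : E d) :
    DV v (fun w => f w * g w) y = DV v f y * g y + f y * DV v g y := by
  unfold DV
  rw [fderiv_fun_mul (sdiff hf y) (sdiff hg y)]
  simp only [add_apply, smul_apply, smul_eq_mul]
  ring

lemma DV_sum {ι : Type*} (t : Finset ι) {f : ι → E d → ℝ} (hf : ∀ j, ContDiff ℝ ∞ (f j))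
    (v : E d) (y : E d) : DV v (fun w => ∑ j ∈ t, f j w) y = ∑ j ∈ t, DV v (f j) y := by
  unfold DV
  rw [fderiv_fun_sum fun j _ => sdiff (hf j) y]
  simp

lemma DV_cmul {f : E d → ℝ} (c : ℝ) (hf : ContDiff ℝ ∞ f) (v : E d) (y : E d) :
    DV v (fun w => c * f w) y = c * DV v f y := by
  unfold DV
  rw [fderiv_const_mul (sdiff hf y)]
  simp

lemma DV_add {f g : E d → ℝ} (hf : ContDiff ℝ ∞ f) (hg : ContDiff ℝ ∞ g) (v : E d) (y : E d) :
    DV v (fun w => f w + g w) y = DV v f y + DV v g y := by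
  unfold DV
  rw [fderiv_fun_add (sdiff hf y) (sdiff hg y)]
  simp

lemma DV_sub {f g : E d → ℝ} (hf : ContDiff ℝ ∞ f) (hg : ContDiff ℝ ∞ g) (v : E d) (y : E d) :
    DV v (fun w => f w - g w) y = DV v f y - DV v g y := by
  unfold DV
  rw [fderiv_fun_sub (sdiff hf y) (sdiff hg y)]
  simp

lemma DV_shift {f : E d → ℝ} (v x y : E d) :
    DV v (fun w => f (w + x)) y = DV v f (y + x) := by
  unfold DV
  rw [fderiv_comp_add_right]

variable {S : Type*} [MeasurableSpace S] {P : Measure S} {τ : E d → S → S}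

lemma sfdv {G : S → E d → ℝ} (h : SF τ G) (v : E d) : SF τ (fun s => DV v (G s)) := by
  refine ⟨fun y => ?_, fun s => DV_sm (h.smooth s) v, fun x s y => ?_⟩
  · refine measurable_of_tendsto_metrizable
      (f := fun (n : ℕ) s => (n : ℝ) • (G s (y + (n : ℝ)⁻¹ • v) - G s y))
      (fun n => ?_) ?_
    · simp only [smul_eq_mul]
      exact measurable_const.mul ((h.meas _).sub (h.meas _))
    · rw [tendsto_pi_nhds]
      intro s
      exact ((sdiff (h.smooth s) y).hasFDerivAt.lim_real v).comp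
        tendsto_natCast_atTop_atTop
  · have e : G (τ x s) = fun y => G s (y + x) := funext fun y => h.cov x s y
    show fderiv ℝ (G (τ x s)) y _ = fderiv ℝ (G s) (y + x) _
    rw [e, fderiv_comp_add_right]

lemma sfadd {G H : S → E d → ℝ} (h : SF τ G) (h' : SF τ H) : SF τ (fun s y => G s y + H s y) :=
  ⟨fun y => (h.meas y).add (h'.meas y), fun s => (h.smooth s).add (h'.smooth s),
    fun x s y => by rw [h.cov, h'.cov]⟩

lemma sfsub {G H : S → E d → ℝ} (h : SF τ G) (h' : SF τ H) : SF τ (fun s y => G s y - H s y) :=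
  ⟨fun y => (h.meas y).sub (h'.meas y), fun s => (h.smooth s).sub (h'.smooth s),
    fun x s y => by rw [h.cov, h'.cov]⟩

lemma sfcmul (c : ℝ) {G : S → E d → ℝ} (h : SF τ G) : SF τ (fun s y => c * G s y) :=
  ⟨fun y => (h.meas y).const_mul c, fun s => contDiff_const.mul (h.smooth s),
    fun x s y => by rw [h.cov]⟩

lemma sfsum {ι : Type*} (t : Finset ι) {G : ι → S → E d → ℝ} (h : ∀ i, SF τ (G i)) :
    SF τ (fun s y => ∑ i ∈ t, G i s y) :=
  ⟨fun y => Finset.measurable_fun_sum _ fun i _ => (h i).meas y,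
    fun s => ContDiff.sum fun i _ => (h i).smooth s,
    fun x s y => Finset.sum_congr rfl fun i _ => (h i).cov x s y⟩

lemma sfconst (c : ℝ) : SF τ (fun (_ : S) (_ : E d) => c) :=
  ⟨fun y => measurable_const, fun s => contDiff_const, fun x s y => rfl⟩

lemma sfshift {G : S → E d → ℝ} (h : SF τ G) (x : E d) : SF τ (fun s y => G s (y + x)) :=
  ⟨fun y => h.meas _, fun s => (h.smooth s).comp (contDiff_id.add contDiff_const),
    fun z s y => by rw [h.cov]; congr 1; abel⟩

lemma int3 {a b c : S → ℝ} (ia : Integrable a P) (ib : Integrable b P) (ic : Integrable c P) :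
    ∫ s, (a s + b s + c s) ∂P = ∫ s, a s ∂P + ∫ s, b s ∂P + ∫ s, c s ∂P := by
  have h1 : Integrable (fun s => a s + b s) P := ia.add ib
  rw [integral_add h1 ic, integral_add ia ib]

section cov

variable [IsProbabilityMeasure P] (hτ : ∀ x, MeasurePreserving (τ x) P P)

/-- square integrability at all points -/
lemma sq_at (hτ : ∀ x, MeasurePreserving (τ x) P P) {u : S → E d → ℝ} (h : SF τ u)
    (h2 : Integrable (fun s => u s 0 ^ 2) P) (x : E d) :
    Integrable (fun s => u s x ^ 2) P := by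
  have h3 : Integrable (fun s => (fun s y => u s y * u s y) s 0) P :=
    h2.congr (ae_of_all _ fun s => sq _)
  exact (st_integrable hτ (h.mul h) x h3).congr (ae_of_all _ fun s => (sq _).symm)

lemma prod_int {u : S → E d → ℝ} (hτ : ∀ x, MeasurePreserving (τ x) P P) (h : SF τ u)
    (h2 : Integrable (fun s => u s 0 ^ 2) P) (x y : E d) :
    Integrable (fun s => u s x * u s y) P :=
  mul_l2 (h.meas x) (h.meas y) (sq_at hτ h h2 x) (sq_at hτ h h2 y)

/-- the covariance -/
def R (P : Measure S) (u : S → E d → ℝ) (x : E d) : ℝ := ∫ s, u s x * u s 0 ∂P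

lemma cov_sub {u : S → E d → ℝ} (hτ : ∀ x, MeasurePreserving (τ x) P P) (h : SF τ u) (x y : E d) :
    ∫ s, u s x * u s y ∂P = R P u (x - y) := by
  have h1 := st_int hτ ((sfshift h (x - y)).mul h) y (k := fun t => t) measurable_id
  rw [show y + (x - y) = x by abel, zero_add] at h1
  exact h1

lemma R_neg {u : S → E d → ℝ} (hτ : ∀ x, MeasurePreserving (τ x) P P) (h : SF τ u) (x : E d) :
    R P u (-x) = R P u x := by
  have h1 := cov_sub hτ h 0 x
  rw [zero_sub] at h1
  rw [← h1]
  unfold R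
  exact integral_congr_ae (ae_of_all _ fun s => mul_comm _ _)

lemma R_sq {u : S → E d → ℝ} (hτ : ∀ x, MeasurePreserving (τ x) P P) (h : SF τ u)
    (x : E d) : ∫ s, u s x ^ 2 ∂P = R P u 0 := by
  have := cov_sub hτ h x x
  rw [sub_self] at this
  rw [← this]
  exact integral_congr_ae (ae_of_all _ fun s => sq _)

lemma R_le {u : S → E d → ℝ} (hτ : ∀ x, MeasurePreserving (τ x) P P) (h : SF τ u)
    (h2 : Integrable (fun s => u s 0 ^ 2) P) (x : E d) : |R P u x| ≤ R P u 0 := by
  have a := sq_at hτ h h2 x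
  have b := prod_int hτ h h2 x 0
  have e1 : ∫ s, (u s x + u s 0) ^ 2 ∂P = 2 * R P u 0 + 2 * R P u x := by
    have : ∀ s, (u s x + u s 0) ^ 2 = u s x ^ 2 + 2 * (u s x * u s 0) + u s 0 ^ 2 := fun s => by
      ring
    simp only [this]
    rw [int3 a (b.const_mul 2) h2, integral_const_mul, R_sq hτ h, R_sq hτ h]
    unfold R; ring
  have e2 : ∫ s, (u s x - u s 0) ^ 2 ∂P = 2 * R P u 0 - 2 * R P u x := by
    have : ∀ s, (u s x - u s 0) ^ 2 = u s x ^ 2 + (-2) * (u s x * u s 0) + u s 0 ^ 2 := fun s => by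
      ring
    simp only [this]
    rw [int3 a (b.const_mul (-2)) h2, integral_const_mul, R_sq hτ h, R_sq hτ h]
    unfold R; ring
  have p1 : 0 ≤ ∫ s, (u s x + u s 0) ^ 2 ∂P := integral_nonneg fun s => sq_nonneg _
  have p2 : 0 ≤ ∫ s, (u s x - u s 0) ^ 2 ∂P := integral_nonneg fun s => sq_nonneg _
  rw [abs_le]
  constructor <;> linarith

/-- `E (u(x) - u(y))²` -/
lemma R_diff {u : S → E d → ℝ} (hτ : ∀ x, MeasurePreserving (τ x) P P) (h : SF τ u)
    (h2 : Integrable (fun s => u s 0 ^ 2) P) (x y : E d) :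
    ∫ s, (u s x - u s y) ^ 2 ∂P = 2 * (R P u 0 - R P u (x - y)) := by
  have a := sq_at hτ h h2 x
  have a' := sq_at hτ h h2 y
  have b := prod_int hτ h h2 x y
  have : ∀ s, (u s x - u s y) ^ 2 = u s x ^ 2 + (-2) * (u s x * u s y) + u s y ^ 2 := fun s => by
    ring
  simp only [this]
  rw [int3 a (b.const_mul (-2)) a', integral_const_mul, R_sq hτ h, R_sq hτ h, cov_sub hτ h]
  ring

lemma cs_real {a b : S → ℝ} (ma : Measurable a) (mb : Measurable b)
    (ia : Integrable (fun s => a s ^ 2) P) (ib : Integrable (fun s => b s ^ 2) P) :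
    (∫ s, a s * b s ∂P) ^ 2 ≤ (∫ s, a s ^ 2 ∂P) * ∫ s, b s ^ 2 ∂P := by
  have ab := mul_l2 ma mb ia ib
  have key : ∀ t : ℝ, 0 ≤ (∫ s, a s ^ 2 ∂P) * (t * t) + (2 * ∫ s, a s * b s ∂P) * t +
      ∫ s, b s ^ 2 ∂P := by
    intro t
    have : ∫ s, (t * a s + b s) ^ 2 ∂P = (∫ s, a s ^ 2 ∂P) * (t * t) +
        (2 * ∫ s, a s * b s ∂P) * t + ∫ s, b s ^ 2 ∂P := by
      have e : ∀ s, (t * a s + b s) ^ 2 = t * t * a s ^ 2 + 2 * t * (a s * b s) + b s ^ 2 :=
        fun s => by ring
      simp only [e]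
      rw [int3 (ia.const_mul _) (ab.const_mul _) ib, integral_const_mul, integral_const_mul]
      ring
    rw [← this]
    exact integral_nonneg fun s => sq_nonneg _
  have := discrim_le_zero key
  unfold discrim at this
  nlinarith

lemma R_cont0 {u : S → E d → ℝ} (hτ : ∀ x, MeasurePreserving (τ x) P P) (h : SF τ u)
    (h2 : Integrable (fun s => u s 0 ^ 2) P) : Tendsto (R P u) (𝓝 0) (𝓝 (R P u 0)) := by
  rw [tendsto_iff_seq_tendsto]
  intro x hx
  have hR0 : 0 ≤ R P u 0 := (abs_nonneg _).trans (R_le hτ h h2 0)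
  have e1 : ∀ n, ∫⁻ s, ENNReal.ofReal ((u s (x n) + u s 0) ^ 2) ∂P =
      ENNReal.ofReal (2 * R P u 0 + 2 * R P u (x n)) := by
    intro n
    have a := sq_at hτ h h2 (x n)
    have b := prod_int hτ h h2 (x n) 0
    have e0 : ∀ s, (u s (x n) + u s 0) ^ 2 = u s (x n) ^ 2 + 2 * (u s (x n) * u s 0) + u s 0 ^ 2 :=
      fun s => by ring
    have i1 : Integrable (fun s => (u s (x n) + u s 0) ^ 2) P := by
      simp only [e0]; exact (a.add (b.const_mul 2)).add h2
    rw [← ofReal_integral_eq_lintegral_ofReal i1 (ae_of_all _ fun s => sq_nonneg _)]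
    simp only [e0]
    rw [int3 a (b.const_mul 2) h2, integral_const_mul, R_sq hτ h, R_sq hτ h]
    congr 1
    unfold R; ring
  have e2 : ∫⁻ s, ENNReal.ofReal ((u s 0 + u s 0) ^ 2) ∂P = ENNReal.ofReal (4 * R P u 0) := by
    have e0 : ∀ s, (u s 0 + u s 0) ^ 2 = 4 * u s 0 ^ 2 := fun s => by ring
    simp only [e0]
    rw [← ofReal_integral_eq_lintegral_ofReal (h2.const_mul 4)
      (ae_of_all _ fun s => by positivity), integral_const_mul, R_sq hτ h]
  have fat : ENNReal.ofReal (4 * R P u 0) ≤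
      liminf (fun n => ENNReal.ofReal (2 * R P u 0 + 2 * R P u (x n))) atTop := by
    rw [← e2]
    simp only [← e1]
    have hl : ∀ s, ENNReal.ofReal ((u s 0 + u s 0) ^ 2) =
        liminf (fun n => ENNReal.ofReal ((u s (x n) + u s 0) ^ 2)) atTop := by
      intro s
      have c : Tendsto (fun n => u s (x n)) atTop (𝓝 (u s 0)) :=
        ((h.smooth s).continuous.tendsto 0).comp hx
      exact ((ENNReal.tendsto_ofReal ((c.add_const (u s 0)).pow 2)).liminf_eq).symm
    simp only [hl]
    exact lintegral_liminf_le fun n => (((h.meas _).add (h.meas _)).pow_const 2).ennreal_ofReal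
  rw [Metric.tendsto_atTop]
  intro ε hε
  by_cases hs : 4 * R P u 0 ≤ ε
  · refine ⟨0, fun n _ => ?_⟩
    have a := abs_le.1 (R_le hτ h h2 (x n))
    rw [Real.dist_eq, Function.comp_apply, abs_lt]
    constructor <;> linarith [a.1, a.2]
  · push Not at hs
    have h4 : ENNReal.ofReal (4 * R P u 0 - ε) <
        liminf (fun n => ENNReal.ofReal (2 * R P u 0 + 2 * R P u (x n))) atTop := by
      refine lt_of_lt_of_le ?_ fat
      rw [ENNReal.ofReal_lt_ofReal_iff (by linarith)]
      linarith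
    have h5 := eventually_lt_of_lt_liminf h4
    obtain ⟨N, hN⟩ := eventually_atTop.1 h5
    refine ⟨N, fun n hn => ?_⟩
    have h6 := hN n hn
    have h7 : 4 * R P u 0 - ε < 2 * R P u 0 + 2 * R P u (x n) := by
      by_contra hc
      push Not at hc
      exact absurd h6 (not_lt.2 (ENNReal.ofReal_le_ofReal hc))
    have a := abs_le.1 (R_le hτ h h2 (x n))
    rw [Real.dist_eq, Function.comp_apply, abs_lt]
    constructor <;> linarith [a.1, a.2]

lemma R_cont {u : S → E d → ℝ} (hτ : ∀ x, MeasurePreserving (τ x) P P) (h : SF τ u)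
    (h2 : Integrable (fun s => u s 0 ^ 2) P) : Continuous (R P u) := by
  rw [continuous_iff_continuousAt]
  intro x
  have hb : ∀ y, (R P u y - R P u x) ^ 2 ≤ 2 * (R P u 0 - R P u (y - x)) * R P u 0 := by
    intro y
    have i1 := prod_int hτ h h2 y 0
    have i2 := prod_int hτ h h2 x 0
    have i3 : Integrable (fun s => (u s y - u s x) ^ 2) P := by
      have : ∀ s, (u s y - u s x) ^ 2 = u s y ^ 2 - 2 * (u s y * u s x) + u s x ^ 2 := fun s => by
        ring
      simp only [this]
      exact ((sq_at hτ h h2 y).sub ((prod_int hτ h h2 y x).const_mul 2)).add (sq_at hτ h h2 x)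
    have := cs_real (P := P) (a := fun s => u s y - u s x) (b := fun s => u s 0)
      ((h.meas y).sub (h.meas x)) (h.meas 0) i3 h2
    rw [R_diff hτ h h2, R_sq hτ h] at this
    refine le_trans (le_of_eq ?_) this
    congr 1
    unfold R
    rw [← integral_sub i1 i2]
    exact integral_congr_ae (ae_of_all _ fun s => by ring)
  have ht : Tendsto (fun y => 2 * (R P u 0 - R P u (y - x)) * R P u 0) (𝓝 x) (𝓝 0) := by
    have h1 : Tendsto (fun y : E d => y - x) (𝓝 x) (𝓝 0) := by
      have c1 : Continuous fun y : E d => y - x := by fun_prop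
      have := c1.tendsto x
      rwa [sub_self] at this
    have h3 := ((R_cont0 hτ h h2).comp h1)
    have h4 := ((h3.const_sub (R P u 0)).const_mul 2).mul_const (R P u 0)
    rw [sub_self, mul_zero, zero_mul] at h4
    exact h4
  have h5 : Tendsto (fun y => (R P u y - R P u x) ^ 2) (𝓝 x) (𝓝 0) :=
    squeeze_zero (fun y => sq_nonneg _) hb ht
  have h6 : Tendsto (fun y => R P u y - R P u x) (𝓝 x) (𝓝 0) := by
    have := h5.sqrt
    rw [Real.sqrt_zero] at this
    simp only [Real.sqrt_sq_eq_abs] at this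
    exact (tendsto_zero_iff_abs_tendsto_zero _).2 this
  have := h6.add_const (R P u x)
  simpa [ContinuousAt] using this

/-- `σ` is a spectral measure of `u` -/
structure Sm (P : Measure S) (u : S → E d → ℝ) (σ : Measure (E d)) : Prop where
  fin : IsFiniteMeasure σ
  cov : ∀ x, R P u x = ∫ ξ, Real.cos (inner ℝ ξ x) ∂σ

lemma R_psd {u : S → E d → ℝ} (hτ : ∀ x, MeasurePreserving (τ x) P P) (h : SF τ u)
    (h2 : Integrable (fun s => u s 0 ^ 2) P) : PSDFun (R P u) := by
  intro T w
  have e : ∑ x ∈ T, ∑ y ∈ T, w x * w y * R P u (x - y) =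
      ∫ s, (∑ x ∈ T, w x * u s x) ^ 2 ∂P := by
    have e1 : ∀ s, (∑ x ∈ T, w x * u s x) ^ 2 =
        ∑ x ∈ T, ∑ y ∈ T, w x * w y * (u s x * u s y) := by
      intro s
      rw [sq, Finset.sum_mul_sum]
      exact Finset.sum_congr rfl fun x _ => Finset.sum_congr rfl fun y _ => by ring
    simp only [e1]
    rw [integral_finsetSum]
    · refine Finset.sum_congr rfl fun x _ => ?_
      rw [integral_finsetSum]
      · refine Finset.sum_congr rfl fun y _ => ?_
        rw [integral_const_mul, cov_sub hτ h]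
      · exact fun y _ => (prod_int hτ h h2 x y).const_mul _
    · exact fun x _ => integrable_finsetSum _ fun y _ => (prod_int hτ h h2 x y).const_mul _
  rw [e]
  exact integral_nonneg fun s => sq_nonneg _

/-- every stationary smooth field with finite second moment has a spectral measure -/
theorem exists_sm {u : S → E d → ℝ} (hτ : ∀ x, MeasurePreserving (τ x) P P) (h : SF τ u)
    (h2 : Integrable (fun s => u s 0 ^ 2) P) : ∃ σ : Measure (E d), Sm P u σ := by
  have hR0 : 0 ≤ R P u 0 := (abs_nonneg _).trans (R_le hτ h h2 0)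
  rcases hR0.eq_or_lt with h0 | h0
  · refine ⟨0, ⟨inferInstance, fun x => ?_⟩⟩
    have := R_le hτ h h2 x
    rw [← h0] at this
    rw [integral_zero_measure]
    exact abs_eq_zero.1 (le_antisymm this (abs_nonneg _))
  · have hpsd : PSDFun fun x => R P u x / R P u 0 := by
      intro T w
      have := R_psd hτ h h2 T w
      have e : ∑ x ∈ T, ∑ y ∈ T, w x * w y * (R P u (x - y) / R P u 0) =
          (∑ x ∈ T, ∑ y ∈ T, w x * w y * R P u (x - y)) / R P u 0 := by
        rw [Finset.sum_div]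
        refine Finset.sum_congr rfl fun x _ => ?_
        rw [Finset.sum_div]
        exact Finset.sum_congr rfl fun y _ => by ring
      show 0 ≤ ∑ x ∈ T, ∑ y ∈ T, w x * w y * (R P u (x - y) / R P u 0)
      rw [e]
      exact div_nonneg this h0.le
    obtain ⟨Q, hQ, hc⟩ := bochner_bdd hpsd ((R_cont hτ h h2).div_const _)
      (fun x => by
        rw [abs_div, abs_of_pos h0, div_le_one h0]
        exact R_le hτ h h2 x)
      (fun x => by rw [R_neg hτ h]) (div_self h0.ne')
    refine ⟨ENNReal.ofReal (R P u 0) • Q, ⟨?_, fun x => ?_⟩⟩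
    · exact Measure.smul_finite _ ENNReal.ofReal_ne_top
    · rw [integral_smul_measure, ENNReal.toReal_ofReal h0.le]
      have h3 := congrArg Complex.re (hc x)
      rw [charFun_apply, Complex.ofReal_re, ← Complex.reCLM_apply,
        ← ContinuousLinearMap.integral_comp_comm] at h3
      · have h4 : ∀ ξ : E d, Complex.reCLM (Complex.exp (((inner ℝ ξ x : ℝ) : ℂ) * Complex.I)) =
            Real.cos (inner ℝ ξ x) := by
          intro ξ
          rw [Complex.reCLM_apply, Complex.exp_ofReal_mul_I_re]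
        simp_rw [h4] at h3
        rw [h3, smul_eq_mul]
        field_simp
      · refine Integrable.of_bound (by fun_prop) 1 (Filter.Eventually.of_forall fun ξ => ?_)
        rw [Complex.norm_exp_ofReal_mul_I]

end cov

end

end Pool.Agent.W2helper14.EM
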