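import Pool.Agent.W2helper14.EM.B

/-!
# Derivatives and spectral measures (helper14)
-/

set_option autoImplicit false
set_option linter.all false

open MeasureTheory Filter Topology ProbabilityTheory
open scoped ContDiff ENNReal RealInnerProductSpace

namespace Pool.Agent.W2helper14.EM

open Pool.Agent.Y139.SW

noncomputable section

variable {d : ℕ} {S : Type*} [MeasurableSpace S] {P : Measure S} {τ : E d → S → S}
  [IsProbabilityMeasure P]

lemma cos_int {σ : Measure (E d)} [IsFiniteMeasure σ] (x : E d) :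
    Integrable (fun ξ : E d => Real.cos (inner ℝ ξ x)) σ :=
  Integrable.of_bound (by fun_prop) 1 (Filter.Eventually.of_forall fun t => by
      rw [Real.norm_eq_abs]; exact Real.abs_cos_le_one _)

/-- finite combinations -/
lemma lincomb {u : S → E d → ℝ} (hτ : ∀ x, MeasurePreserving (τ x) P P) (h : SF τ u)
    (h2 : Integrable (fun s => u s 0 ^ 2) P) {σ : Measure (E d)} (hσ : Sm P u σ)
    {ι : Type*} (T : Finset ι) (a : ι → ℝ) (x : ι → E d) :
    ∫ s, (∑ i ∈ T, a i * u s (x i)) ^ 2 ∂P =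
      ∫ ξ, ((∑ i ∈ T, a i * Real.cos (inner ℝ ξ (x i))) ^ 2 +
        (∑ i ∈ T, a i * Real.sin (inner ℝ ξ (x i))) ^ 2) ∂σ := by
  have := hσ.fin
  have e1 : ∫ s, (∑ i ∈ T, a i * u s (x i)) ^ 2 ∂P =
      ∑ i ∈ T, ∑ j ∈ T, a i * a j * R P u (x i - x j) := by
    have e1 : ∀ s, (∑ i ∈ T, a i * u s (x i)) ^ 2 =
        ∑ i ∈ T, ∑ j ∈ T, a i * a j * (u s (x i) * u s (x j)) := by
      intro s
      rw [sq, Finset.sum_mul_sum]
      exact Finset.sum_congr rfl fun x _ => Finset.sum_congr rfl fun y _ => by ring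
    simp only [e1]
    rw [integral_finsetSum]
    · refine Finset.sum_congr rfl fun i _ => ?_
      rw [integral_finsetSum]
      · refine Finset.sum_congr rfl fun j _ => ?_
        rw [integral_const_mul, cov_sub hτ h]
      · exact fun j _ => (prod_int hτ h h2 (x i) (x j)).const_mul _
    · exact fun i _ => integrable_finsetSum _ fun j _ =>
        (prod_int hτ h h2 (x i) (x j)).const_mul _
  have e2 : ∀ ξ : E d, ((∑ i ∈ T, a i * Real.cos (inner ℝ ξ (x i))) ^ 2 +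
        (∑ i ∈ T, a i * Real.sin (inner ℝ ξ (x i))) ^ 2) =
        ∑ i ∈ T, ∑ j ∈ T, a i * a j * Real.cos (inner ℝ ξ (x i - x j)) := by
    intro ξ
    rw [sq, sq, Finset.sum_mul_sum, Finset.sum_mul_sum, ← Finset.sum_add_distrib]
    refine Finset.sum_congr rfl fun i _ => ?_
    rw [← Finset.sum_add_distrib]
    refine Finset.sum_congr rfl fun j _ => ?_
    rw [inner_sub_right, Real.cos_sub]
    ring
  simp only [e2]
  rw [e1, integral_finsetSum]
  · refine Finset.sum_congr rfl fun i _ => ?_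
    rw [integral_finsetSum]
    · refine Finset.sum_congr rfl fun j _ => ?_
      rw [integral_const_mul, hσ.cov]
    · exact fun j _ => (cos_int _).const_mul _
  · exact fun i _ => integrable_finsetSum _ fun j _ => (cos_int _).const_mul _

lemma fd_eq {u : S → E d → ℝ} (hτ : ∀ x, MeasurePreserving (τ x) P P) (h : SF τ u)
    (h2 : Integrable (fun s => u s 0 ^ 2) P) {σ : Measure (E d)} (hσ : Sm P u σ) (v : E d)
    (t : ℝ) : ∫⁻ s, ENNReal.ofReal ((u s (t • v) - u s (-(t • v))) ^ 2) ∂P =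
      ∫⁻ ξ, ENNReal.ofReal ((2 * Real.sin (t * inner ℝ ξ v)) ^ 2) ∂σ := by
  have := hσ.fin
  have i3 : Integrable (fun s => (u s (t • v) - u s (-(t • v))) ^ 2) P := by
    have : ∀ s, (u s (t • v) - u s (-(t • v))) ^ 2 = u s (t • v) ^ 2 -
        2 * (u s (t • v) * u s (-(t • v))) + u s (-(t • v)) ^ 2 := fun s => by ring
    simp only [this]
    exact ((sq_at hτ h h2 _).sub ((prod_int hτ h h2 _ _).const_mul 2)).add (sq_at hτ h h2 _)
  have i4 : Integrable (fun ξ : E d => (2 * Real.sin (t * inner ℝ ξ v)) ^ 2) σ := by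
    refine Integrable.of_bound (by fun_prop) 4 (Filter.Eventually.of_forall fun ξ => ?_)
    rw [Real.norm_eq_abs, abs_of_nonneg (sq_nonneg _), mul_pow]
    have := Real.sin_sq_le_one (t * inner ℝ ξ v)
    linarith
  rw [← ofReal_integral_eq_lintegral_ofReal i3 (ae_of_all _ fun s => sq_nonneg _),
    ← ofReal_integral_eq_lintegral_ofReal i4 (ae_of_all _ fun s => sq_nonneg _)]
  congr 1
  rw [R_diff hτ h h2, hσ.cov, hσ.cov, ← integral_sub (cos_int _) (cos_int _),
    ← integral_const_mul]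
  refine integral_congr_ae (ae_of_all _ fun ξ => ?_)
  show 2 * (Real.cos (inner ℝ ξ (0 : E d)) - Real.cos (inner ℝ ξ (t • v - -(t • v)))) =
    (2 * Real.sin (t * inner ℝ ξ v)) ^ 2
  rw [inner_zero_right, Real.cos_zero, inner_sub_right, inner_neg_right, real_inner_smul_right,
    show t * inner ℝ ξ v - -(t * inner ℝ ξ v) = 2 * (t * inner ℝ ξ v) by ring, Real.cos_two_mul,
    mul_pow, Real.sin_sq]
  ring

lemma line_deriv {f : E d → ℝ} (hf : ContDiff ℝ ∞ f) (v : E d) (t : ℝ) :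
    HasDerivAt (fun r : ℝ => f (r • v)) (DV v f (t • v)) t := by
  have h1 : HasDerivAt (fun t : ℝ => t • v) ((1 : ℝ) • v) t := (hasDerivAt_id t).smul_const v
  have h2 := (sdiff hf (t • v)).hasFDerivAt.comp_hasDerivAt t h1
  rw [one_smul] at h2
  exact h2

/-- a difference is dominated by the derivative -/
lemma fd_pt {f : E d → ℝ} (hf : ContDiff ℝ ∞ f) (v : E d) {t : ℝ} (ht : 0 ≤ t) :
    ENNReal.ofReal ((f (t • v) - f (-(t • v))) ^ 2) ≤
      ENNReal.ofReal (2 * t) * ∫⁻ r in Set.Ioc (-t) t, ENNReal.ofReal (DV v f (r • v) ^ 2) := by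
  rcases ht.eq_or_lt with h0 | h0
  · rw [← h0]; simp
  have hc : Continuous fun r : ℝ => DV v f (r • v) :=
    (DV_sm hf v).continuous.comp (continuous_id.smul continuous_const)
  have hle : -t ≤ t := by linarith
  obtain ⟨g, hg⟩ : ∃ g : ℝ → ℝ, g = fun r => DV v f (r • v) := ⟨_, rfl⟩
  have cg : Continuous g := by rw [hg]; exact hc
  have i1 : IntegrableOn g (Set.Ioc (-t) t) :=
    (cg.integrableOn_Icc).mono_set Set.Ioc_subset_Icc_self
  have i2 : IntegrableOn (fun r => g r ^ 2) (Set.Ioc (-t) t) :=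
    ((cg.pow 2).integrableOn_Icc).mono_set Set.Ioc_subset_Icc_self
  have e1 : ∫ r in Set.Ioc (-t) t, g r = f (t • v) - f (-(t • v)) := by
    rw [← intervalIntegral.integral_of_le hle]
    have := intervalIntegral.integral_eq_sub_of_hasDerivAt (a := -t) (b := t)
      (f := fun r : ℝ => f (r • v)) (f' := g) (fun r _ => by rw [hg]; exact line_deriv hf v r)
      (cg.intervalIntegrable _ _)
    rw [this, neg_smul]
  have key : (f (t • v) - f (-(t • v))) ^ 2 ≤ 2 * t * ∫ r in Set.Ioc (-t) t, g r ^ 2 := by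
    rw [← e1]
    obtain ⟨L, hL⟩ : ∃ L, L = ∫ r in Set.Ioc (-t) t, g r := ⟨_, rfl⟩
    rw [← hL]
    have h3 : 0 ≤ ∫ r in Set.Ioc (-t) t, (g r - L / (2 * t)) ^ 2 :=
      integral_nonneg fun r => sq_nonneg _
    have e2 : ∫ r in Set.Ioc (-t) t, (g r - L / (2 * t)) ^ 2 =
        (∫ r in Set.Ioc (-t) t, g r ^ 2) + (-2 * (L / (2 * t))) * L +
        (L / (2 * t)) ^ 2 * (2 * t) := by
      have e3 : ∀ r, (g r - L / (2 * t)) ^ 2 = g r ^ 2 + (-2 * (L / (2 * t))) * g r +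
        (L / (2 * t)) ^ 2 := fun r => by ring
      simp only [e3]
      rw [int3 (P := volume.restrict (Set.Ioc (-t) t)) i2 (i1.const_mul _) (integrable_const _),
        integral_const_mul, ← hL, integral_const]
      simp only [measureReal_restrict_apply_univ, Real.volume_real_Ioc_of_le hle, smul_eq_mul]
      ring
    rw [e2] at h3
    have h4 : (∫ r in Set.Ioc (-t) t, g r ^ 2) + (-2 * (L / (2 * t))) * L +
        (L / (2 * t)) ^ 2 * (2 * t) = (∫ r in Set.Ioc (-t) t, g r ^ 2) - L ^ 2 / (2 * t) := by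
      field_simp
      ring
    rw [h4, sub_nonneg, div_le_iff₀ (by linarith)] at h3
    linarith
  refine (ENNReal.ofReal_le_ofReal key).trans ?_
  rw [ENNReal.ofReal_mul (by linarith), ofReal_integral_eq_lintegral_ofReal i2
    (ae_of_all _ fun r => sq_nonneg _), hg]

lemma fd_le {u : S → E d → ℝ} (hτ : ∀ x, MeasurePreserving (τ x) P P) (h : SF τ u) (v : E d)
    {t : ℝ} (ht : 0 ≤ t) :
    ∫⁻ s, ENNReal.ofReal ((u s (t • v) - u s (-(t • v))) ^ 2) ∂P ≤
      ENNReal.ofReal ((2 * t) ^ 2) * ∫⁻ s, ENNReal.ofReal (DV v (u s) 0 ^ 2) ∂P := by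
  refine (lintegral_mono fun s => fd_pt (h.smooth s) v ht).trans ?_
  have hd := sfdv h v
  have mj : Measurable (Function.uncurry fun (s : S) (r : ℝ) =>
      ENNReal.ofReal (DV v (u s) (r • v) ^ 2)) := by
    have h1 : Measurable fun p : S × ℝ => DV v (u p.1) (p.2 • v) :=
      (joint hd).comp ((measurable_snd.smul_const v).prodMk measurable_fst)
    exact (h1.pow_const 2).ennreal_ofReal
  have mj' : Measurable (Function.uncurry fun (s : S) (r : ℝ) =>
      ENNReal.ofReal (DV v (u s) (r • v) ^ 2)) := mj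
  rw [lintegral_const_mul]
  · rw [lintegral_lintegral_swap mj'.aemeasurable]
    have e : ∀ r : ℝ, ∫⁻ s, ENNReal.ofReal (DV v (u s) (r • v) ^ 2) ∂P =
        ∫⁻ s, ENNReal.ofReal (DV v (u s) 0 ^ 2) ∂P := fun r =>
      st_lint hτ hd (r • v) (k := fun x => ENNReal.ofReal (x ^ 2))
        (measurable_id.pow_const 2).ennreal_ofReal
    simp only [e]
    have e3 : ENNReal.ofReal ((2 * t) ^ 2) = ENNReal.ofReal (2 * t) * ENNReal.ofReal (2 * t) := by
      rw [← ENNReal.ofReal_mul (by linarith), sq]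
    rw [lintegral_const, Measure.restrict_apply_univ, Real.volume_Ioc, e3,
      show t - -t = 2 * t by ring]
    apply le_of_eq
    ring
  · exact mj.lintegral_prod_right'

lemma pt_lim {f : E d → ℝ} (hf : ContDiff ℝ ∞ f) (v : E d) :
    Tendsto (fun n : ℕ => (n : ℝ) / 2 * (f ((n : ℝ)⁻¹ • v) - f (-((n : ℝ)⁻¹ • v)))) atTop
      (𝓝 (DV v f 0)) := by
  have hN : Tendsto (fun n : ℕ => (n : ℝ)) atTop atTop := tendsto_natCast_atTop_atTop
  have h1 := ((sdiff hf 0).hasFDerivAt.lim_real v).comp hN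
  have h2 := ((sdiff hf 0).hasFDerivAt.lim_real (-v)).comp hN
  have h3 := (h1.sub h2).const_mul (1 / 2)
  have e : 1 / 2 * (fderiv ℝ f 0 v - fderiv ℝ f 0 (-v)) = DV v f 0 := by
    unfold DV; rw [map_neg]; ring
  rw [e] at h3
  refine h3.congr fun n => ?_
  simp only [Function.comp_apply, zero_add, smul_neg, smul_eq_mul]
  ring

lemma sin_lim (a : ℝ) : Tendsto (fun n : ℕ => (n : ℝ) * Real.sin ((n : ℝ)⁻¹ * a)) atTop
    (𝓝 a) := by
  have hN : Tendsto (fun n : ℕ => (n : ℝ)) atTop atTop := tendsto_natCast_atTop_atTop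
  have h1 := ((Real.hasDerivAt_sin 0).hasFDerivAt.lim_real a).comp hN
  have e : (ContinuousLinearMap.toSpanSingleton ℝ (Real.cos 0)) a = a := by simp
  rw [e] at h1
  refine h1.congr fun n => ?_
  simp

lemma sin_bd (n : ℕ) (a : ℝ) : ((n : ℝ) * Real.sin ((n : ℝ)⁻¹ * a)) ^ 2 ≤ a ^ 2 := by
  rcases Nat.eq_zero_or_pos n with h | h
  · rw [h]; simp; positivity
  · have hn : (0 : ℝ) < n := by exact_mod_cast h
    have h1 : |Real.sin ((n : ℝ)⁻¹ * a)| ≤ |(n : ℝ)⁻¹ * a| := Real.abs_sin_le_abs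
    rw [← sq_abs, ← sq_abs a]
    refine pow_le_pow_left₀ (abs_nonneg _) ?_ 2
    rw [abs_mul, abs_of_pos hn]
    rw [abs_mul, abs_of_pos (inv_pos.2 hn)] at h1
    calc (n : ℝ) * |Real.sin ((n : ℝ)⁻¹ * a)| ≤ n * ((n : ℝ)⁻¹ * |a|) := by gcongr
      _ = |a| := by field_simp

lemma mdiff {u : S → E d → ℝ} (h : SF τ u) (x y : E d) : Measurable fun s => u s x - u s y :=
  (h.meas _).sub (h.meas _)

/-- the `L²` norm of a directional derivative -/
theorem deriv_eq {u : S → E d → ℝ} (hτ : ∀ x, MeasurePreserving (τ x) P P) (h : SF τ u)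
    (h2 : Integrable (fun s => u s 0 ^ 2) P) {σ : Measure (E d)} (hσ : Sm P u σ) (v : E d) :
    ∫⁻ s, ENNReal.ofReal (DV v (u s) 0 ^ 2) ∂P = ∫⁻ ξ, ENNReal.ofReal (inner ℝ ξ v ^ 2) ∂σ := by
  have q : ∀ n : ℕ, ∫⁻ s, ENNReal.ofReal (((n : ℝ) / 2 * (u s ((n : ℝ)⁻¹ • v) -
      u s (-((n : ℝ)⁻¹ • v)))) ^ 2) ∂P =
      ∫⁻ ξ, ENNReal.ofReal (((n : ℝ) * Real.sin ((n : ℝ)⁻¹ * inner ℝ ξ v)) ^ 2) ∂σ := by
    intro n
    have h1 := fd_eq hτ h h2 hσ v ((n : ℝ)⁻¹)
    have e1 : ∀ s, ENNReal.ofReal (((n : ℝ) / 2 * (u s ((n : ℝ)⁻¹ • v) -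
      u s (-((n : ℝ)⁻¹ • v)))) ^ 2) = ENNReal.ofReal (((n : ℝ) / 2) ^ 2) *
      ENNReal.ofReal ((u s ((n : ℝ)⁻¹ • v) - u s (-((n : ℝ)⁻¹ • v))) ^ 2) := fun s => by
      rw [mul_pow, ENNReal.ofReal_mul (sq_nonneg _)]
    have e2 : ∀ ξ : E d, ENNReal.ofReal (((n : ℝ) * Real.sin ((n : ℝ)⁻¹ * inner ℝ ξ v)) ^ 2) =
      ENNReal.ofReal (((n : ℝ) / 2) ^ 2) *
      ENNReal.ofReal ((2 * Real.sin ((n : ℝ)⁻¹ * inner ℝ ξ v)) ^ 2) := fun ξ => by
      rw [← ENNReal.ofReal_mul (sq_nonneg _)]; congr 1; ring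
    simp only [e1, e2]
    rw [lintegral_const_mul _ ((mdiff h _ _).pow_const 2).ennreal_ofReal,
      lintegral_const_mul _ (by fun_prop), h1]
  refine le_antisymm ?_ ?_
  · have hl : ∀ s, ENNReal.ofReal (DV v (u s) 0 ^ 2) = liminf (fun n : ℕ =>
        ENNReal.ofReal (((n : ℝ) / 2 * (u s ((n : ℝ)⁻¹ • v) -
          u s (-((n : ℝ)⁻¹ • v)))) ^ 2)) atTop := fun s =>
      ((ENNReal.tendsto_ofReal ((pt_lim (h.smooth s) v).pow 2)).liminf_eq).symm
    simp only [hl]
    refine (lintegral_liminf_le fun n =>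
      (((mdiff h _ _).const_mul _).pow_const 2).ennreal_ofReal).trans ?_
    refine liminf_le_of_frequently_le' (Filter.Frequently.of_forall fun n => ?_)
    rw [q n]
    exact lintegral_mono fun ξ => ENNReal.ofReal_le_ofReal (sin_bd n _)
  · have hl : ∀ ξ : E d, ENNReal.ofReal (inner ℝ ξ v ^ 2) = liminf (fun n : ℕ =>
        ENNReal.ofReal (((n : ℝ) * Real.sin ((n : ℝ)⁻¹ * inner ℝ ξ v)) ^ 2)) atTop := fun ξ =>
      ((ENNReal.tendsto_ofReal ((sin_lim (inner ℝ ξ v)).pow 2)).liminf_eq).symm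
    simp only [hl]
    refine (lintegral_liminf_le fun n => by fun_prop).trans ?_
    refine liminf_le_of_frequently_le' ?_
    refine ((eventually_gt_atTop 0).mono fun n hn => ?_).frequently
    rw [← q n]
    have hn' : (0 : ℝ) < n := by exact_mod_cast hn
    have e1 : ∀ s, ENNReal.ofReal (((n : ℝ) / 2 * (u s ((n : ℝ)⁻¹ • v) -
      u s (-((n : ℝ)⁻¹ • v)))) ^ 2) = ENNReal.ofReal (((n : ℝ) / 2) ^ 2) *
      ENNReal.ofReal ((u s ((n : ℝ)⁻¹ • v) - u s (-((n : ℝ)⁻¹ • v))) ^ 2) := fun s => by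
      rw [mul_pow, ENNReal.ofReal_mul (sq_nonneg _)]
    simp only [e1]
    rw [lintegral_const_mul _ ((mdiff h _ _).pow_const 2).ennreal_ofReal]
    have h3 := fd_le hτ h v (t := (n : ℝ)⁻¹) (by positivity)
    refine (mul_le_mul_right h3 _).trans ?_
    rw [← mul_assoc, ← ENNReal.ofReal_mul (sq_nonneg _)]
    rw [show ((n : ℝ) / 2) ^ 2 * (2 * (n : ℝ)⁻¹) ^ 2 = 1 by field_simp, ENNReal.ofReal_one,
      one_mul]

end

end Pool.Agent.W2helper14.EM
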