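import Pool.Agent.W2helper14.EM.C

/-!
# Spectral measures of derivatives; supports (helper14)
-/

set_option autoImplicit false
set_option linter.all false

open MeasureTheory Filter Topology ProbabilityTheory
open scoped ContDiff ENNReal RealInnerProductSpace

namespace Pool.Agent.W2helper14.EM

open Pool.Agent.Y139.SW

noncomputable section

variable {d : ℕ} {S : Type*} [MeasurableSpace S] {P : Measure S} {τ : E d → S → S}
  [IsProbabilityMeasure P]

lemma deriv_int {u : S → E d → ℝ} (hτ : ∀ x, MeasurePreserving (τ x) P P) (h : SF τ u)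
    (h2 : Integrable (fun s => u s 0 ^ 2) P) {σ : Measure (E d)} (hσ : Sm P u σ) (v : E d)
    (hd : Integrable (fun s => DV v (u s) 0 ^ 2) P) :
    Integrable (fun ξ : E d => inner ℝ ξ v ^ 2) σ := by
  have h1 := deriv_eq hτ h h2 hσ v
  refine (lintegral_ofReal_ne_top_iff_integrable (by fun_prop)
      (ae_of_all _ fun s => sq_nonneg _)).1 ?_
  rw [← h1]
  exact hd.lintegral_lt_top.ne

lemma deriv_real {u : S → E d → ℝ} (hτ : ∀ x, MeasurePreserving (τ x) P P) (h : SF τ u)
    (h2 : Integrable (fun s => u s 0 ^ 2) P) {σ : Measure (E d)} (hσ : Sm P u σ) (v : E d)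
    (hd : Integrable (fun s => DV v (u s) 0 ^ 2) P) :
    ∫ s, DV v (u s) 0 ^ 2 ∂P = ∫ ξ, inner ℝ ξ v ^ 2 ∂σ := by
  have h1 := deriv_eq hτ h h2 hσ v
  have h3 := deriv_int hτ h h2 hσ v hd
  rw [← ofReal_integral_eq_lintegral_ofReal hd (ae_of_all _ fun s => sq_nonneg _),
    ← ofReal_integral_eq_lintegral_ofReal h3 (ae_of_all _ fun s => sq_nonneg _)] at h1
  exact (ENNReal.ofReal_eq_ofReal_iff (integral_nonneg fun s => sq_nonneg _)
    (integral_nonneg fun s => sq_nonneg _)).1 h1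

/-- integrals against a density -/
lemma int_wd {σ : Measure (E d)} [IsFiniteMeasure σ] {f : E d → ℝ} (mf : Measurable f)
    (f0 : ∀ ξ, 0 ≤ f ξ) (g : E d → ℝ) :
    ∫ ξ, g ξ ∂(σ.withDensity fun ξ => ENNReal.ofReal (f ξ)) = ∫ ξ, f ξ * g ξ ∂σ := by
  rw [integral_withDensity_eq_integral_toReal_smul mf.ennreal_ofReal
    (ae_of_all _ fun _ => ENNReal.ofReal_lt_top)]
  refine integral_congr_ae (ae_of_all _ fun ξ => ?_)
  simp [ENNReal.toReal_ofReal (f0 ξ)]

/-- the combination `u(· + x) + e u` for `e = ±1` -/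
lemma sm_pm {u : S → E d → ℝ} (hτ : ∀ x, MeasurePreserving (τ x) P P) (h : SF τ u)
    (h2 : Integrable (fun s => u s 0 ^ 2) P) {σ : Measure (E d)} (hσ : Sm P u σ) (x : E d)
    (e : ℝ) (he : e ^ 2 = 1) (he1 : |e| ≤ 1) :
    Sm P (fun s y => u s (y + x) + e * u s y)
      (σ.withDensity fun ξ => ENNReal.ofReal (2 + 2 * e * Real.cos (inner ℝ ξ x))) := by
  have := hσ.fin
  have mm : Measurable fun ξ : E d => 2 + 2 * e * Real.cos (inner ℝ ξ x) := by fun_prop
  have h0 : ∀ ξ : E d, 0 ≤ 2 + 2 * e * Real.cos (inner ℝ ξ x) := by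
    intro ξ
    have h1 : |e * Real.cos (inner ℝ ξ x)| ≤ 1 := by
      rw [abs_mul]
      exact mul_le_one₀ he1 (abs_nonneg _) (Real.abs_cos_le_one _)
    have := (abs_le.1 h1).1
    linarith
  have hi : Integrable (fun ξ : E d => 2 + 2 * e * Real.cos (inner ℝ ξ x)) σ :=
    (integrable_const _).add ((cos_int x).const_mul _)
  refine ⟨isFiniteMeasure_withDensity_ofReal hi.2, fun y => ?_⟩
  rw [int_wd mm h0]
  have i1 := prod_int hτ h h2 (y + x) x
  have i2 := prod_int hτ h h2 (y + x) 0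
  have i3 := prod_int hτ h h2 y x
  have i4 := prod_int hτ h h2 y 0
  have e1 : R P (fun s y => u s (y + x) + e * u s y) y =
      R P u y + e * R P u (y + x) + e * R P u (y - x) + R P u y := by
    have a1 := cov_sub hτ h (y + x) x
    have a3 := cov_sub hτ h y x
    rw [show y + x - x = y by abel] at a1
    have e0 : ∀ s, (u s (y + x) + e * u s y) * (u s (0 + x) + e * u s 0) =
        (u s (y + x) * u s x + e * (u s (y + x) * u s 0) + e * (u s y * u s x)) +
          u s y * u s 0 := by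
      intro s
      rw [zero_add]
      linear_combination (u s y * u s 0) * he
    show ∫ s, (u s (y + x) + e * u s y) * (u s (0 + x) + e * u s 0) ∂P = _
    simp only [e0]
    have j1 : Integrable (fun s => u s (y + x) * u s x + e * (u s (y + x) * u s 0) +
        e * (u s y * u s x)) P := (i1.add (i2.const_mul e)).add (i3.const_mul e)
    rw [integral_add j1 i4, int3 i1 (i2.const_mul e) (i3.const_mul e), integral_const_mul,
      integral_const_mul, a1, a3]
    rfl
  rw [e1, hσ.cov, hσ.cov, hσ.cov, ← integral_const_mul, ← integral_const_mul,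
    ← integral_add (cos_int y) ((cos_int (y + x)).const_mul e)]
  have k1 : Integrable (fun ξ : E d => Real.cos (inner ℝ ξ y) +
      e * Real.cos (inner ℝ ξ (y + x))) σ := (cos_int y).add ((cos_int (y + x)).const_mul e)
  have k2 : Integrable (fun ξ : E d => Real.cos (inner ℝ ξ y) +
      e * Real.cos (inner ℝ ξ (y + x)) + e * Real.cos (inner ℝ ξ (y - x))) σ :=
    k1.add ((cos_int (y - x)).const_mul e)
  rw [← integral_add k1 ((cos_int (y - x)).const_mul e), ← integral_add k2 (cos_int y)]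
  refine integral_congr_ae (ae_of_all _ fun ξ => ?_)
  show Real.cos (inner ℝ ξ y) + e * Real.cos (inner ℝ ξ (y + x)) +
    e * Real.cos (inner ℝ ξ (y - x)) + Real.cos (inner ℝ ξ y) =
    (2 + 2 * e * Real.cos (inner ℝ ξ x)) * Real.cos (inner ℝ ξ y)
  rw [inner_add_right, inner_sub_right, Real.cos_add, Real.cos_sub]
  ring

/-- the spectral measure of a derivative -/
theorem sm_dv {u : S → E d → ℝ} (hτ : ∀ x, MeasurePreserving (τ x) P P) (h : SF τ u)
    (h2 : Integrable (fun s => u s 0 ^ 2) P) {σ : Measure (E d)} (hσ : Sm P u σ) (v : E d)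
    (hd : Integrable (fun s => DV v (u s) 0 ^ 2) P) :
    Sm P (fun s => DV v (u s)) (σ.withDensity fun ξ => ENNReal.ofReal (inner ℝ ξ v ^ 2)) := by
  have := hσ.fin
  have h3 := deriv_int hτ h h2 hσ v hd
  have hdv := sfdv h v
  refine ⟨isFiniteMeasure_withDensity_ofReal h3.2, fun x => ?_⟩
  rw [int_wd (by fun_prop) (fun ξ => sq_nonneg _)]
  -- both combinations
  have key : ∀ e : ℝ, e ^ 2 = 1 → |e| ≤ 1 →
      ∫ s, (DV v (u s) x + e * DV v (u s) 0) ^ 2 ∂P =
      ∫ ξ, (2 + 2 * e * Real.cos (inner ℝ ξ x)) * inner ℝ ξ v ^ 2 ∂σ := by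
    intro e he he1
    have sw : SF τ (fun s y => u s (y + x) + e * u s y) := sfadd (sfshift h x) (sfcmul e h)
    have w2 : Integrable (fun s => (fun s y => u s (y + x) + e * u s y) s 0 ^ 2) P := by
      have e0 : ∀ s, (u s (0 + x) + e * u s 0) ^ 2 = u s x ^ 2 + 2 * e * (u s x * u s 0) +
          u s 0 ^ 2 := fun s => by
        rw [zero_add]; linear_combination (u s 0) ^ 2 * he
      show Integrable (fun s => (u s (0 + x) + e * u s 0) ^ 2) P
      simp only [e0]
      exact ((sq_at hτ h h2 x).add ((prod_int hτ h h2 x 0).const_mul _)).add h2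
    have ew : ∀ s, DV v ((fun s y => u s (y + x) + e * u s y) s) 0 =
        DV v (u s) x + e * DV v (u s) 0 := by
      intro s
      show DV v (fun y => u s (y + x) + e * u s y) 0 = _
      rw [DV_add ((sfshift h x).smooth s) ((sfcmul e h).smooth s), DV_shift, zero_add,
        DV_cmul e (h.smooth s)]
    have wd : Integrable (fun s => DV v ((fun s y => u s (y + x) + e * u s y) s) 0 ^ 2) P := by
      simp only [ew]
      have e0 : ∀ s, (DV v (u s) x + e * DV v (u s) 0) ^ 2 = DV v (u s) x ^ 2 +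
          2 * e * (DV v (u s) x * DV v (u s) 0) + DV v (u s) 0 ^ 2 := fun s => by
        linear_combination (DV v (u s) 0) ^ 2 * he
      simp only [e0]
      exact ((sq_at hτ hdv hd x).add ((prod_int hτ hdv hd x 0).const_mul _)).add hd
    have := deriv_real hτ sw w2 (sm_pm hτ h h2 hσ x e he he1) v wd
    simp only [ew] at this
    rw [this, int_wd (by fun_prop)]
    intro ξ
    have h1 : |e * Real.cos (inner ℝ ξ x)| ≤ 1 := by
      rw [abs_mul]
      exact mul_le_one₀ he1 (abs_nonneg _) (Real.abs_cos_le_one _)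
    have := (abs_le.1 h1).1
    linarith
  have kp := key 1 (by norm_num) (by norm_num)
  have km := key (-1) (by norm_num) (by norm_num)
  have a := sq_at hτ hdv hd x
  have b := prod_int hτ hdv hd x 0
  have l : ∀ e : ℝ, e ^ 2 = 1 → ∫ s, (DV v (u s) x + e * DV v (u s) 0) ^ 2 ∂P =
      ∫ s, DV v (u s) x ^ 2 ∂P + 2 * e * R P (fun s => DV v (u s)) x +
        ∫ s, DV v (u s) 0 ^ 2 ∂P := by
    intro e he
    have e0 : ∀ s, (DV v (u s) x + e * DV v (u s) 0) ^ 2 = DV v (u s) x ^ 2 +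
          2 * e * (DV v (u s) x * DV v (u s) 0) + DV v (u s) 0 ^ 2 := fun s => by
        linear_combination (DV v (u s) 0) ^ 2 * he
    simp only [e0]
    rw [int3 a (b.const_mul _) hd, integral_const_mul]
    rfl
  rw [l 1 (by norm_num)] at kp
  rw [l (-1) (by norm_num)] at km
  have ic : Integrable (fun ξ : E d => inner ℝ ξ v ^ 2 * Real.cos (inner ℝ ξ x)) σ := by
    refine h3.mono' (by fun_prop) (ae_of_all _ fun ξ => ?_)
    rw [norm_mul, Real.norm_eq_abs, Real.norm_eq_abs, abs_of_nonneg (sq_nonneg _)]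
    exact mul_le_of_le_one_right (sq_nonneg _) (Real.abs_cos_le_one _)
  have r : ∀ e : ℝ, ∫ ξ : E d, (2 + 2 * e * Real.cos (inner ℝ ξ x)) * inner ℝ ξ v ^ 2 ∂σ =
      2 * ∫ ξ : E d, inner ℝ ξ v ^ 2 ∂σ +
        2 * e * ∫ ξ : E d, inner ℝ ξ v ^ 2 * Real.cos (inner ℝ ξ x) ∂σ := by
    intro e
    rw [← integral_const_mul, ← integral_const_mul, ← integral_add (h3.const_mul _)
      (ic.const_mul _)]
    refine integral_congr_ae (ae_of_all _ fun ξ => ?_)
    show (2 + 2 * e * Real.cos (inner ℝ ξ x)) * inner ℝ ξ v ^ 2 =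
      2 * inner ℝ ξ v ^ 2 + 2 * e * (inner ℝ ξ v ^ 2 * Real.cos (inner ℝ ξ x))
    ring
  rw [r] at kp km
  linarith

/-- iterated derivatives -/
def DVn (v : E d) : ℕ → (E d → ℝ) → E d → ℝ
  | 0, f => f
  | n + 1, f => DV v (DVn v n f)

lemma sfdvn {u : S → E d → ℝ} (h : SF τ u) (v : E d) (n : ℕ) :
    SF τ (fun s => DVn v n (u s)) := by
  induction n with
  | zero => exact h
  | succ n ih => exact sfdv ih v

theorem sm_dvn {u : S → E d → ℝ} (hτ : ∀ x, MeasurePreserving (τ x) P P) (h : SF τ u)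
    {σ : Measure (E d)} (hσ : Sm P u σ) (v : E d)
    (h2 : ∀ n, Integrable (fun s => DVn v n (u s) 0 ^ 2) P) (n : ℕ) :
    Sm P (fun s => DVn v n (u s))
      (σ.withDensity fun ξ => ENNReal.ofReal ((inner ℝ ξ v ^ 2) ^ n)) := by
  induction n with
  | zero =>
    simp only [pow_zero, ENNReal.ofReal_one]
    have : (σ.withDensity fun _ => (1 : ℝ≥0∞)) = σ := withDensity_one
    rw [this]
    exact hσ
  | succ n ih =>
    have h3 := sm_dv hτ (sfdvn h v n) (h2 n) ih v (h2 (n + 1))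
    rw [← withDensity_mul _ (by fun_prop) (by fun_prop)] at h3
    have e : ((fun ξ : E d => ENNReal.ofReal ((inner ℝ ξ v ^ 2) ^ n)) *
        fun ξ => ENNReal.ofReal (inner ℝ ξ v ^ 2)) =
        fun ξ : E d => ENNReal.ofReal ((inner ℝ ξ v ^ 2) ^ (n + 1)) := by
      funext ξ
      rw [Pi.mul_apply, ← ENNReal.ofReal_mul (by positivity), pow_succ (inner ℝ ξ v ^ 2) n]
    rw [e] at h3
    exact h3

/-- the moments of a spectral measure -/
lemma sm_mom {u : S → E d → ℝ} (hτ : ∀ x, MeasurePreserving (τ x) P P) (h : SF τ u)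
    {σ : Measure (E d)} (hσ : Sm P u σ) (v : E d)
    (h2 : ∀ n, Integrable (fun s => DVn v n (u s) 0 ^ 2) P) (n : ℕ) :
    ∫ s, DVn v n (u s) 0 ^ 2 ∂P = ∫ ξ, (inner ℝ ξ v ^ 2) ^ n ∂σ := by
  have := hσ.fin
  have h3 := (sm_dvn hτ h hσ v h2 n).cov 0
  rw [int_wd (by fun_prop) (fun ξ => by positivity)] at h3
  simp only [inner_zero_right, Real.cos_zero, mul_one] at h3
  rw [← h3]
  exact integral_congr_ae (ae_of_all _ fun s => sq _)

lemma sm_mom_int {u : S → E d → ℝ} (hτ : ∀ x, MeasurePreserving (τ x) P P) (h : SF τ u)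
    {σ : Measure (E d)} (hσ : Sm P u σ) (v : E d)
    (h2 : ∀ n, Integrable (fun s => DVn v n (u s) 0 ^ 2) P) (n : ℕ) :
    Integrable (fun ξ : E d => (inner ℝ ξ v ^ 2) ^ n) σ := by
  have h3 := (sm_dvn hτ h hσ v h2 n).fin
  have h4 := h3.measure_univ_lt_top
  rw [withDensity_apply _ MeasurableSet.univ, Measure.restrict_univ] at h4
  exact (lintegral_ofReal_ne_top_iff_integrable (by fun_prop)
      (ae_of_all _ fun s => by positivity)).1 h4.ne

/-- the support of a spectral measure -/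
theorem supp {u : S → E d → ℝ} (hτ : ∀ x, MeasurePreserving (τ x) P P) (h : SF τ u)
    {σ : Measure (E d)} (hσ : Sm P u σ) (v : E d)
    (h2 : ∀ n, Integrable (fun s => DVn v n (u s) 0 ^ 2) P) {K C : ℝ} (hK : 0 ≤ K)
    (hb : ∀ n, ∫ s, DVn v n (u s) 0 ^ 2 ∂P ≤ C * (K ^ 2) ^ n) :
    ∀ᵐ ξ ∂σ, |inner ℝ ξ v| ≤ K := by
  have := hσ.fin
  have hC : 0 ≤ C := by
    have := hb 0
    rw [pow_zero, mul_one] at this
    exact (integral_nonneg fun s => sq_nonneg _).trans this
  have key : ∀ m : ℕ, ∀ᵐ ξ ∂σ, |inner ℝ ξ v| < K + 1 / ((m : ℝ) + 1) := by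
    intro m
    obtain ⟨K', hK'⟩ : ∃ K' : ℝ, K' = K + 1 / ((m : ℝ) + 1) := ⟨_, rfl⟩
    rw [← hK']
    have hp : (0 : ℝ) < 1 / ((m : ℝ) + 1) := by positivity
    have hKK : K < K' := by linarith
    have hK0 : 0 < K' := by linarith
    obtain ⟨A, hA⟩ : ∃ A : Set (E d), A = {ξ | K' ≤ |inner ℝ ξ v|} := ⟨_, rfl⟩
    have mA : MeasurableSet A := by
      rw [hA]
      exact measurableSet_le measurable_const (by fun_prop)
    have hn : ∀ n : ℕ, σ.real A ≤ C * ((K / K') ^ 2) ^ n := by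
      intro n
      have h1 : σ.real A * (K' ^ 2) ^ n ≤ C * (K ^ 2) ^ n := by
        refine le_trans ?_ (hb n)
        rw [sm_mom hτ h hσ v h2 n]
        have hi := sm_mom_int hτ h hσ v h2 n
        have h5 : ∫ ξ in A, (K' ^ 2) ^ n ∂σ ≤ ∫ ξ in A, (inner ℝ ξ v ^ 2) ^ n ∂σ := by
          refine setIntegral_mono_on (integrable_const _).integrableOn hi.integrableOn mA
            fun ξ hξ => ?_
          rw [hA] at hξ
          have hξ' : K' ≤ |inner ℝ ξ v| := hξ
          refine pow_le_pow_left₀ (sq_nonneg _) ?_ n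
          rw [← sq_abs (inner ℝ ξ v)]
          exact pow_le_pow_left₀ hK0.le hξ' 2
        rw [setIntegral_const, smul_eq_mul] at h5
        exact h5.trans (setIntegral_le_integral hi (ae_of_all _ fun ξ => by positivity))
      rw [div_pow, div_pow, mul_div_assoc', le_div_iff₀ (by positivity)]
      exact h1
    have hlim : Tendsto (fun n : ℕ => C * ((K / K') ^ 2) ^ n) atTop (𝓝 (C * 0)) := by
      refine (tendsto_pow_atTop_nhds_zero_of_lt_one (by positivity) ?_).const_mul C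
      have : K / K' < 1 := (div_lt_one hK0).2 hKK
      have h0 : 0 ≤ K / K' := by positivity
      nlinarith
    rw [mul_zero] at hlim
    have h6 : σ.real A ≤ 0 := ge_of_tendsto' hlim hn
    have h7 : σ A = 0 := by
      have := le_antisymm h6 measureReal_nonneg
      exact (measureReal_eq_zero_iff (measure_ne_top _ _)).1 this
    rw [ae_iff]
    convert h7 using 2
    rw [hA]
    ext ξ
    simp
  have hall := ae_all_iff.2 key
  filter_upwards [hall] with ξ hξ
  have ht : Tendsto (fun m : ℕ => K + 1 / ((m : ℝ) + 1)) atTop (𝓝 (K + 0)) :=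
    tendsto_one_div_add_atTop_nhds_zero_nat.const_add K
  rw [add_zero] at ht
  exact ge_of_tendsto' ht fun m => (hξ m).le

/-- the gradient of a field with spectrum in a ball -/
theorem grad_le {u : S → E d → ℝ} (hτ : ∀ x, MeasurePreserving (τ x) P P) (h : SF τ u)
    (h20 : Integrable (fun s => u s 0 ^ 2) P)
    (h2 : ∀ v : E d, ‖v‖ ≤ 1 → ∀ n, Integrable (fun s => DVn v n (u s) 0 ^ 2) P) {K : ℝ}
    (hK : 0 ≤ K)
    (hb : ∀ v : E d, ‖v‖ ≤ 1 → ∃ C, ∀ n, ∫ s, DVn v n (u s) 0 ^ 2 ∂P ≤ C * (K ^ 2) ^ n) :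
    ∑ i, ∫ s, D i (u s) 0 ^ 2 ∂P ≤ K ^ 2 * ∫ s, u s 0 ^ 2 ∂P := by
  obtain ⟨σ, hσ⟩ := exists_sm hτ h h20
  have := hσ.fin
  have hn1 : ∀ i : Fin d, ‖(EuclideanSpace.single i (1 : ℝ) : E d)‖ ≤ 1 := fun i => by simp
  have h3 : ∀ i : Fin d, ∫ s, D i (u s) 0 ^ 2 ∂P =
      ∫ ξ : E d, inner ℝ ξ (EuclideanSpace.single i 1) ^ 2 ∂σ := fun i =>
    deriv_real hτ h h20 hσ (EuclideanSpace.single i 1) (h2 (EuclideanSpace.single i 1) (hn1 i) 1)
  have h4 : ∀ i : Fin d, Integrable (fun ξ : E d =>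
      inner ℝ ξ (EuclideanSpace.single i 1) ^ 2) σ := fun i =>
    deriv_int hτ h h20 hσ (EuclideanSpace.single i 1) (h2 (EuclideanSpace.single i 1) (hn1 i) 1)
  simp only [h3]
  rw [← integral_finsetSum _ fun i _ => h4 i]
  have h5 : ∀ ξ : E d, ∑ i : Fin d, inner ℝ ξ (EuclideanSpace.single i (1 : ℝ)) ^ 2 =
      ‖ξ‖ ^ 2 := by
    intro ξ
    rw [EuclideanSpace.norm_sq_eq]
    refine Finset.sum_congr rfl fun i _ => ?_
    rw [Real.norm_eq_abs, sq_abs]
    congr 1
    rw [real_inner_comm]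
    simp [EuclideanSpace.inner_single_left]
  have hall : ∀ᵐ ξ ∂σ, ∀ n, |inner ℝ ξ (‖TopologicalSpace.denseSeq (E d) n‖⁻¹ •
      TopologicalSpace.denseSeq (E d) n)| ≤ K := by
    rw [ae_all_iff]
    intro n
    have hn : ‖‖TopologicalSpace.denseSeq (E d) n‖⁻¹ • TopologicalSpace.denseSeq (E d) n‖ ≤ 1 := by
      rw [norm_smul, norm_inv, norm_norm]
      exact inv_mul_le_one
    obtain ⟨C, hC⟩ := hb _ hn
    exact supp hτ h hσ _ (h2 _ hn) hK hC
  have hle : ∀ᵐ ξ ∂σ, ‖ξ‖ ^ 2 ≤ K ^ 2 := by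
    filter_upwards [hall] with ξ hξ
    have hc : ∀ v, |inner ℝ ξ v| ≤ K * ‖v‖ := by
      intro v
      have hcl : IsClosed {v : E d | |inner ℝ ξ v| ≤ K * ‖v‖} :=
        isClosed_le (by fun_prop) (by fun_prop)
      have hsub : Set.range (TopologicalSpace.denseSeq (E d)) ⊆
          {v : E d | |inner ℝ ξ v| ≤ K * ‖v‖} := by
        rintro _ ⟨n, rfl⟩
        have h6 := hξ n
        rw [real_inner_smul_right, abs_mul, abs_inv, abs_norm] at h6
        rcases (norm_nonneg (TopologicalSpace.denseSeq (E d) n)).eq_or_lt with h0 | h0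
        · have : TopologicalSpace.denseSeq (E d) n = 0 := norm_eq_zero.1 h0.symm
          show |inner ℝ ξ (TopologicalSpace.denseSeq (E d) n)| ≤ _
          rw [this]; simp
        · rw [inv_mul_le_iff₀ h0, mul_comm] at h6
          exact h6
      have := hcl.closure_subset_iff.2 hsub
      rw [(TopologicalSpace.denseRange_denseSeq (E d)).closure_range] at this
      exact this (Set.mem_univ v)
    have h6 := hc ξ
    rw [real_inner_self_eq_norm_sq, abs_of_nonneg (sq_nonneg _)] at h6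
    rcases (norm_nonneg ξ).eq_or_lt with h0 | h0
    · rw [← h0, zero_pow two_ne_zero]; exact sq_nonneg _
    · have : ‖ξ‖ ≤ K := by
        by_contra hc
        push Not at hc
        nlinarith
      exact pow_le_pow_left₀ (norm_nonneg _) this 2
  simp only [h5]
  have hi : Integrable (fun ξ : E d => ‖ξ‖ ^ 2) σ := by
    have := integrable_finsetSum (Finset.univ : Finset (Fin d)) fun i _ => h4 i
    simp only [h5] at this
    exact this
  calc ∫ ξ, ‖ξ‖ ^ 2 ∂σ ≤ ∫ ξ, K ^ 2 ∂σ := integral_mono_ae hi (integrable_const _) hle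
    _ = K ^ 2 * ∫ s, u s 0 ^ 2 ∂P := by
        have h7 := hσ.cov 0
        simp only [inner_zero_right, Real.cos_zero] at h7
        have h8 : ∫ s, u s 0 ^ 2 ∂P = ∫ ξ : E d, (1 : ℝ) ∂σ := by
          rw [← h7]
          exact integral_congr_ae (ae_of_all _ fun s => sq _)
        rw [h8, ← integral_const_mul, mul_one]

end

end Pool.Agent.W2helper14.EM
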