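import Mathlib

/-!
# The triangle wave and a convexity inequality (helper14)
-/

set_option autoImplicit false
set_option linter.all false

open Filter Topology Real

namespace Pool.Agent.W2helper14.EM

noncomputable section

lemma b2 (x : ℝ) : (Polynomial.map (algebraMap ℚ ℝ) (Polynomial.bernoulli 2)).eval x =
    x ^ 2 - x + 1 / 6 := by
  simp only [Polynomial.bernoulli, Finset.sum_range_succ, Finset.sum_range_zero,
    Polynomial.map_add, Polynomial.map_zero, Polynomial.map_monomial, Polynomial.eval_add,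
    Polynomial.eval_monomial, Polynomial.eval_zero]
  rw [_root_.bernoulli_one, bernoulli_eq_bernoulli'_of_ne_one zero_ne_one, bernoulli'_zero,
    bernoulli_eq_bernoulli'_of_ne_one (by decide : 2 ≠ 1), bernoulli'_two]
  norm_num
  ring

lemma cos_all {x : ℝ} (hx : x ∈ Set.Icc (0 : ℝ) 1) :
    HasSum (fun n : ℕ => 1 / (n : ℝ) ^ 2 * cos (2 * π * n * x)) (π ^ 2 * (x ^ 2 - x + 1 / 6)) := by
  have h := hasSum_one_div_nat_pow_mul_cos (k := 1) one_ne_zero hx
  rw [mul_one, b2] at h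
  have e : (-1 : ℝ) ^ (1 + 1) * (2 * π) ^ 2 / 2 / ((Nat.factorial 2 : ℕ) : ℝ) *
      (x ^ 2 - x + 1 / 6) = π ^ 2 * (x ^ 2 - x + 1 / 6) := by
    rw [Nat.factorial_two]; push_cast; ring
  rw [e] at h
  exact h

/-- odd terms only -/
lemma cos_odd {x : ℝ} (hx : x ∈ Set.Icc (0 : ℝ) (1 / 2)) :
    HasSum (fun n : ℕ => 1 / (2 * (n : ℝ) + 1) ^ 2 * cos (2 * π * (2 * n + 1) * x))
      (π ^ 2 / 8 - π ^ 2 * x / 2) := by
  have h1 := cos_all (x := x) ⟨hx.1, by linarith [hx.2]⟩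
  have h2 := cos_all (x := 2 * x) ⟨by linarith [hx.1], by linarith [hx.2]⟩
  obtain ⟨f, hf⟩ : ∃ f : ℕ → ℝ, f = (fun n : ℕ => 1 / (n : ℝ) ^ 2 * cos (2 * π * n * x)) :=
    ⟨_, rfl⟩
  rw [← hf] at h1
  have he : HasSum (fun n : ℕ => f (2 * n)) (1 / 4 * (π ^ 2 * ((2 * x) ^ 2 - 2 * x + 1 / 6))) := by
    have h3 := h2.mul_left (1 / 4)
    have e : (fun n : ℕ => f (2 * n)) =
        fun n : ℕ => 1 / 4 * (1 / (n : ℝ) ^ 2 * cos (2 * π * n * (2 * x))) := by
      funext n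
      rw [hf]
      push_cast
      rw [mul_pow, show 2 * π * (2 * (n : ℝ)) * x = 2 * π * n * (2 * x) by ring,
        one_div_mul_eq_div]
      ring
    rw [e]
    exact h3
  have so : Summable (fun n : ℕ => f (2 * n + 1)) :=
    h1.summable.comp_injective (i := fun n : ℕ => 2 * n + 1) (fun a b hab => by
      have : 2 * a + 1 = 2 * b + 1 := hab
      lia)
  have h4 := (he.even_add_odd so.hasSum).unique h1
  have h5 := so.hasSum
  have h6 : ∑' n : ℕ, f (2 * n + 1) = π ^ 2 / 8 - π ^ 2 * x / 2 := by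
    linear_combination h4
  rw [h6] at h5
  have e : (fun n : ℕ => f (2 * n + 1)) =
      fun n : ℕ => 1 / (2 * (n : ℝ) + 1) ^ 2 * cos (2 * π * (2 * n + 1) * x) := by
    funext n
    rw [hf]
    push_cast
    rfl
  rw [e] at h5
  exact h5

/-- the weights -/
def wt (n : ℕ) : ℝ := 8 / (π ^ 2 * (2 * (n : ℝ) + 1) ^ 2)

/-- the nodes -/
def nd (n : ℕ) : ℝ := (2 * (n : ℝ) + 1) * π / 2

lemma wt_pos (n : ℕ) : 0 < wt n := by unfold wt; positivity

lemma tri {s : ℝ} (hs : |s| ≤ 1) :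
    HasSum (fun n : ℕ => (-1 : ℝ) ^ n * wt n * sin (nd n * s)) s := by
  have h1 := abs_le.1 hs
  have h := (cos_odd (x := (1 - s) / 4) ⟨by linarith [h1.2], by linarith [h1.1]⟩).mul_left
    (8 / π ^ 2)
  have e1 : 8 / π ^ 2 * (π ^ 2 / 8 - π ^ 2 * ((1 - s) / 4) / 2) = s := by
    field_simp
    ring
  rw [e1] at h
  have e3 : (fun n : ℕ => (-1 : ℝ) ^ n * wt n * sin (nd n * s)) = fun n : ℕ => 8 / π ^ 2 *
      (1 / (2 * (n : ℝ) + 1) ^ 2 * cos (2 * π * (2 * n + 1) * ((1 - s) / 4))) := by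
    funext n
    have e2 : 2 * π * (2 * (n : ℝ) + 1) * ((1 - s) / 4) = (π / 2 - nd n * s) + n * π := by
      unfold nd; ring
    rw [e2, cos_add_nat_mul_pi, cos_pi_div_two_sub]
    unfold wt
    field_simp
  rw [e3]
  exact h

lemma wt_sum : HasSum wt 1 := by
  have h := (cos_odd (x := 0) ⟨le_rfl, by norm_num⟩).mul_left (8 / π ^ 2)
  have e1 : 8 / π ^ 2 * (π ^ 2 / 8 - π ^ 2 * 0 / 2) = 1 := by
    field_simp
    ring
  rw [e1] at h
  have e3 : wt = fun n : ℕ => 8 / π ^ 2 *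
      (1 / (2 * (n : ℝ) + 1) ^ 2 * cos (2 * π * (2 * n + 1) * 0)) := by
    funext n
    rw [mul_zero, cos_zero, mul_one]
    unfold wt
    field_simp
  rw [e3]
  exact h

/-- the partial sums of the triangle wave -/
def trn (N : ℕ) (s : ℝ) : ℝ := ∑ n ∈ Finset.range N, (-1 : ℝ) ^ n * wt n * sin (nd n * s)

/-- the error -/
def er (N : ℕ) : ℝ := 1 - ∑ n ∈ Finset.range N, wt n

lemma term_le (n : ℕ) (s : ℝ) : ‖(-1 : ℝ) ^ n * wt n * sin (nd n * s)‖ ≤ wt n := by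
  rw [norm_mul, norm_mul, norm_pow, norm_neg, norm_one, one_pow, one_mul, Real.norm_eq_abs,
    abs_of_pos (wt_pos n), Real.norm_eq_abs]
  exact mul_le_of_le_one_right (wt_pos n).le (abs_sin_le_one _)

lemma trn_er (N : ℕ) {s : ℝ} (hs : |s| ≤ 1) : |s - trn N s| ≤ er N := by
  have h1 := (hasSum_nat_add_iff' N).2 (tri hs)
  have h2 := (hasSum_nat_add_iff' N).2 wt_sum
  exact h1.norm_le_of_bounded h2 fun n => term_le _ _

lemma trn_le (N : ℕ) (s : ℝ) : |trn N s| ≤ 1 := by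
  have h1 : ‖trn N s‖ ≤ ∑ n ∈ Finset.range N, wt n :=
    (norm_sum_le _ _).trans (Finset.sum_le_sum fun n _ => term_le n s)
  exact h1.trans (sum_le_hasSum _ (fun n _ => (wt_pos n).le) wt_sum)

lemma wt_sum_le (N : ℕ) : ∑ n ∈ Finset.range N, wt n ≤ 1 :=
  sum_le_hasSum _ (fun n _ => (wt_pos n).le) wt_sum

lemma er_nonneg (N : ℕ) : 0 ≤ er N := sub_nonneg.2 (wt_sum_le N)

lemma er_lim : Tendsto er atTop (𝓝 0) := by
  have := (wt_sum.tendsto_sum_nat).const_sub 1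
  rw [sub_self] at this
  exact this

/-- convexity with weights of sum at most one -/
lemma conv_le {ι : Type*} (T : Finset ι) (w z : ι → ℝ) (w0 : ∀ i ∈ T, 0 ≤ w i)
    (w1 : ∑ i ∈ T, w i ≤ 1) {n : ℕ} (hn : Even n) (hn0 : n ≠ 0) :
    (∑ i ∈ T, w i * z i) ^ n ≤ ∑ i ∈ T, w i * z i ^ n := by
  obtain ⟨W, hW⟩ : ∃ W, W = ∑ i ∈ T, w i := ⟨_, rfl⟩
  have W0 : 0 ≤ W := by rw [hW]; exact Finset.sum_nonneg w0
  rw [← hW] at w1
  rcases W0.eq_or_lt with h0 | h0
  · have hz : ∀ i ∈ T, w i = 0 := by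
      rw [← h0] at hW
      exact (Finset.sum_eq_zero_iff_of_nonneg w0).1 hW.symm
    rw [Finset.sum_eq_zero (fun i hi => by rw [hz i hi, zero_mul]),
      Finset.sum_eq_zero (fun i hi => by rw [hz i hi, zero_mul]), zero_pow hn0]
  · have h1 := Real.pow_arith_mean_le_arith_mean_pow_of_even T (fun i => w i / W) z
      (fun i hi => div_nonneg (w0 i hi) W0) (by rw [← Finset.sum_div, ← hW, div_self h0.ne']) hn
    have e1 : ∑ i ∈ T, w i / W * z i = (∑ i ∈ T, w i * z i) / W := by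
      rw [Finset.sum_div]; exact Finset.sum_congr rfl fun i _ => by ring
    have e2 : ∑ i ∈ T, w i / W * z i ^ n = (∑ i ∈ T, w i * z i ^ n) / W := by
      rw [Finset.sum_div]; exact Finset.sum_congr rfl fun i _ => by ring
    rw [e1, e2, div_pow, div_le_div_iff₀ (by positivity) h0] at h1
    obtain ⟨m, rfl⟩ : ∃ m, n = m + 1 := ⟨n - 1, by lia⟩
    have h2 : (∑ i ∈ T, w i * z i) ^ (m + 1) ≤ (∑ i ∈ T, w i * z i ^ (m + 1)) * W ^ m := by
      rw [pow_succ W m, ← mul_assoc] at h1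
      exact le_of_mul_le_mul_right h1 h0
    have h3 : 0 ≤ ∑ i ∈ T, w i * z i ^ (m + 1) :=
      Finset.sum_nonneg fun i hi => mul_nonneg (w0 i hi) (hn.pow_nonneg _)
    refine h2.trans (mul_le_of_le_one_right h3 (pow_le_one₀ W0 w1))

end

end Pool.Agent.W2helper14.EM
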