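import Pool.Agent.W2helper14.EM.D
import Pool.Agent.W2helper14.EM.E

/-!
# Bernstein inequalities for stationary waves (helper14)
-/

set_option autoImplicit false
set_option linter.all false

open MeasureTheory Filter Topology ProbabilityTheory
open scoped ContDiff ENNReal RealInnerProductSpace

namespace Pool.Agent.W2helper14.EM

open Pool.Agent.Y139.SW

noncomputable section

variable {d : ℕ}

lemma DV_comm {f : E d → ℝ} (hf : ContDiff ℝ ∞ f) (v w y : E d) :
    DV v (DV w f) y = DV w (DV v f) y := by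
  have hs : IsSymmSndFDerivAt ℝ f y := hf.contDiffAt.isSymmSndFDerivAt (by
    simp only [minSmoothness_of_isRCLikeNormedField]
    exact (WithTop.coe_le_coe.mpr (le_top : (2 : ℕ∞) ≤ ⊤) :
      ((2 : ℕ∞) : WithTop ℕ∞) ≤ ((⊤ : ℕ∞) : WithTop ℕ∞)))
  have hd : DifferentiableAt ℝ (fderiv ℝ f) y :=
    ((hf.fderiv_right (m := ∞) le_rfl).differentiable (by simp)) y
  have e : ∀ v w : E d, fderiv ℝ (fun z => fderiv ℝ f z w) y v =
      fderiv ℝ (fderiv ℝ f) y v w := by
    intro v w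
    rw [fderiv_clm_apply hd (differentiableAt_const w)]
    simp
  show fderiv ℝ (fun z => fderiv ℝ f z _) y _ = fderiv ℝ (fun z => fderiv ℝ f z _) y _
  rw [e, e, hs.eq]

lemma DV_eq_sum (f : E d → ℝ) (v y : E d) : DV v f y = ∑ i, v i * D i f y := by
  have e : v = ∑ i, v i • EuclideanSpace.single i (1 : ℝ) := by
    ext j
    simp [EuclideanSpace.single_apply, Pi.single_apply]
  unfold DV D
  conv_lhs => rw [e]
  rw [map_sum]
  simp

lemma DV_sq_le (f : E d → ℝ) (v y : E d) :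
    DV v f y ^ 2 ≤ ‖v‖ ^ 2 * ∑ i, D i f y ^ 2 := by
  rw [DV_eq_sum, EuclideanSpace.norm_sq_eq]
  refine (Finset.sum_mul_sq_le_sq_mul_sq _ _ _).trans_eq ?_
  simp

variable {S : Type*} [MeasurableSpace S] {P : Measure S} {τ : E d → S → S}
  [IsProbabilityMeasure P]

lemma wave_dv (hτ : ∀ x, MeasurePreserving (τ x) P P) {G : S → E d → ℝ} (W : Wave P τ G)
    (v : E d) : Wave P τ (fun s => DV v (G s)) := by
  refine ⟨sfdv W.sf v, fun s y => ?_, ?_⟩
  · have hs := W.sf.smooth s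
    have e1 : ∀ i : Fin d, D i (D i (DV v (G s))) y = DV v (D i (D i (G s))) y := by
      intro i
      have a1 : D i (DV v (G s)) = DV v (D i (G s)) := funext fun z =>
        DV_comm hs (EuclideanSpace.single i 1) v z
      rw [a1]
      exact DV_comm (D_sm hs i) (EuclideanSpace.single i 1) v y
    unfold Lap
    simp only [e1]
    rw [← DV_sum Finset.univ (fun i => D_sm (D_sm hs i) i) v y]
    have e2 : (fun w => ∑ j, D j (D j (G s)) w) = fun y => -G s y := funext (W.eq s)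
    rw [e2]
    unfold DV
    rw [fderiv_fun_neg]; rfl
  · have i1 : Integrable (fun s => ‖v‖ ^ 2 * ∑ i, D i (G s) 0 ^ 2) P :=
      (integrable_finsetSum _ fun i _ => (W.der hτ i).l2).const_mul _
    refine i1.mono' (((sfdv W.sf v).meas 0).pow_const 2).aestronglyMeasurable
      (ae_of_all _ fun s => ?_)
    rw [Real.norm_eq_abs, abs_of_nonneg (sq_nonneg _)]
    exact DV_sq_le _ _ _

lemma wave_dv_le (hτ : ∀ x, MeasurePreserving (τ x) P P) {G : S → E d → ℝ} (W : Wave P τ G)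
    {v : E d} (hv : ‖v‖ ≤ 1) : ∫ s, DV v (G s) 0 ^ 2 ∂P ≤ ∫ s, G s 0 ^ 2 ∂P := by
  have i2 : Integrable (fun s => ∑ i, D i (G s) 0 ^ 2) P :=
    integrable_finsetSum _ fun i _ => (W.der hτ i).l2
  rw [← W.energy hτ, ← integral_finsetSum _ fun i _ => (W.der hτ i).l2]
  refine integral_mono (wave_dv hτ W v).l2 i2 fun s => ?_
  refine (DV_sq_le _ _ _).trans ?_
  have h0 : 0 ≤ ∑ i, D i (G s) 0 ^ 2 := Finset.sum_nonneg fun i _ => sq_nonneg _
  exact mul_le_of_le_one_left h0 (pow_le_one₀ (norm_nonneg _) hv)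

lemma wave_dvn (hτ : ∀ x, MeasurePreserving (τ x) P P) {G : S → E d → ℝ} (W : Wave P τ G)
    (v : E d) (n : ℕ) : Wave P τ (fun s => DVn v n (G s)) := by
  induction n with
  | zero => exact W
  | succ n ih => exact wave_dv hτ ih v

lemma wave_dvn_le (hτ : ∀ x, MeasurePreserving (τ x) P P) {G : S → E d → ℝ} (W : Wave P τ G)
    {v : E d} (hv : ‖v‖ ≤ 1) (n : ℕ) :
    ∫ s, DVn v n (G s) 0 ^ 2 ∂P ≤ ∫ s, G s 0 ^ 2 ∂P := by
  induction n with
  | zero => exact le_rfl
  | succ n ih => exact (wave_dv_le hτ (wave_dvn hτ W v n) hv).trans ih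

lemma wave_supp (hτ : ∀ x, MeasurePreserving (τ x) P P) {G : S → E d → ℝ} (W : Wave P τ G)
    {v : E d} (hv : ‖v‖ ≤ 1) {σ : Measure (E d)} (hσ : Sm P G σ) :
    ∀ᵐ ξ ∂σ, |inner ℝ ξ v| ≤ 1 :=
  supp hτ W.sf hσ v (fun n => (wave_dvn hτ W v n).l2) zero_le_one
    (C := ∫ s, G s 0 ^ 2 ∂P) fun n => by
      rw [one_pow, one_pow, mul_one]
      exact wave_dvn_le hτ W hv n

lemma lincomb_odd {u : S → E d → ℝ} (hτ : ∀ x, MeasurePreserving (τ x) P P) (h : SF τ u)
    (h2 : Integrable (fun s => u s 0 ^ 2) P) {σ : Measure (E d)} (hσ : Sm P u σ)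
    (T : Finset ℕ) (b t : ℕ → ℝ) (v : E d) :
    ∫ s, (∑ i ∈ T, b i * (u s (t i • v) - u s (-(t i • v)))) ^ 2 ∂P =
      ∫ ξ, (∑ i ∈ T, b i * (2 * Real.sin (t i * inner ℝ ξ v))) ^ 2 ∂σ := by
  have h1 := lincomb hτ h h2 hσ (T.disjSum T) (Sum.elim b fun i => -b i)
    (Sum.elim (fun i => t i • v) fun i => -(t i • v))
  simp only [Finset.sum_disjSum, Sum.elim_inl, Sum.elim_inr] at h1
  have e1 : ∀ s, ∑ i ∈ T, b i * (u s (t i • v) - u s (-(t i • v))) =
      ∑ i ∈ T, b i * u s (t i • v) + ∑ i ∈ T, -b i * u s (-(t i • v)) := by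
    intro s
    rw [← Finset.sum_add_distrib]
    exact Finset.sum_congr rfl fun i _ => by ring
  simp only [e1]
  rw [h1]
  refine integral_congr_ae (ae_of_all _ fun ξ => ?_)
  have e2 : ∑ i ∈ T, b i * Real.cos (inner ℝ ξ (t i • v)) +
      ∑ i ∈ T, -b i * Real.cos (inner ℝ ξ (-(t i • v))) = 0 := by
    rw [← Finset.sum_add_distrib]
    refine Finset.sum_eq_zero fun i _ => ?_
    rw [inner_neg_right, Real.cos_neg]; ring
  have e3 : ∑ i ∈ T, b i * Real.sin (inner ℝ ξ (t i • v)) +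
      ∑ i ∈ T, -b i * Real.sin (inner ℝ ξ (-(t i • v))) =
      ∑ i ∈ T, b i * (2 * Real.sin (t i * inner ℝ ξ v)) := by
    rw [← Finset.sum_add_distrib]
    refine Finset.sum_congr rfl fun i _ => ?_
    rw [inner_neg_right, Real.sin_neg, real_inner_smul_right]; ring
  show (∑ i ∈ T, b i * Real.cos (inner ℝ ξ (t i • v)) +
      ∑ i ∈ T, -b i * Real.cos (inner ℝ ξ (-(t i • v)))) ^ 2 +
      (∑ i ∈ T, b i * Real.sin (inner ℝ ξ (t i • v)) +
      ∑ i ∈ T, -b i * Real.sin (inner ℝ ξ (-(t i • v)))) ^ 2 = _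
  rw [e2, e3]
  ring

/-- the interpolation sums of M. Riesz -/
def XN (v : E d) (N : ℕ) (f : E d → ℝ) : ℝ :=
  ∑ n ∈ Finset.range N, (-1 : ℝ) ^ n * wt n / 2 * (f (nd n • v) - f (-(nd n • v)))

/-- coefficients -/
def bb (m : ℕ) : ℕ → ℝ
  | 0 => (m : ℝ) / 2
  | n + 1 => -((-1 : ℝ) ^ n * wt n / 2)

/-- nodes -/
def tt (m : ℕ) : ℕ → ℝ
  | 0 => (m : ℝ)⁻¹
  | n + 1 => nd n

lemma bb_sum (v : E d) (m N : ℕ) (f : E d → ℝ) :
    ∑ i ∈ Finset.range (N + 1), bb m i * (f (tt m i • v) - f (-(tt m i • v))) =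
      (m : ℝ) / 2 * (f ((m : ℝ)⁻¹ • v) - f (-((m : ℝ)⁻¹ • v))) - XN v N f := by
  rw [Finset.sum_range_succ']
  have e : ∑ k ∈ Finset.range N, bb m (k + 1) * (f (tt m (k + 1) • v) - f (-(tt m (k + 1) • v))) =
      -XN v N f := by
    unfold XN
    rw [← Finset.sum_neg_distrib]
    exact Finset.sum_congr rfl fun n _ => by simp only [bb, tt]; ring
  rw [e]
  simp only [bb, tt]
  ring

lemma bb_sin (m N : ℕ) (a : ℝ) :
    ∑ i ∈ Finset.range (N + 1), bb m i * (2 * Real.sin (tt m i * a)) =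
      (m : ℝ) * Real.sin ((m : ℝ)⁻¹ * a) - trn N a := by
  rw [Finset.sum_range_succ']
  have e : ∑ k ∈ Finset.range N, bb m (k + 1) * (2 * Real.sin (tt m (k + 1) * a)) =
      -trn N a := by
    unfold trn
    rw [← Finset.sum_neg_distrib]
    exact Finset.sum_congr rfl fun n _ => by simp only [bb, tt]; ring
  rw [e]
  simp only [bb, tt]
  ring

lemma XN_meas {u : S → E d → ℝ} (h : SF τ u) (v : E d) (N : ℕ) :
    Measurable fun s => XN v N (u s) :=
  Finset.measurable_fun_sum _ fun n _ => (mdiff h _ _).const_mul _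

lemma riesz_l2 (hτ : ∀ x, MeasurePreserving (τ x) P P) {u : S → E d → ℝ} (W : Wave P τ u)
    {v : E d} (hv : ‖v‖ ≤ 1) {σ : Measure (E d)} (hσ : Sm P u σ) (N : ℕ) :
    ∫⁻ s, ENNReal.ofReal ((DV v (u s) 0 - XN v N (u s)) ^ 2) ∂P ≤
      ENNReal.ofReal (er N ^ 2 * σ.real Set.univ) := by
  have := hσ.fin
  have h := W.sf
  have h2 := W.l2
  have hsup := wave_supp hτ W hv hσ
  have q : ∀ m : ℕ, ∫⁻ s, ENNReal.ofReal (((m : ℝ) / 2 * (u s ((m : ℝ)⁻¹ • v) -
      u s (-((m : ℝ)⁻¹ • v))) - XN v N (u s)) ^ 2) ∂P =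
      ENNReal.ofReal (∫ ξ, ((m : ℝ) * Real.sin ((m : ℝ)⁻¹ * inner ℝ ξ v) -
        trn N (inner ℝ ξ v)) ^ 2 ∂σ) := by
    intro m
    have h1 := lincomb_odd hτ h h2 hσ (Finset.range (N + 1)) (bb m) (tt m) v
    simp only [bb_sum, bb_sin] at h1
    rw [← h1, ofReal_integral_eq_lintegral_ofReal _ (ae_of_all _ fun s => sq_nonneg _)]
    -- integrability
    have hl : MemLp (fun s => ∑ i ∈ Finset.range (N + 1),
        bb m i * (u s (tt m i • v) - u s (-(tt m i • v)))) 2 P := by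
      refine memLp_finsetSum _ fun i _ => ?_
      have a1 : MemLp (fun s => u s (tt m i • v)) 2 P :=
        (memLp_two_iff_integrable_sq (h.meas _).aestronglyMeasurable).2 (sq_at hτ h h2 _)
      have a2 : MemLp (fun s => u s (-(tt m i • v))) 2 P :=
        (memLp_two_iff_integrable_sq (h.meas _).aestronglyMeasurable).2 (sq_at hτ h h2 _)
      exact (a1.sub a2).const_mul _
    simp only [bb_sum] at hl
    exact (memLp_two_iff_integrable_sq hl.1).1 hl
  have hpt : ∀ s, ENNReal.ofReal ((DV v (u s) 0 - XN v N (u s)) ^ 2) = liminf (fun m : ℕ =>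
      ENNReal.ofReal (((m : ℝ) / 2 * (u s ((m : ℝ)⁻¹ • v) -
      u s (-((m : ℝ)⁻¹ • v))) - XN v N (u s)) ^ 2)) atTop := fun s =>
    ((ENNReal.tendsto_ofReal (((pt_lim (h.smooth s) v).sub_const _).pow 2)).liminf_eq).symm
  simp only [hpt]
  have hF := lintegral_liminf_le (μ := P) (u := (atTop : Filter ℕ)) (f := fun (m : ℕ) s =>
    ENNReal.ofReal (((m : ℝ) / 2 * (u s ((m : ℝ)⁻¹ • v) -
      u s (-((m : ℝ)⁻¹ • v))) - XN v N (u s)) ^ 2)) (fun m =>
    ((((mdiff h _ _).const_mul _).sub (XN_meas h v N)).pow_const 2).ennreal_ofReal)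
  refine hF.trans ?_
  simp only [q]
  have ct : Continuous (trn N) := by
    unfold trn
    exact continuous_finsetSum _ fun n _ => by fun_prop
  have lim : Tendsto (fun m : ℕ => ∫ ξ, ((m : ℝ) * Real.sin ((m : ℝ)⁻¹ * inner ℝ ξ v) -
        trn N (inner ℝ ξ v)) ^ 2 ∂σ) atTop (𝓝 (∫ ξ, (inner ℝ ξ v - trn N (inner ℝ ξ v)) ^ 2 ∂σ)) := by
    refine tendsto_integral_of_dominated_convergence (fun _ => (4 : ℝ)) ?_ (integrable_const _)
      ?_ ?_
    · intro m
      exact (by fun_prop : Continuous fun ξ : E d => ((m : ℝ) * Real.sin ((m : ℝ)⁻¹ *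
        inner ℝ ξ v) - trn N (inner ℝ ξ v)) ^ 2).aestronglyMeasurable
    · intro m
      filter_upwards [hsup] with ξ hξ
      have h1 : |(m : ℝ) * Real.sin ((m : ℝ)⁻¹ * inner ℝ ξ v)| ≤ 1 := by
        have := sin_bd m (inner ℝ ξ v)
        exact (sq_le_sq.1 this).trans hξ
      have h3 := trn_le N (inner ℝ ξ v)
      rw [Real.norm_eq_abs, abs_of_nonneg (sq_nonneg _)]
      rw [abs_le] at h1 h3
      nlinarith [h1.1, h1.2, h3.1, h3.2]
    · exact ae_of_all _ fun ξ => ((sin_lim (inner ℝ ξ v)).sub_const _).pow 2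
  rw [(ENNReal.tendsto_ofReal lim).liminf_eq]
  refine ENNReal.ofReal_le_ofReal ?_
  have hb : ∀ᵐ ξ ∂σ, (inner ℝ ξ v - trn N (inner ℝ ξ v)) ^ 2 ≤ er N ^ 2 := by
    filter_upwards [hsup] with ξ hξ
    rw [← sq_abs]
    exact pow_le_pow_left₀ (abs_nonneg _) (trn_er N hξ) 2
  have hi : Integrable (fun ξ : E d => (inner ℝ ξ v - trn N (inner ℝ ξ v)) ^ 2) σ := by
    refine (integrable_const (er N ^ 2)).mono' (by fun_prop) ?_
    filter_upwards [hb] with ξ hξ
    rw [Real.norm_eq_abs, abs_of_nonneg (sq_nonneg _)]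
    exact hξ
  refine (integral_mono_ae hi (integrable_const _) hb).trans_eq ?_
  rw [integral_const, smul_eq_mul, mul_comm]

/-- the interpolation sums do not increase even moments -/
lemma XN_pow (hτ : ∀ x, MeasurePreserving (τ x) P P) {u : S → E d → ℝ} (h : SF τ u)
    (v : E d) {p : ℕ} (hp : Even p) (hp0 : p ≠ 0) (M : Integrable (fun s => u s 0 ^ p) P)
    (N : ℕ) : Integrable (fun s => XN v N (u s) ^ p) P ∧
      ∫ s, XN v N (u s) ^ p ∂P ≤ ∫ s, u s 0 ^ p ∂P := by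
  have sp : SF τ (fun s y => u s y ^ p) := h.comp (k := fun x : ℝ => x ^ p) (contDiff_id.pow p)
  have Mx : ∀ x, Integrable (fun s => u s x ^ p) P := fun x => st_integrable hτ sp x M
  have Ex : ∀ x, ∫ s, u s x ^ p ∂P = ∫ s, u s 0 ^ p ∂P := fun x =>
    st_int hτ h x (k := fun x => x ^ p) (measurable_id.pow_const p)
  have pt : ∀ s, XN v N (u s) ^ p ≤ ∑ n ∈ Finset.range N,
      (wt n / 2 * u s (nd n • v) ^ p + wt n / 2 * u s (-(nd n • v)) ^ p) := by
    intro s
    have h1 := conv_le ((Finset.range N).disjSum (Finset.range N))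
      (Sum.elim (fun n => wt n / 2) fun n => wt n / 2)
      (Sum.elim (fun n => (-1 : ℝ) ^ n * u s (nd n • v)) fun n =>
        -((-1 : ℝ) ^ n * u s (-(nd n • v)))) (by
          intro i _
          rcases i with i | i
          · exact (div_pos (wt_pos i) two_pos).le
          · exact (div_pos (wt_pos i) two_pos).le) (by
          simp only [Finset.sum_disjSum, Sum.elim_inl, Sum.elim_inr]
          rw [← Finset.sum_add_distrib]
          simp only [add_halves]
          exact wt_sum_le N) hp hp0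
    simp only [Finset.sum_disjSum, Sum.elim_inl, Sum.elim_inr] at h1
    have e1 : ∑ n ∈ Finset.range N, wt n / 2 * ((-1 : ℝ) ^ n * u s (nd n • v)) +
        ∑ n ∈ Finset.range N, wt n / 2 * -((-1 : ℝ) ^ n * u s (-(nd n • v))) =
        XN v N (u s) := by
      unfold XN
      rw [← Finset.sum_add_distrib]
      exact Finset.sum_congr rfl fun n _ => by ring
    have e2 : ∀ (n : ℕ) (a : ℝ), ((-1 : ℝ) ^ n * a) ^ p = a ^ p := by
      intro n a
      rw [mul_pow, ← pow_mul, (hp.mul_left n).neg_one_pow, one_mul]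
    rw [e1, ← Finset.sum_add_distrib] at h1
    refine h1.trans_eq (Finset.sum_congr rfl fun n _ => ?_)
    rw [hp.neg_pow, e2, e2]
  have ir : ∀ n, Integrable (fun s => wt n / 2 * u s (nd n • v) ^ p +
      wt n / 2 * u s (-(nd n • v)) ^ p) P := fun n =>
    ((Mx _).const_mul _).add ((Mx _).const_mul _)
  have ir' : Integrable (fun s => ∑ n ∈ Finset.range N,
      (wt n / 2 * u s (nd n • v) ^ p + wt n / 2 * u s (-(nd n • v)) ^ p)) P :=
    integrable_finsetSum _ fun n _ => ir n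
  have iX : Integrable (fun s => XN v N (u s) ^ p) P := by
    refine ir'.mono' ((XN_meas h v N).pow_const p).aestronglyMeasurable (ae_of_all _ fun s => ?_)
    rw [Real.norm_eq_abs, abs_of_nonneg (hp.pow_nonneg _)]
    exact pt s
  refine ⟨iX, (integral_mono iX ir' pt).trans ?_⟩
  rw [integral_finsetSum _ fun n _ => ir n]
  have e3 : ∀ n, ∫ s, (wt n / 2 * u s (nd n • v) ^ p + wt n / 2 * u s (-(nd n • v)) ^ p) ∂P =
      wt n * ∫ s, u s 0 ^ p ∂P := by
    intro n
    rw [integral_add ((Mx _).const_mul _) ((Mx _).const_mul _), integral_const_mul,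
      integral_const_mul, Ex (nd n • v), Ex (-(nd n • v))]
    ring
  simp only [e3]
  rw [← Finset.sum_mul]
  exact mul_le_of_le_one_left (integral_nonneg fun s => hp.pow_nonneg _) (wt_sum_le N)

/-- **Bernstein's inequality** for even moments of stationary waves -/
theorem bern (hτ : ∀ x, MeasurePreserving (τ x) P P) {u : S → E d → ℝ} (W : Wave P τ u)
    {v : E d} (hv : ‖v‖ ≤ 1) {p : ℕ} (hp : Even p) (hp0 : p ≠ 0)
    (M : Integrable (fun s => u s 0 ^ p) P) :
    Integrable (fun s => DV v (u s) 0 ^ p) P ∧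
      ∫ s, DV v (u s) 0 ^ p ∂P ≤ ∫ s, u s 0 ^ p ∂P := by
  have h := W.sf
  obtain ⟨σ, hσ⟩ := exists_sm hτ h W.l2
  have := hσ.fin
  have mD : Measurable fun s => DV v (u s) 0 := (sfdv h v).meas 0
  -- convergence in measure of the squares
  have ht : TendstoInMeasure P (fun N s => (DV v (u s) 0 - XN v N (u s)) ^ 2) atTop
      (fun _ => (0 : ℝ)) := by
    refine tendstoInMeasure_of_tendsto_eLpNorm one_ne_zero (fun N =>
      ((mD.sub (XN_meas h v N)).pow_const 2).aestronglyMeasurable) aestronglyMeasurable_const ?_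
    have hb : ∀ N, eLpNorm ((fun s => (DV v (u s) 0 - XN v N (u s)) ^ 2) - fun _ => (0 : ℝ)) 1 P ≤
        ENNReal.ofReal (er N ^ 2 * σ.real Set.univ) := by
      intro N
      rw [eLpNorm_one_eq_lintegral_enorm]
      refine le_trans (le_of_eq (lintegral_congr fun s => ?_)) (riesz_l2 hτ W hv hσ N)
      rw [Pi.sub_apply, sub_zero, Real.enorm_eq_ofReal (sq_nonneg _)]
    have hz : Tendsto (fun N => ENNReal.ofReal (er N ^ 2 * σ.real Set.univ)) atTop (𝓝 0) := by
      have := ENNReal.tendsto_ofReal ((er_lim.pow 2).mul_const (σ.real Set.univ))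
      simpa using this
    exact tendsto_of_tendsto_of_tendsto_of_le_of_le tendsto_const_nhds hz (fun _ => zero_le) hb
  obtain ⟨ns, -, hns⟩ := ht.exists_seq_tendsto_ae
  have hae : ∀ᵐ s ∂P, Tendsto (fun j => XN v (ns j) (u s)) atTop (𝓝 (DV v (u s) 0)) := by
    filter_upwards [hns] with s hs
    have h1 := hs.sqrt
    rw [Real.sqrt_zero] at h1
    simp only [Real.sqrt_sq_eq_abs] at h1
    have h3 := (tendsto_zero_iff_abs_tendsto_zero _).2 h1
    have h4 := h3.const_sub (DV v (u s) 0)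
    rw [sub_zero] at h4
    refine h4.congr fun j => ?_
    ring
  have fat : ∫⁻ s, ENNReal.ofReal (DV v (u s) 0 ^ p) ∂P ≤
      ENNReal.ofReal (∫ s, u s 0 ^ p ∂P) := by
    have e1 : ∫⁻ s, ENNReal.ofReal (DV v (u s) 0 ^ p) ∂P =
        ∫⁻ s, liminf (fun j => ENNReal.ofReal (XN v (ns j) (u s) ^ p)) atTop ∂P := by
      refine lintegral_congr_ae ?_
      filter_upwards [hae] with s hs
      exact ((ENNReal.tendsto_ofReal (hs.pow p)).liminf_eq).symm
    rw [e1]
    refine (lintegral_liminf_le fun j =>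
      ((XN_meas h v (ns j)).pow_const p).ennreal_ofReal).trans ?_
    refine liminf_le_of_frequently_le' (Filter.Frequently.of_forall fun j => ?_)
    obtain ⟨a1, a2⟩ := XN_pow hτ h v hp hp0 M (ns j)
    rw [← ofReal_integral_eq_lintegral_ofReal a1 (ae_of_all _ fun s => hp.pow_nonneg _)]
    exact ENNReal.ofReal_le_ofReal a2
  have hi : Integrable (fun s => DV v (u s) 0 ^ p) P := by
    refine (lintegral_ofReal_ne_top_iff_integrable (mD.pow_const p).aestronglyMeasurable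
      (ae_of_all _ fun s => hp.pow_nonneg _)).1 ?_
    exact (lt_of_le_of_lt fat ENNReal.ofReal_lt_top).ne
  refine ⟨hi, ?_⟩
  rw [← ofReal_integral_eq_lintegral_ofReal hi (ae_of_all _ fun s => hp.pow_nonneg _)] at fat
  exact (ENNReal.ofReal_le_ofReal_iff (integral_nonneg fun s => hp.pow_nonneg _)).1 fat

end

end Pool.Agent.W2helper14.EM
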