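import Pool.Agent.W2helper14.EM.F

/-!
# Products and polynomials of stationary waves (helper14)
-/

set_option autoImplicit false
set_option linter.all false

open MeasureTheory Filter Topology ProbabilityTheory
open scoped ContDiff ENNReal RealInnerProductSpace

namespace Pool.Agent.W2helper14.EM

open Pool.Agent.Y139.SW

noncomputable section

variable {d : ℕ}

lemma DVn_sm {f : E d → ℝ} (hf : ContDiff ℝ ∞ f) (v : E d) (n : ℕ) :
    ContDiff ℝ ∞ (DVn v n f) := by
  induction n with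
  | zero => exact hf
  | succ n ih => exact DV_sm ih v

lemma pcd (p : Polynomial ℝ) : ContDiff ℝ ∞ fun x => p.eval x := by
  simp only [Polynomial.eval_eq_sum_range]
  exact ContDiff.sum fun i _ => contDiff_const.mul (contDiff_id.pow i)

lemma DVn_succ' (v : E d) (n : ℕ) (f : E d → ℝ) : DVn v (n + 1) f = DVn v n (DV v f) := by
  induction n with
  | zero => rfl
  | succ n ih =>
    show DV v (DVn v (n + 1) f) = DV v (DVn v n (DV v f))
    rw [ih]

lemma DVn_sum {ι : Type*} (T : Finset ι) {f : ι → E d → ℝ} (hf : ∀ j, ContDiff ℝ ∞ (f j))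
    (v : E d) (n : ℕ) :
    DVn v n (fun w => ∑ j ∈ T, f j w) = fun w => ∑ j ∈ T, DVn v n (f j) w := by
  induction n with
  | zero => rfl
  | succ n ih =>
    show DV v (DVn v n (fun w => ∑ j ∈ T, f j w)) = _
    rw [ih]
    funext y
    exact DV_sum T (fun j => DVn_sm (hf j) v n) v y

lemma DVn_cmul (c : ℝ) {f : E d → ℝ} (hf : ContDiff ℝ ∞ f) (v : E d) (n : ℕ) :
    DVn v n (fun w => c * f w) = fun w => c * DVn v n f w := by
  induction n with
  | zero => rfl
  | succ n ih =>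
    show DV v (DVn v n (fun w => c * f w)) = _
    rw [ih]
    funext y
    exact DV_cmul c (DVn_sm hf v n) v y

/-- products of derivatives -/
def Pr (v : E d) {i : ℕ} (a : Fin i → ℕ) (f : E d → ℝ) (y : E d) : ℝ := ∏ j, DVn v (a j) f y

lemma Pr_sm {f : E d → ℝ} (hf : ContDiff ℝ ∞ f) (v : E d) {i : ℕ} (a : Fin i → ℕ) :
    ContDiff ℝ ∞ (Pr v a f) := contDiff_prod fun j _ => DVn_sm hf v (a j)

lemma DV_Pr {f : E d → ℝ} (hf : ContDiff ℝ ∞ f) (v : E d) {i : ℕ} (a : Fin i → ℕ) :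
    DV v (Pr v a f) = fun y => ∑ j, Pr v (Function.update a j (a j + 1)) f y := by
  funext y
  have h1 : fderiv ℝ (fun y => ∏ j, DVn v (a j) f y) y = _ :=
    fderiv_finsetProd (u := Finset.univ) (g := fun j => DVn v (a j) f)
      (fun j _ => sdiff (DVn_sm hf v (a j)) y)
  show fderiv ℝ (fun y => ∏ j, DVn v (a j) f y) y v = _
  rw [h1]
  simp only [FunLike.coe_sum, Finset.sum_apply, FunLike.coe_smul, Pi.smul_apply,
    smul_eq_mul]
  refine Finset.sum_congr rfl fun j _ => ?_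
  have h2 : ∀ l, DVn v (Function.update a j (a j + 1) l) f y =
      Function.update (fun l => DVn v (a l) f y) j (DVn v (a j + 1) f y) l := by
    intro l
    by_cases hl : l = j
    · subst hl; simp
    · simp [Function.update_of_ne hl]
  unfold Pr
  simp only [h2]
  rw [Finset.prod_update_of_mem (Finset.mem_univ j), Finset.sdiff_singleton_eq_erase, mul_comm]
  rfl

variable {S : Type*} [MeasurableSpace S] {P : Measure S} {τ : E d → S → S}
  [IsProbabilityMeasure P]

lemma sfPr {f : S → E d → ℝ} (h : SF τ f) (v : E d) {i : ℕ} (a : Fin i → ℕ) :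
    SF τ (fun s => Pr v a (f s)) :=
  ⟨fun y => Finset.measurable_fun_prod _ fun j _ => (sfdvn h v (a j)).meas y,
    fun s => Pr_sm (h.smooth s) v a,
    fun x s y => Finset.prod_congr rfl fun j _ => (sfdvn h v (a j)).cov x s y⟩

lemma bern_n (hτ : ∀ x, MeasurePreserving (τ x) P P) {u : S → E d → ℝ} (W : Wave P τ u)
    {v : E d} (hv : ‖v‖ ≤ 1) {p : ℕ} (hp : Even p) (hp0 : p ≠ 0)
    (M : Integrable (fun s => u s 0 ^ p) P) (n : ℕ) :
    Integrable (fun s => DVn v n (u s) 0 ^ p) P ∧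
      ∫ s, DVn v n (u s) 0 ^ p ∂P ≤ ∫ s, u s 0 ^ p ∂P := by
  induction n with
  | zero => exact ⟨M, le_rfl⟩
  | succ n ih =>
    obtain ⟨h1, h2⟩ := bern hτ (wave_dvn hτ W v n) hv hp hp0 ih.1
    exact ⟨h1, h2.trans ih.2⟩

lemma amgm {i : ℕ} (hi : i ≠ 0) (x : Fin i → ℝ) :
    (∏ j, x j) ^ 2 ≤ ∑ j, (1 / (i : ℝ)) * x j ^ (2 * i) := by
  have hi' : (0 : ℝ) < i := by exact_mod_cast Nat.pos_of_ne_zero hi
  have h := Real.geom_mean_le_arith_mean_weighted Finset.univ (fun _ : Fin i => 1 / (i : ℝ))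
    (fun j => x j ^ (2 * i)) (fun _ _ => by positivity) (by simp; field_simp)
    (fun j _ => by rw [pow_mul]; positivity)
  refine le_trans (le_of_eq ?_) h
  rw [← Finset.prod_pow]
  refine Finset.prod_congr rfl fun j _ => ?_
  rw [pow_mul, one_div, Real.pow_rpow_inv_natCast (sq_nonneg _) hi]

lemma sum_sq_le {ι : Type*} (T : Finset ι) (x : ι → ℝ) :
    (∑ j ∈ T, x j) ^ 2 ≤ (T.card : ℝ) * ∑ j ∈ T, x j ^ 2 := sq_sum_le_card_mul_sum_sq

theorem prod_bd (hτ : ∀ x, MeasurePreserving (τ x) P P) {f : S → E d → ℝ} (W : Wave P τ f)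
    {v : E d} (hv : ‖v‖ ≤ 1) {i : ℕ} (M : Integrable (fun s => f s 0 ^ (2 * i)) P) (n : ℕ) :
    ∀ a : Fin i → ℕ, Integrable (fun s => DVn v n (Pr v a (f s)) 0 ^ 2) P ∧
      ∫ s, DVn v n (Pr v a (f s)) 0 ^ 2 ∂P ≤ ((i : ℝ) ^ 2) ^ n * ∫ s, f s 0 ^ (2 * i) ∂P := by
  induction n with
  | zero =>
    intro a
    rcases Nat.eq_zero_or_pos i with h0 | h0
    · subst h0
      have e : ∀ s, DVn v 0 (Pr v a (f s)) 0 ^ 2 = 1 := fun s => by
        show (∏ j : Fin 0, DVn v (a j) (f s) 0) ^ 2 = 1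
        simp
      simp only [e]
      simp
    · have hi0 : i ≠ 0 := h0.ne'
      have hi' : (0 : ℝ) < i := by exact_mod_cast h0
      have hb := fun j => bern_n hτ W hv (p := 2 * i) (by simp) (by lia) M (a j)
      have pt : ∀ s, DVn v 0 (Pr v a (f s)) 0 ^ 2 ≤
          ∑ j, (1 / (i : ℝ)) * DVn v (a j) (f s) 0 ^ (2 * i) := fun s =>
        amgm hi0 fun j => DVn v (a j) (f s) 0
      have ir : Integrable (fun s => ∑ j, (1 / (i : ℝ)) * DVn v (a j) (f s) 0 ^ (2 * i)) P :=
        integrable_finsetSum _ fun j _ => (hb j).1.const_mul _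
      have il : Integrable (fun s => DVn v 0 (Pr v a (f s)) 0 ^ 2) P := by
        refine ir.mono' (((sfPr W.sf v a).meas 0).pow_const 2).aestronglyMeasurable
          (ae_of_all _ fun s => ?_)
        rw [Real.norm_eq_abs, abs_of_nonneg (sq_nonneg _)]
        exact pt s
      refine ⟨il, (integral_mono il ir pt).trans ?_⟩
      rw [integral_finsetSum _ fun j _ => (hb j).1.const_mul _]
      simp only [integral_const_mul]
      calc ∑ j, 1 / (i : ℝ) * ∫ s, DVn v (a j) (f s) 0 ^ (2 * i) ∂P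
          ≤ ∑ j : Fin i, 1 / (i : ℝ) * ∫ s, f s 0 ^ (2 * i) ∂P :=
            Finset.sum_le_sum fun j _ => mul_le_mul_of_nonneg_left (hb j).2 (by positivity)
        _ = ((i : ℝ) ^ 2) ^ 0 * ∫ s, f s 0 ^ (2 * i) ∂P := by
            rw [Finset.sum_const, Finset.card_univ, Fintype.card_fin, nsmul_eq_mul]
            field_simp
  | succ n ih =>
    intro a
    have e : ∀ s, DVn v (n + 1) (Pr v a (f s)) 0 =
        ∑ j, DVn v n (Pr v (Function.update a j (a j + 1)) (f s)) 0 := by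
      intro s
      rw [DVn_succ', DV_Pr (W.sf.smooth s),
        DVn_sum Finset.univ (fun j => Pr_sm (W.sf.smooth s) v _)]
    have pt : ∀ s, DVn v (n + 1) (Pr v a (f s)) 0 ^ 2 ≤
        ∑ j, (i : ℝ) * DVn v n (Pr v (Function.update a j (a j + 1)) (f s)) 0 ^ 2 := by
      intro s
      rw [e, ← Finset.mul_sum]
      have := sum_sq_le (Finset.univ : Finset (Fin i)) fun j =>
        DVn v n (Pr v (Function.update a j (a j + 1)) (f s)) 0
      rwa [Finset.card_univ, Fintype.card_fin] at this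
    have hb := fun j => ih (Function.update a j (a j + 1))
    have ir : Integrable (fun s => ∑ j, (i : ℝ) *
        DVn v n (Pr v (Function.update a j (a j + 1)) (f s)) 0 ^ 2) P :=
      integrable_finsetSum _ fun j _ => (hb j).1.const_mul _
    have il : Integrable (fun s => DVn v (n + 1) (Pr v a (f s)) 0 ^ 2) P := by
      refine ir.mono' (((sfdvn (sfPr W.sf v a) v (n + 1)).meas 0).pow_const 2).aestronglyMeasurable
        (ae_of_all _ fun s => ?_)
      rw [Real.norm_eq_abs, abs_of_nonneg (sq_nonneg _)]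
      exact pt s
    refine ⟨il, (integral_mono il ir pt).trans ?_⟩
    rw [integral_finsetSum _ fun j _ => (hb j).1.const_mul _]
    simp only [integral_const_mul]
    calc ∑ j, (i : ℝ) * ∫ s, DVn v n (Pr v (Function.update a j (a j + 1)) (f s)) 0 ^ 2 ∂P
        ≤ ∑ j : Fin i, (i : ℝ) * (((i : ℝ) ^ 2) ^ n * ∫ s, f s 0 ^ (2 * i) ∂P) :=
          Finset.sum_le_sum fun j _ => mul_le_mul_of_nonneg_left (hb j).2 (by positivity)
      _ = ((i : ℝ) ^ 2) ^ (n + 1) * ∫ s, f s 0 ^ (2 * i) ∂P := by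
          rw [Finset.sum_const, Finset.card_univ, Fintype.card_fin, nsmul_eq_mul]
          ring

lemma pow_le_one_add {k : ℕ} {i : ℕ} (hi : i ≤ 2 * k) (x : ℝ) : |x| ^ i ≤ 1 + x ^ (2 * k) := by
  have h0 : x ^ (2 * k) = |x| ^ (2 * k) := by
    rw [pow_mul, pow_mul, sq_abs]
  rw [h0]
  rcases le_total |x| 1 with h | h
  · have := pow_le_one₀ (n := i) (abs_nonneg x) h
    have h1 : 0 ≤ |x| ^ (2 * k) := by positivity
    linarith
  · have := pow_le_pow_right₀ h hi
    linarith

lemma low_int {g : S → ℝ} (mg : Measurable g) {k : ℕ}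
    (M : Integrable (fun s => g s ^ (2 * k)) P) {i : ℕ} (hi : i ≤ 2 * k) :
    Integrable (fun s => g s ^ i) P := by
  refine ((integrable_const (1 : ℝ)).add M).mono' (mg.pow_const i).aestronglyMeasurable
    (ae_of_all _ fun s => ?_)
  rw [Real.norm_eq_abs, abs_pow]
  exact pow_le_one_add hi _

lemma mul_le_pow {k a b : ℕ} (h : a + b ≤ 2 * k) (x y : ℝ) :
    |x ^ a * y ^ b| ≤ 1 + x ^ (2 * k) + y ^ (2 * k) := by
  have h0 : ∀ x : ℝ, x ^ (2 * k) = |x| ^ (2 * k) := fun x => by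
    rw [pow_mul, pow_mul, sq_abs]
  have hx := pow_le_one_add h x
  have hy := pow_le_one_add h y
  have px : 0 ≤ x ^ (2 * k) := by rw [h0]; positivity
  have py : 0 ≤ y ^ (2 * k) := by rw [h0]; positivity
  rw [abs_mul, abs_pow, abs_pow]
  rcases le_total |x| |y| with hxy | hxy
  · have : |x| ^ a * |y| ^ b ≤ |y| ^ a * |y| ^ b :=
      mul_le_mul_of_nonneg_right (pow_le_pow_left₀ (abs_nonneg _) hxy a) (by positivity)
    rw [← pow_add] at this
    linarith
  · have : |x| ^ a * |y| ^ b ≤ |x| ^ a * |x| ^ b :=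
      mul_le_mul_of_nonneg_left (pow_le_pow_left₀ (abs_nonneg _) hxy b) (by positivity)
    rw [← pow_add] at this
    linarith

lemma int_pow {f g : S → ℝ} (mf : Measurable f) (mg : Measurable g) {k a b : ℕ}
    (h : a + b ≤ 2 * k) (Mf : Integrable (fun s => f s ^ (2 * k)) P)
    (Mg : Integrable (fun s => g s ^ (2 * k)) P) : Integrable (fun s => f s ^ a * g s ^ b) P := by
  refine (((integrable_const (1 : ℝ)).add Mf).add Mg).mono'
    ((mf.pow_const a).mul (mg.pow_const b)).aestronglyMeasurable (ae_of_all _ fun s => ?_)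
  exact mul_le_pow h _ _

lemma int_poly {f g : S → ℝ} (mf : Measurable f) (mg : Measurable g) {k b : ℕ}
    (H : Polynomial ℝ) (h : H.natDegree + b ≤ 2 * k)
    (Mf : Integrable (fun s => f s ^ (2 * k)) P)
    (Mg : Integrable (fun s => g s ^ (2 * k)) P) :
    Integrable (fun s => H.eval (f s) * g s ^ b) P := by
  have e : ∀ s, H.eval (f s) * g s ^ b =
      ∑ i ∈ Finset.range (H.natDegree + 1), H.coeff i * (f s ^ i * g s ^ b) := by
    intro s
    rw [Polynomial.eval_eq_sum_range, Finset.sum_mul]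
    exact Finset.sum_congr rfl fun i _ => by ring
  simp only [e]
  refine integrable_finsetSum _ fun i hi => (int_pow mf mg ?_ Mf Mg).const_mul _
  have := Finset.mem_range.1 hi
  lia

lemma poly_bd (hτ : ∀ x, MeasurePreserving (τ x) P P) {f : S → E d → ℝ} (W : Wave P τ f)
    {k : ℕ} (M : Integrable (fun s => f s 0 ^ (2 * k)) P) (p : Polynomial ℝ)
    (hp : p.natDegree ≤ k) {v : E d} (hv : ‖v‖ ≤ 1) :
    (∀ n, Integrable (fun s => DVn v n (fun y => p.eval (f s y)) 0 ^ 2) P) ∧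
    ∃ C, ∀ n, ∫ s, DVn v n (fun y => p.eval (f s y)) 0 ^ 2 ∂P ≤ C * ((k : ℝ) ^ 2) ^ n := by
  have Mi : ∀ i : ℕ, i ≤ k → Integrable (fun s => f s 0 ^ (2 * i)) P := fun i hi =>
    low_int (W.sf.meas 0) M (by lia)
  have e : ∀ n s, DVn v n (fun y => p.eval (f s y)) 0 = ∑ i ∈ Finset.range (k + 1),
      p.coeff i * DVn v n (Pr v (fun _ : Fin i => 0) (f s)) 0 := by
    intro n s
    have e1 : (fun y => p.eval (f s y)) = fun y => ∑ i ∈ Finset.range (k + 1),
        p.coeff i * Pr v (fun _ : Fin i => 0) (f s) y := by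
      funext y
      rw [Polynomial.eval_eq_sum_range' (n := k + 1) (by lia)]
      refine Finset.sum_congr rfl fun i _ => ?_
      unfold Pr
      simp [DVn]
    rw [e1, DVn_sum _ fun i => contDiff_const.mul (Pr_sm (W.sf.smooth s) v _)]
    refine Finset.sum_congr rfl fun i _ => ?_
    rw [DVn_cmul _ (Pr_sm (W.sf.smooth s) v _)]
  have pt : ∀ n s, DVn v n (fun y => p.eval (f s y)) 0 ^ 2 ≤ ∑ i ∈ Finset.range (k + 1),
      (((k : ℝ) + 1) * p.coeff i ^ 2) * DVn v n (Pr v (fun _ : Fin i => 0) (f s)) 0 ^ 2 := by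
    intro n s
    rw [e]
    refine (sum_sq_le _ _).trans_eq ?_
    rw [Finset.card_range, Finset.mul_sum]
    refine Finset.sum_congr rfl fun i _ => ?_
    push_cast
    ring
  have hb := fun (n i : ℕ) (hi : i ≤ k) =>
    prod_bd hτ W hv (Mi i hi) n (fun _ : Fin i => 0)
  have sG : SF τ (fun s y => p.eval (f s y)) :=
    W.sf.comp (k := fun x => p.eval x) (pcd p)
  have ir : ∀ n, ∀ i ∈ Finset.range (k + 1), Integrable (fun s => (((k : ℝ) + 1) * p.coeff i ^ 2) *
      DVn v n (Pr v (fun _ : Fin i => 0) (f s)) 0 ^ 2) P := fun n i hi =>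
    (hb n i (by have := Finset.mem_range.1 hi; lia)).1.const_mul _
  have il : ∀ n, Integrable (fun s => DVn v n (fun y => p.eval (f s y)) 0 ^ 2) P := by
    intro n
    refine (integrable_finsetSum _ (ir n)).mono'
      (((sfdvn sG v n).meas 0).pow_const 2).aestronglyMeasurable (ae_of_all _ fun s => ?_)
    rw [Real.norm_eq_abs, abs_of_nonneg (sq_nonneg _)]
    exact pt n s
  refine ⟨il, ∑ i ∈ Finset.range (k + 1), (((k : ℝ) + 1) * p.coeff i ^ 2) *
    ∫ s, f s 0 ^ (2 * i) ∂P, fun n => ?_⟩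
  refine (integral_mono (il n) (integrable_finsetSum _ (ir n)) (pt n)).trans ?_
  rw [integral_finsetSum _ (ir n), Finset.sum_mul]
  refine Finset.sum_le_sum fun i hi => ?_
  have hi' : i ≤ k := by have := Finset.mem_range.1 hi; lia
  have hnn : 0 ≤ ∫ s, f s 0 ^ (2 * i) ∂P := integral_nonneg fun s => by
    show 0 ≤ f s 0 ^ (2 * i)
    rw [pow_mul]; exact pow_nonneg (sq_nonneg _) _
  have hik : (i : ℝ) ≤ k := by exact_mod_cast hi'
  have hX : ∫ s, DVn v n (Pr v (fun _ : Fin i => 0) (f s)) 0 ^ 2 ∂P ≤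
      (∫ s, f s 0 ^ (2 * i) ∂P) * ((k : ℝ) ^ 2) ^ n := by
    refine (hb n i hi').2.trans ?_
    rw [mul_comm]
    refine mul_le_mul_of_nonneg_left ?_ hnn
    gcongr
  have hc : 0 ≤ ((k : ℝ) + 1) * p.coeff i ^ 2 := by positivity
  rw [integral_const_mul]
  refine (mul_le_mul_of_nonneg_left hX hc).trans_eq ?_
  ring

/-- **the gradient of a polynomial of a wave** -/
theorem poly_grad (hτ : ∀ x, MeasurePreserving (τ x) P P) {f : S → E d → ℝ} (W : Wave P τ f)
    {k : ℕ} (M : Integrable (fun s => f s 0 ^ (2 * k)) P) (p : Polynomial ℝ)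
    (hp : p.natDegree ≤ k) :
    ∑ i, ∫ s, (p.derivative.eval (f s 0) * D i (f s) 0) ^ 2 ∂P ≤
      (k : ℝ) ^ 2 * ∫ s, p.eval (f s 0) ^ 2 ∂P := by
  have sG : SF τ (fun s y => p.eval (f s y)) :=
    W.sf.comp (k := fun x => p.eval x) (pcd p)
  have h20 : Integrable (fun s => (fun s y => p.eval (f s y)) s 0 ^ 2) P :=
    (poly_bd hτ W M p hp (v := 0) (by simp)).1 0
  have h := grad_le hτ sG h20 (fun v hv => (poly_bd hτ W M p hp hv).1) (K := k)
    (by positivity) (fun v hv => (poly_bd hτ W M p hp hv).2)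
  have e : ∀ i s, D i (fun y => p.eval (f s y)) 0 = p.derivative.eval (f s 0) * D i (f s) 0 := by
    intro i s
    rw [D_comp (k := fun x => p.eval x) (pcd p) (W.sf.smooth s), Polynomial.deriv]
  simp only [e] at h
  exact h

/-- integration by parts -/
theorem stein (hτ : ∀ x, MeasurePreserving (τ x) P P) {f : S → E d → ℝ} (W : Wave P τ f)
    {k : ℕ} (hk : k ≠ 0) (M : Integrable (fun s => f s 0 ^ (2 * k)) P) (H : Polynomial ℝ)
    (hH : H.natDegree + 1 ≤ 2 * k) :
    (∀ i, Integrable (fun s => H.derivative.eval (f s 0) * D i (f s) 0 ^ 2) P) ∧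
    Integrable (fun s => H.eval (f s 0) * f s 0) P ∧
    ∑ i, ∫ s, H.derivative.eval (f s 0) * D i (f s) 0 ^ 2 ∂P =
      ∫ s, H.eval (f s 0) * f s 0 ∂P := by
  have m0 := W.sf.meas 0
  have ev : Even (2 * k) := by simp
  have h2k : 2 * k ≠ 0 := by lia
  have W1 := fun i => W.der hτ i
  have W2 := fun i => (W1 i).der hτ i
  have hn1 : ∀ i : Fin d, ‖(EuclideanSpace.single i (1 : ℝ) : E d)‖ ≤ 1 := fun i => by simp
  have M1 : ∀ i, Integrable (fun s => D i (f s) 0 ^ (2 * k)) P := fun i =>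
    (bern hτ W (hn1 i) ev h2k M).1
  have M2 : ∀ i, Integrable (fun s => D i (D i (f s)) 0 ^ (2 * k)) P := fun i =>
    (bern hτ (W1 i) (hn1 i) ev h2k (M1 i)).1
  have hd : H.derivative.natDegree + 2 ≤ 2 * k := by
    have h1 := Polynomial.natDegree_derivative_le H
    rcases Nat.eq_zero_or_pos H.natDegree with h0 | h0
    · rw [h0] at h1
      lia
    · lia
  have i1 : ∀ i, Integrable (fun s => H.derivative.eval (f s 0) * D i (f s) 0 ^ 2) P := fun i =>
    int_poly m0 (W1 i).m0 H.derivative hd M (M1 i)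
  have i2 : ∀ i, Integrable (fun s => H.eval (f s 0) * D i (D i (f s)) 0) P := fun i => by
    have := int_poly m0 (W2 i).m0 (b := 1) H hH M (M2 i)
    simpa using this
  have i3 : ∀ i, Integrable (fun s => H.eval (f s 0) * D i (f s) 0) P := fun i => by
    have := int_poly m0 (W1 i).m0 (b := 1) H hH M (M1 i)
    simpa using this
  have i4 : Integrable (fun s => H.eval (f s 0) * f s 0) P := by
    have := int_poly m0 m0 (b := 1) H hH M M
    simpa using this
  refine ⟨i1, i4, ?_⟩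
  have sH : SF τ (fun s y => H.eval (f s y)) :=
    W.sf.comp (k := fun x => H.eval x) (pcd H)
  have e : ∀ i s, D i (fun y => H.eval (f s y) * D i (f s) y) 0 =
      H.derivative.eval (f s 0) * D i (f s) 0 ^ 2 + H.eval (f s 0) * D i (D i (f s)) 0 := by
    intro i s
    rw [D_mul (sH.smooth s) ((W1 i).sf.smooth s),
      D_comp (k := fun x => H.eval x) (pcd H) (W.sf.smooth s), Polynomial.deriv]
    ring
  have k1 : ∀ i, ∫ s, H.derivative.eval (f s 0) * D i (f s) 0 ^ 2 ∂P =
      -∫ s, H.eval (f s 0) * D i (D i (f s)) 0 ∂P := by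
    intro i
    have h := div0 hτ (sH.mul (W1 i).sf) i (i3 i) (by
      simp only [e]
      exact (i1 i).add (i2 i))
    simp only [e] at h
    rw [integral_add (i1 i) (i2 i)] at h
    linarith
  simp only [k1]
  rw [Finset.sum_neg_distrib, ← integral_finsetSum _ fun i _ => i2 i, ← integral_neg]
  refine integral_congr_ae (ae_of_all _ fun s => ?_)
  have := W.eq s 0
  unfold Lap at this
  show -∑ i, H.eval (f s 0) * D i (D i (f s)) 0 = H.eval (f s 0) * f s 0
  rw [← Finset.mul_sum, this]; ring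

/-- **the main inequality** -/
theorem main_ineq (hτ : ∀ x, MeasurePreserving (τ x) P P) {f : S → E d → ℝ} (W : Wave P τ f)
    {k : ℕ} (hk : k ≠ 0) (M : Integrable (fun s => f s 0 ^ (2 * k)) P) (p H : Polynomial ℝ)
    (hp : p.natDegree ≤ k) (hH : H.derivative = p.derivative ^ 2)
    (hH1 : H.natDegree + 1 ≤ 2 * k) :
    ∫ s, H.eval (f s 0) * f s 0 ∂P ≤ (k : ℝ) ^ 2 * ∫ s, p.eval (f s 0) ^ 2 ∂P := by
  rw [← (stein hτ W hk M H hH1).2.2]
  refine le_trans (le_of_eq ?_) (poly_grad hτ W M p hp)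
  refine Finset.sum_congr rfl fun i _ => ?_
  rw [hH]
  refine integral_congr_ae (ae_of_all _ fun s => ?_)
  show (p.derivative ^ 2).eval (f s 0) * D i (f s) 0 ^ 2 = _
  rw [Polynomial.eval_pow]
  ring

end

end Pool.Agent.W2helper14.EM
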