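import Mathlib

/-!
# Chebyshev polynomials (helper14)
-/

set_option autoImplicit false
set_option linter.all false

open Polynomial Filter Topology
open Polynomial.Chebyshev (T U)

namespace Pool.Agent.W2helper14.EM

noncomputable section

lemma C2 : (C (2 : ℝ) : ℝ[X]) = 2 := map_ofNat C 2

lemma U_pair (n : ℕ) :
    U ℝ (n : ℤ) ^ 2 - U ℝ ((n : ℤ) - 1) ^ 2 = U ℝ (2 * (n : ℤ)) ∧
    U ℝ (n : ℤ) * U ℝ ((n : ℤ) - 1) - U ℝ ((n : ℤ) - 1) * U ℝ ((n : ℤ) - 2) =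
      U ℝ (2 * (n : ℤ) - 1) := by
  induction n with
  | zero => simp
  | succ n ih =>
    obtain ⟨ha, hb⟩ := ih
    have e0 : ((n + 1 : ℕ) : ℤ) = (n : ℤ) + 1 := by push_cast; rfl
    rw [e0]
    have r1 : U ℝ ((n : ℤ) + 1) = 2 * X * U ℝ (n : ℤ) - U ℝ ((n : ℤ) - 1) :=
      Polynomial.Chebyshev.U_add_one ℝ _
    have r2 : U ℝ ((n : ℤ) - 2) = 2 * X * U ℝ ((n : ℤ) - 1) - U ℝ (n : ℤ) :=
      Polynomial.Chebyshev.U_sub_two ℝ _
    have r3 : U ℝ (2 * (n : ℤ) + 1) = 2 * X * U ℝ (2 * (n : ℤ)) - U ℝ (2 * (n : ℤ) - 1) :=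
      Polynomial.Chebyshev.U_add_one ℝ _
    have r4 : U ℝ (2 * (n : ℤ) + 2) = 2 * X * U ℝ (2 * (n : ℤ) + 1) - U ℝ (2 * (n : ℤ)) :=
      Polynomial.Chebyshev.U_add_two ℝ _
    have s1 : (n : ℤ) + 1 - 1 = n := by ring
    have s2 : (n : ℤ) + 1 - 2 = n - 1 := by ring
    have s3 : 2 * ((n : ℤ) + 1) = 2 * n + 2 := by ring
    have s4 : 2 * (n : ℤ) + 2 - 1 = 2 * n + 1 := by ring
    rw [s1, s2, s3, s4]
    have hb' : U ℝ ((n : ℤ) + 1) * U ℝ (n : ℤ) - U ℝ (n : ℤ) * U ℝ ((n : ℤ) - 1) =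
        U ℝ (2 * (n : ℤ) + 1) := by
      rw [r3, ← ha, ← hb, r1, r2]; ring
    refine ⟨?_, hb'⟩
    rw [r4, ← hb', ← ha, r1]; ring

lemma U_sq (n : ℕ) : U ℝ (n : ℤ) ^ 2 = ∑ i ∈ Finset.range (n + 1), U ℝ (2 * (i : ℤ)) := by
  induction n with
  | zero => simp
  | succ n ih =>
    rw [Finset.sum_range_succ, ← ih]
    have h := (U_pair (n + 1)).1
    have e0 : ((n + 1 : ℕ) : ℤ) - 1 = (n : ℤ) := by push_cast; ring
    rw [e0] at h
    rw [← h]
    ring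

/-- `x ∫ (T_j')²` up to normalisation -/
def Hj (j : ℕ) : ℝ[X] :=
  ∑ i ∈ Finset.range j, C ((j : ℝ) ^ 2 / (2 * (i : ℝ) + 1)) * T ℝ (2 * (i : ℤ) + 1)

lemma Hj_der (j : ℕ) : (Hj j).derivative = (T ℝ (j : ℤ)).derivative ^ 2 := by
  rcases j with _ | n
  · simp [Hj]
  · unfold Hj
    rw [derivative_sum, Polynomial.Chebyshev.T_derivative_eq_U]
    have e0 : ((n + 1 : ℕ) : ℤ) - 1 = (n : ℤ) := by push_cast; ring
    rw [e0, mul_pow, U_sq, Finset.mul_sum]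
    refine Finset.sum_congr rfl fun i _ => ?_
    rw [derivative_C_mul, Polynomial.Chebyshev.T_derivative_eq_U]
    have e1 : (2 * (i : ℤ) + 1) - 1 = 2 * (i : ℤ) := by ring
    rw [e1]
    have e2 : (((2 * (i : ℤ) + 1 : ℤ)) : ℝ[X]) = C (2 * (i : ℝ) + 1) := by
      push_cast
      rw [map_add, map_mul, C2, map_natCast, map_one]
    have e3 : ((((n + 1 : ℕ) : ℤ) : ℤ) : ℝ[X]) = C (((n + 1 : ℕ) : ℝ)) := by
      simp
    rw [e2, e3, ← mul_assoc, ← C_mul, ← C_pow]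
    congr 2
    have : (2 * (i : ℝ) + 1) ≠ 0 := by positivity
    field_simp

lemma Hj_deg (j : ℕ) (hj : j ≠ 0) : (Hj j).natDegree + 1 ≤ 2 * j := by
  have h : (Hj j).natDegree ≤ 2 * j - 1 := by
    unfold Hj
    refine natDegree_sum_le_of_forall_le _ _ fun i hi => ?_
    refine (natDegree_C_mul_le _ _).trans ?_
    rw [Polynomial.Chebyshev.natDegree_T]
    have := Finset.mem_range.1 hi
    lia
  lia

/-- the functional -/
def ev (N : ℕ → ℝ) (c : ℝ) : ℝ[X] →ₗ[ℝ] ℝ :=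
  Polynomial.lsum fun n => (N n * c ^ n) • LinearMap.id

lemma ev_apply (N : ℕ → ℝ) (c : ℝ) (Q : ℝ[X]) : ev N c Q = Q.sum fun n a => N n * c ^ n * a := by
  simp [ev, Polynomial.lsum_apply]

lemma ev_range (N : ℕ → ℝ) (c : ℝ) (Q : ℝ[X]) {n : ℕ} (hn : Q.natDegree < n) :
    ev N c Q = ∑ i ∈ Finset.range n, N i * c ^ i * Q.coeff i := by
  rw [ev_apply, Polynomial.sum_over_range' _ _ n hn]
  intro i; ring

lemma ev_X_pow (N : ℕ → ℝ) (c : ℝ) (n : ℕ) : ev N c (X ^ n) = N n * c ^ n := by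
  rw [ev_apply, ← monomial_one_right_eq_X_pow, sum_monomial_index _ _ (by ring)]
  ring

lemma ev_one (N : ℕ → ℝ) (c : ℝ) : ev N c 1 = N 0 := by
  have := ev_X_pow N c 0
  rwa [pow_zero, pow_zero, mul_one] at this

lemma ev_C_mul (N : ℕ → ℝ) (c a : ℝ) (Q : ℝ[X]) : ev N c (C a * Q) = a * ev N c Q := by
  rw [← smul_eq_C_mul, map_smul, smul_eq_mul]

lemma ev_cont (N : ℕ → ℝ) (Q : ℝ[X]) : Continuous fun c => ev N c Q := by
  simp only [ev_apply, Polynomial.sum_def]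
  exact continuous_finsetSum _ fun i _ => by fun_prop

/-- the even Chebyshev moments -/
def tz (N : ℕ → ℝ) (c : ℝ) (n : ℤ) : ℝ := ev N c (T ℝ (2 * n))

lemma tz_neg (N : ℕ → ℝ) (c : ℝ) (n : ℤ) : tz N c (-n) = tz N c n := by
  unfold tz
  rw [show 2 * -n = -(2 * n) by ring, Polynomial.Chebyshev.T_neg]

lemma tz_zero (N : ℕ → ℝ) (c : ℝ) : tz N c 0 = N 0 := by
  unfold tz
  rw [mul_zero, Polynomial.Chebyshev.T_zero, ev_one]

lemma tz_one (N : ℕ → ℝ) (c : ℝ) : tz N c 1 = 2 * c ^ 2 * N 2 - N 0 := by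
  unfold tz
  rw [mul_one, Polynomial.Chebyshev.T_two, map_sub, ev_one]
  rw [← C2, ev_C_mul, ev_X_pow]
  ring

lemma ev_Hj (N : ℕ → ℝ) (c : ℝ) (j : ℕ) : ev N c (X * Hj j) =
    (j : ℝ) ^ 2 / 2 * ∑ i ∈ Finset.range j,
      (tz N c ((i : ℤ) + 1) + tz N c i) / (2 * (i : ℝ) + 1) := by
  unfold Hj
  rw [Finset.mul_sum, map_sum, Finset.mul_sum]
  refine Finset.sum_congr rfl fun i _ => ?_
  have h := Polynomial.Chebyshev.T_mul_T ℝ (2 * (i : ℤ) + 1) 1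
  rw [Polynomial.Chebyshev.T_one, show 2 * (i : ℤ) + 1 + 1 = 2 * ((i : ℤ) + 1) by ring,
    show 2 * (i : ℤ) + 1 - 1 = 2 * (i : ℤ) by ring] at h
  have e : X * (C ((j : ℝ) ^ 2 / (2 * (i : ℝ) + 1)) * T ℝ (2 * (i : ℤ) + 1)) =
      C ((j : ℝ) ^ 2 / (2 * (i : ℝ) + 1) / 2) * (T ℝ (2 * ((i : ℤ) + 1)) + T ℝ (2 * (i : ℤ))) := by
    rw [← h]
    have h2 : (C ((j : ℝ) ^ 2 / (2 * (i : ℝ) + 1) / 2) : ℝ[X]) * 2 =
        C ((j : ℝ) ^ 2 / (2 * (i : ℝ) + 1)) := by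
      rw [← C2, ← C_mul]
      congr 1
      ring
    rw [← h2]
    ring
  rw [e, ev_C_mul, map_add]
  unfold tz
  ring

lemma ev_T_sq (N : ℕ → ℝ) (c : ℝ) (j : ℤ) :
    ev N c (T ℝ j ^ 2) = (tz N c j + N 0) / 2 := by
  have h := Polynomial.Chebyshev.T_mul_T ℝ j j
  rw [sub_self, Polynomial.Chebyshev.T_zero, show j + j = 2 * j by ring] at h
  have e : T ℝ j ^ 2 = C (1 / 2) * (T ℝ (2 * j) + 1) := by
    rw [← h]
    have h2 : (C (1 / 2 : ℝ) : ℝ[X]) * 2 = 1 := by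
      rw [← C2, ← C_mul]
      norm_num
    linear_combination (-(T ℝ j) ^ 2) * h2
  rw [e, ev_C_mul, map_add, ev_one]
  unfold tz
  ring

lemma two_X_pow (n : ℕ) : (2 * X : ℝ[X]) ^ n =
    ∑ l ∈ Finset.range (n + 1), (n.choose l : ℝ[X]) * T ℝ ((n : ℤ) - 2 * l) := by
  induction n with
  | zero => simp
  | succ n ih =>
    have h2 : ∀ m : ℤ, 2 * X * T ℝ m = T ℝ (m + 1) + T ℝ (m - 1) := by
      intro m
      have := Polynomial.Chebyshev.T_add_one ℝ m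
      linear_combination -this
    rw [pow_succ, ih, Finset.sum_mul]
    have e1 : ∀ l : ℕ, (n.choose l : ℝ[X]) * T ℝ ((n : ℤ) - 2 * l) * (2 * X) =
        (n.choose l : ℝ[X]) * T ℝ ((n : ℤ) + 1 - 2 * l) +
        (n.choose l : ℝ[X]) * T ℝ ((n : ℤ) - 1 - 2 * l) := by
      intro l
      have := h2 ((n : ℤ) - 2 * l)
      rw [show (n : ℤ) - 2 * l + 1 = n + 1 - 2 * l by ring,
        show (n : ℤ) - 2 * l - 1 = n - 1 - 2 * l by ring] at this
      linear_combination (n.choose l : ℝ[X]) * this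
    simp only [e1]
    rw [Finset.sum_add_distrib, Finset.sum_range_succ' _ (n + 1)]
    have e2 : ∀ l : ℕ, ((n + 1).choose (l + 1) : ℝ[X]) *
        T ℝ (((n + 1 : ℕ) : ℤ) - 2 * ((l + 1 : ℕ) : ℤ)) =
        (n.choose l : ℝ[X]) * T ℝ ((n : ℤ) - 1 - 2 * l) +
        (n.choose (l + 1) : ℝ[X]) * T ℝ ((n : ℤ) - 1 - 2 * l) := by
      intro l
      rw [Nat.choose_succ_succ]
      push_cast
      rw [show (n : ℤ) + 1 - 2 * (l + 1) = n - 1 - 2 * l by ring]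
      ring
    simp only [e2]
    rw [Finset.sum_add_distrib]
    have e3 : ∑ l ∈ Finset.range (n + 1), (n.choose l : ℝ[X]) * T ℝ ((n : ℤ) + 1 - 2 * l) =
        ∑ l ∈ Finset.range (n + 1), (n.choose (l + 1) : ℝ[X]) * T ℝ ((n : ℤ) - 1 - 2 * l) +
        T ℝ ((n : ℤ) + 1) := by
      rw [Finset.sum_range_succ' _ n, Finset.sum_range_succ _ n]
      simp only [Nat.choose_succ_self, Nat.cast_zero, zero_mul, add_zero]
      congr 1
      · refine Finset.sum_congr rfl fun l _ => ?_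
        push_cast
        rw [show (n : ℤ) + 1 - 2 * (l + 1) = n - 1 - 2 * l by ring]
      · simp
    rw [e3]
    simp only [Nat.choose_zero_right, Nat.cast_one, one_mul]
    push_cast
    simp only [mul_zero, sub_zero]
    ring

/-- moments in terms of Chebyshev moments -/
lemma mom_eq (N : ℕ → ℝ) (c : ℝ) (j : ℕ) : (4 * c ^ 2) ^ j * N (2 * j) =
    ∑ l ∈ Finset.range (2 * j + 1), ((2 * j).choose l : ℝ) * tz N c ((j : ℤ) - l) := by
  have h := congrArg (ev N c) (two_X_pow (2 * j))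
  have e1 : (2 * X : ℝ[X]) ^ (2 * j) = C ((4 : ℝ) ^ j) * X ^ (2 * j) := by
    rw [mul_pow, pow_mul]
    have : (2 : ℝ[X]) ^ 2 = C 4 := by
      rw [← C2, ← C_pow]; norm_num
    rw [this, ← C_pow]
  rw [e1, ev_C_mul, ev_X_pow, map_sum] at h
  have e2 : (4 * c ^ 2) ^ j * N (2 * j) = 4 ^ j * (N (2 * j) * c ^ (2 * j)) := by
    rw [mul_pow, pow_mul]; ring
  rw [e2, h]
  refine Finset.sum_congr rfl fun l _ => ?_
  have e3 : ((2 * j).choose l : ℝ[X]) = C ((2 * j).choose l : ℝ) := by simp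
  rw [e3, ev_C_mul]
  unfold tz
  rw [show ((2 * j : ℕ) : ℤ) - 2 * (l : ℤ) = 2 * ((j : ℤ) - l) by push_cast; ring]

lemma choose_id (n l : ℕ) : (n + 2).choose (l + 1) * ((l + 1) * (n + 1 - l)) =
    (n + 2) * (n + 1) * n.choose l := by
  rcases Nat.lt_or_ge n l with h | h
  · rcases Nat.lt_or_ge (n + 1) l with h2 | h2
    · rw [Nat.choose_eq_zero_of_lt (show n < l by lia),
        Nat.choose_eq_zero_of_lt (show n + 2 < l + 1 by lia)]; simp
    · have : l = n + 1 := by lia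
      subst this
      simp
  · have h1 := Nat.add_one_mul_choose_eq (n + 1) l
    have h2 := Nat.choose_mul_succ_eq n l
    -- h1 : (n + 2) * (n + 1).choose l = (n + 2).choose (l + 1) * (l + 1)
    -- h2 : n.choose l * (n + 1) = (n + 1).choose l * (n + 1 - l)
    calc (n + 2).choose (l + 1) * ((l + 1) * (n + 1 - l))
        = ((n + 1 + 1).choose (l + 1) * (l + 1)) * (n + 1 - l) := by ring
      _ = ((n + 1 + 1) * (n + 1).choose l) * (n + 1 - l) := by rw [← h1]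
      _ = (n + 2) * ((n + 1).choose l * (n + 1 - l)) := by ring
      _ = (n + 2) * (n.choose l * (n + 1)) := by rw [← h2]
      _ = (n + 2) * (n + 1) * n.choose l := by ring

lemma choose_ineq (j l : ℕ) (hl : l ≤ 2 * j) :
    2 * (2 * (j : ℝ) + 1) / ((j : ℝ) + 1) * ((2 * j).choose l : ℝ) ≤
      ((2 * j + 2).choose (l + 1) : ℝ) := by
  have h := choose_id (2 * j) l
  have h' : ((2 * j + 2).choose (l + 1) : ℝ) * (((l : ℝ) + 1) * (2 * j + 1 - l)) =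
      (2 * (j : ℝ) + 2) * (2 * j + 1) * ((2 * j).choose l : ℝ) := by
    have := congrArg (Nat.cast : ℕ → ℝ) h
    push_cast at this
    rw [Nat.cast_sub (by lia)] at this
    push_cast at this
    exact this
  have hj : (0 : ℝ) < (j : ℝ) + 1 := by positivity
  rw [div_mul_eq_mul_div, div_le_iff₀ hj]
  have h3 : ((l : ℝ) + 1) * (2 * j + 1 - l) ≤ ((j : ℝ) + 1) ^ 2 := by
    nlinarith [sq_nonneg ((l : ℝ) - j)]
  have h4 : (2 * (j : ℝ) + 2) * (2 * j + 1) * ((2 * j).choose l : ℝ) ≤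
      ((2 * j + 2).choose (l + 1) : ℝ) * ((j : ℝ) + 1) ^ 2 := by
    rw [← h']
    exact mul_le_mul_of_nonneg_left h3 (by positivity)
  have h5 : (2 * (2 * (j : ℝ) + 1) * ((2 * j).choose l : ℝ)) * ((j : ℝ) + 1) ≤
      (((2 * j + 2).choose (l + 1) : ℝ) * ((j : ℝ) + 1)) * ((j : ℝ) + 1) := by
    linarith
  exact le_of_mul_le_mul_right h5 hj

lemma choose_eq' (j : ℕ) :
    2 * (2 * (j : ℝ) + 1) / ((j : ℝ) + 1) * ((2 * j).choose j : ℝ) =
      ((2 * j + 2).choose (j + 1) : ℝ) := by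
  have h := choose_id (2 * j) j
  have h' : ((2 * j + 2).choose (j + 1) : ℝ) * (((j : ℝ) + 1) * (2 * j + 1 - j)) =
      (2 * (j : ℝ) + 2) * (2 * j + 1) * ((2 * j).choose j : ℝ) := by
    have := congrArg (Nat.cast : ℕ → ℝ) h
    push_cast at this
    rw [Nat.cast_sub (by lia)] at this
    push_cast at this
    exact this
  have hj : (0 : ℝ) < (j : ℝ) + 1 := by positivity
  rw [div_mul_eq_mul_div, div_eq_iff hj.ne']
  have h5 : (2 * (2 * (j : ℝ) + 1) * ((2 * j).choose j : ℝ)) * ((j : ℝ) + 1) =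
      (((2 * j + 2).choose (j + 1) : ℝ) * ((j : ℝ) + 1)) * ((j : ℝ) + 1) := by
    linear_combination -h'
  exact mul_right_cancel₀ hj.ne' h5

/-- the ratio inequality for abstract Chebyshev moments -/
lemma ratio {t : ℤ → ℝ} {k j : ℕ} (hj : j < k) (hneg : ∀ n, t (-n) = t n) (t1 : t 1 = 0)
    (tp : ∀ n : ℕ, 2 ≤ n → n ≤ k → 0 ≤ t n) :
    2 * (2 * (j : ℝ) + 1) / ((j : ℝ) + 1) *
      ∑ l ∈ Finset.range (2 * j + 1), ((2 * j).choose l : ℝ) * t ((j : ℤ) - l) ≤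
    ∑ l ∈ Finset.range (2 * (j + 1) + 1), ((2 * (j + 1)).choose l : ℝ) *
      t (((j + 1 : ℕ) : ℤ) - l) := by
  have pos : ∀ n : ℤ, n ≠ 0 → n.natAbs ≤ k → 0 ≤ t n := by
    intro n hn hk
    have key : t n = t (n.natAbs : ℤ) := by
      rcases Int.natAbs_eq n with h | h
      · rw [← h]
      · rw [h, hneg]; simp
    rw [key]
    rcases Nat.lt_or_ge n.natAbs 2 with h2 | h2
    · have : n.natAbs = 1 := by
        have : n.natAbs ≠ 0 := by simpa using hn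
        lia
      rw [this]
      exact t1.ge
    · exact tp _ h2 hk
  have e : ∀ F : ℕ → ℝ, ∑ l ∈ Finset.range (2 * j + 1 + 1 + 1), F l =
      ∑ l ∈ Finset.range (2 * j + 1), F (l + 1) + F (2 * j + 1 + 1) + F 0 := by
    intro F
    rw [Finset.sum_range_succ', Finset.sum_range_succ]
  rw [show 2 * (j + 1) = 2 * j + 1 + 1 by ring, e, Finset.mul_sum]
  have h1 : 0 ≤ ((2 * j + 1 + 1).choose (2 * j + 1 + 1) : ℝ) *
      t (((j + 1 : ℕ) : ℤ) - ((2 * j + 1 + 1 : ℕ) : ℤ)) := by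
    refine mul_nonneg (by positivity) (pos _ ?_ ?_) <;> push_cast <;> lia
  have h0' : 0 ≤ ((2 * j + 1 + 1).choose 0 : ℝ) * t (((j + 1 : ℕ) : ℤ) - ((0 : ℕ) : ℤ)) := by
    refine mul_nonneg (by positivity) (pos _ ?_ ?_) <;> push_cast <;> lia
  have h2 : ∑ l ∈ Finset.range (2 * j + 1), 2 * (2 * (j : ℝ) + 1) / ((j : ℝ) + 1) *
      (((2 * j).choose l : ℝ) * t ((j : ℤ) - l)) ≤
      ∑ l ∈ Finset.range (2 * j + 1), ((2 * j + 1 + 1).choose (l + 1) : ℝ) *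
        t (((j + 1 : ℕ) : ℤ) - ((l + 1 : ℕ) : ℤ)) := by
    refine Finset.sum_le_sum fun l hl => ?_
    have hl' := Finset.mem_range.1 hl
    have e : ((j + 1 : ℕ) : ℤ) - ((l + 1 : ℕ) : ℤ) = (j : ℤ) - l := by push_cast; ring
    rw [e, ← mul_assoc]
    by_cases hjl : l = j
    · subst hjl
      rw [choose_eq']
    · refine mul_le_mul_of_nonneg_right (choose_ineq j l (by lia)) (pos _ ?_ ?_) <;> lia
  exact h2.trans ((le_add_of_nonneg_right h1).trans (le_add_of_nonneg_right h0'))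

/-- positivity and growth of the Chebyshev moments -/
lemma growth {t : ℕ → ℝ} {k : ℕ} (t0 : t 0 = 1) (t1 : t 1 = 0)
    (h : ∀ j, 1 ≤ j → j ≤ k → ∑ i ∈ Finset.range j, (t (i + 1) + t i) / (2 * (i : ℝ) + 1) ≤
      1 + t j) :
    (∀ j, 2 ≤ j → j ≤ k → 0 ≤ t j) ∧ (∀ j, 3 ≤ j → j ≤ k → 2 * (j : ℝ) / 9 * t 2 ≤ t j) := by
  obtain ⟨A, hA⟩ : ∃ A : ℕ → ℝ, A = fun j => ∑ i ∈ Finset.range j,
      t i * (4 * (i : ℝ) / (4 * (i : ℝ) ^ 2 - 1)) := ⟨_, rfl⟩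
  have A1 : ∀ j, A (j + 1) = A j + t j * (4 * (j : ℝ) / (4 * (j : ℝ) ^ 2 - 1)) := by
    intro j
    rw [hA]
    exact Finset.sum_range_succ _ _
  have A0 : A 0 = 0 := by rw [hA]; simp
  have A11 : A 1 = 0 := by rw [A1 0, A0]; simp
  have A2 : A 2 = 0 := by rw [A1 1, A11, t1]; simp
  have hS : ∀ j, ∑ i ∈ Finset.range (j + 1), (t (i + 1) + t i) / (2 * (i : ℝ) + 1) =
      1 + A (j + 1) + t (j + 1) / (2 * (j : ℝ) + 1) := by
    intro j
    induction j with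
    | zero => simp [t0, t1, A11]
    | succ j ih =>
      rw [Finset.sum_range_succ, ih, A1 (j + 1)]
      push_cast
      have h1 : (2 * (j : ℝ) + 1) ≠ 0 := by positivity
      have h2 : (2 * ((j : ℝ) + 1) + 1) ≠ 0 := by positivity
      have h3 : 4 * ((j : ℝ) + 1) ^ 2 - 1 = (2 * (j : ℝ) + 1) * (2 * ((j : ℝ) + 1) + 1) := by ring
      rw [h3]
      field_simp
      ring
  have key : ∀ j : ℕ, 1 ≤ j → j + 1 ≤ k → A (j + 1) ≤ t (j + 1) * (2 * (j : ℝ) / (2 * j + 1)) := by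
    intro j hj hk
    have h1 := h (j + 1) (by lia) hk
    rw [hS] at h1
    have h2 : t (j + 1) * (2 * (j : ℝ) / (2 * j + 1)) = t (j + 1) - t (j + 1) / (2 * (j : ℝ) + 1) := by
      have h1 : (2 * (j : ℝ) + 1) ≠ 0 := by positivity
      field_simp
      ring
    linarith
  have pos4 : ∀ j : ℕ, 1 ≤ j → 0 < 4 * (j : ℝ) / (4 * (j : ℝ) ^ 2 - 1) := by
    intro j hj
    have : (1 : ℝ) ≤ j := by exact_mod_cast hj
    refine div_pos (by linarith) (by nlinarith)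
  have nn : ∀ j, 2 ≤ j → j ≤ k → 0 ≤ t j ∧ 0 ≤ A j := by
    intro j hj
    induction j, hj using Nat.le_induction with
    | base =>
      intro hk
      refine ⟨?_, A2.ge⟩
      have := key 1 le_rfl hk
      rw [A2] at this
      norm_num at this
      linarith
    | succ j hj ih =>
      intro hk
      obtain ⟨a1, a2⟩ := ih (by lia)
      have a3 : 0 ≤ A (j + 1) := by
        rw [A1]
        exact add_nonneg a2 (mul_nonneg a1 (pos4 j (by lia)).le)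
      refine ⟨?_, a3⟩
      have h1 := key j (by lia) hk
      have h2 : (0 : ℝ) < 2 * (j : ℝ) / (2 * j + 1) := by
        have : (0 : ℝ) < j := by exact_mod_cast (show 0 < j by lia)
        positivity
      by_contra hc
      push Not at hc
      have := mul_neg_of_neg_of_pos hc h2
      linarith
  refine ⟨fun j hj hk => (nn j hj hk).1, ?_⟩
  have gr : ∀ j, 3 ≤ j → j ≤ k → (2 * (j : ℝ) / 9) * (2 * (j : ℝ) - 2) / (2 * j - 1) * t 2 ≤ A j := by
    intro j hj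
    induction j, hj using Nat.le_induction with
    | base =>
      intro hk
      rw [A1 2, A2]
      push_cast
      norm_num
      linarith
    | succ j hj ih =>
      intro hk
      have a := ih (by lia)
      obtain ⟨i, rfl⟩ : ∃ i, j = i + 1 := ⟨j - 1, by lia⟩
      have b := key i (by lia) (by lia)
      rw [A1 (i + 1)]
      push_cast at a b ⊢
      have hi : (2 : ℝ) ≤ i := by exact_mod_cast (show 2 ≤ i by lia)
      have h1 : 0 < 2 * (i : ℝ) + 1 := by linarith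
      have h2 : 0 < 2 * (i : ℝ) := by linarith
      have h3 : 0 < 4 * ((i : ℝ) + 1) ^ 2 - 1 := by nlinarith
      have ht : 2 * ((i : ℝ) + 1) / 9 * t 2 ≤ t (i + 1) := by
        have e : 2 * ((i : ℝ) + 1) / 9 * (2 * ((i : ℝ) + 1) - 2) / (2 * ((i : ℝ) + 1) - 1) * t 2 =
            (2 * ((i : ℝ) + 1) / 9 * t 2) * (2 * (i : ℝ) / (2 * i + 1)) := by
          have : 2 * ((i : ℝ) + 1) - 1 = 2 * i + 1 := by ring
          rw [this]
          field_simp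
          ring
        rw [e] at a
        exact le_of_mul_le_mul_right (a.trans b) (by positivity)
      have hp : 0 < 4 * ((i : ℝ) + 1) / (4 * ((i : ℝ) + 1) ^ 2 - 1) := by positivity
      have := mul_le_mul_of_nonneg_right ht hp.le
      refine le_trans (le_of_eq ?_) (add_le_add a this)
      have h4 : 2 * ((i : ℝ) + 1) - 1 ≠ 0 := by
        have : 2 * ((i : ℝ) + 1) - 1 = 2 * i + 1 := by ring
        rw [this]; exact h1.ne'
      have h5 : 2 * ((i : ℝ) + 1 + 1) - 1 ≠ 0 := by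
        have : 2 * ((i : ℝ) + 1 + 1) - 1 = 2 * i + 3 := by ring
        rw [this]; positivity
      have h6 : 4 * ((i : ℝ) + 1) ^ 2 - 1 ≠ 0 := h3.ne'
      have h7 : 4 * ((i : ℝ) + 1) ^ 2 - 1 = (2 * ((i : ℝ) + 1) - 1) * (2 * ((i : ℝ) + 1 + 1) - 1) := by
        ring
      rw [h7]
      field_simp
      ring
  intro j hj hk
  obtain ⟨i, rfl⟩ : ∃ i, j = i + 1 := ⟨j - 1, by lia⟩
  have a := gr (i + 1) hj hk
  have b := key i (by lia) hk
  push_cast at a b ⊢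
  have hi : (2 : ℝ) ≤ i := by exact_mod_cast (show 2 ≤ i by lia)
  have e : 2 * ((i : ℝ) + 1) / 9 * (2 * ((i : ℝ) + 1) - 2) / (2 * ((i : ℝ) + 1) - 1) * t 2 =
      (2 * ((i : ℝ) + 1) / 9 * t 2) * (2 * (i : ℝ) / (2 * i + 1)) := by
    have : 2 * ((i : ℝ) + 1) - 1 = 2 * i + 1 := by ring
    rw [this]
    have h1 : 2 * (i : ℝ) + 1 ≠ 0 := by positivity
    field_simp
    ring
  rw [e] at a
  exact le_of_mul_le_mul_right (a.trans b) (by positivity)

/-- the deterministic theorem -/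
theorem det {N : ℕ → ℝ} {k : ℕ} {m : ℝ} (hm : 0 < m) (N0 : N 0 = 1) (N2 : N 2 = m)
    (h : ∀ c : ℝ, 0 < c → ∀ j, 1 ≤ j → j ≤ k →
      ev N c (X * Hj j) ≤ (j : ℝ) ^ 2 * ev N c (T ℝ (j : ℤ) ^ 2)) :
    (∀ j, 2 ≤ j → j ≤ k → 0 ≤ tz N (1 / √(2 * m)) j) ∧
    (∀ j, 3 ≤ j → j ≤ k → 2 * (j : ℝ) / 9 * tz N (1 / √(2 * m)) 2 ≤ tz N (1 / √(2 * m)) j) ∧
    (∀ j, j < k → (2 * (j : ℝ) + 1) / ((j : ℝ) + 1) * (m * N (2 * j)) ≤ N (2 * (j + 1))) := by
  obtain ⟨c, hc⟩ : ∃ c, c = 1 / √(2 * m) := ⟨_, rfl⟩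
  rw [← hc]
  have hc0 : 0 < c := by rw [hc]; positivity
  have hc2 : c ^ 2 = 1 / (2 * m) := by
    rw [hc, div_pow, one_pow, Real.sq_sqrt (by positivity)]
  have t0 : tz N c 0 = 1 := by rw [tz_zero, N0]
  have t1 : tz N c 1 = 0 := by
    rw [tz_one, N0, N2, hc2]
    field_simp
    ring
  have st : ∀ j : ℕ, 1 ≤ j → j ≤ k → ∑ i ∈ Finset.range j,
      (tz N c ((i + 1 : ℕ) : ℤ) + tz N c ((i : ℕ) : ℤ)) / (2 * (i : ℝ) + 1) ≤
      1 + tz N c (j : ℤ) := by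
    intro j hj hk
    have h1 := h c hc0 j hj hk
    rw [ev_Hj, ev_T_sq, N0] at h1
    have hj2 : (0 : ℝ) < (j : ℝ) ^ 2 / 2 := by
      have : (0 : ℝ) < j := by exact_mod_cast hj
      positivity
    have h2 : (j : ℝ) ^ 2 * ((tz N c (j : ℤ) + 1) / 2) = (j : ℝ) ^ 2 / 2 * (1 + tz N c (j : ℤ)) := by
      ring
    rw [h2] at h1
    have h3 := le_of_mul_le_mul_left h1 hj2
    push_cast
    exact h3
  obtain ⟨g1, g2⟩ := growth (t := fun j : ℕ => tz N c (j : ℤ)) (k := k)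
    (by simpa using t0) (by simpa using t1) st
  refine ⟨g1, fun j hj hk => by simpa using g2 j hj hk, fun j hj => ?_⟩
  have hr := ratio (t := tz N c) hj (tz_neg N c) t1 g1
  rw [← mom_eq, ← mom_eq] at hr
  have h4 : 4 * c ^ 2 = 2 / m := by
    rw [hc2]; field_simp; norm_num
  rw [h4, pow_succ] at hr
  have hp : 0 < (2 / m) ^ j := by positivity
  have h5 : (2 / m) ^ j * (2 * (2 * (j : ℝ) + 1) / ((j : ℝ) + 1) * N (2 * j)) ≤
      (2 / m) ^ j * (2 / m * N (2 * (j + 1))) := by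
    linarith
  have h6 := le_of_mul_le_mul_left h5 hp
  have h7 := mul_le_mul_of_nonneg_left h6 (show 0 ≤ m / 2 by positivity)
  have e1 : m / 2 * (2 / m * N (2 * (j + 1))) = N (2 * (j + 1)) := by
    field_simp
  rw [e1] at h7
  refine le_trans (le_of_eq ?_) h7
  ring

end

end Pool.Agent.W2helper14.EM
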