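import Pool.Agent.W2helper14.EM.G
import Pool.Agent.W2helper14.EM.H
import Pool.Agent.W2helper17.FM.F

/-!
# Conditional moments (helper14)
-/

set_option autoImplicit false
set_option linter.all false

open MeasureTheory Filter Topology
open scoped ContDiff ENNReal

namespace Pool.Agent.W2helper14.EM

open Pool.Agent.Y139.SW
open Pool.Agent.W2helper17.FM (inv inv_le inv_fun)
open Polynomial.Chebyshev (T)

noncomputable section

variable {d : ℕ} {μ : Measure (Sp d)} [IsProbabilityMeasure μ]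

lemma W_of (P : Measure (Sp d)) (h2 : Integrable (fun f : Sp d => f.1 0 ^ 2) P) :
    Wave P sh (fun f : Sp d => f.1) :=
  ⟨⟨fun y => (measurable_pi_apply y).comp measurable_subtype_coe, fun f => f.2.1,
    fun _ _ _ => rfl⟩, fun f y => f.2.2 y, h2⟩

lemma val_me : Measurable fun f : Sp d => f.1 0 :=
  (measurable_pi_apply (0 : E d)).comp measurable_subtype_coe

lemma val_int {k : ℕ} (M : Integrable (fun f : Sp d => f.1 0 ^ (2 * k)) μ) {i : ℕ}
    (hi : i ≤ 2 * k) : Integrable (fun f : Sp d => f.1 0 ^ i) μ := low_int val_me M hi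

section cond

variable (hμ : ∀ x : E d, MeasurePreserving (sh x) μ μ)

include hμ in
lemma cond_pres {A : Set (Sp d)} (hA : MeasurableSet[inv d] A) (x : E d) :
    MeasurePreserving (sh x) (ProbabilityTheory.cond μ A) (ProbabilityTheory.cond μ A) := by
  unfold ProbabilityTheory.cond
  have h1 := (hμ x).restrict_preimage (inv_le _ hA)
  rw [hA.2 x] at h1
  exact h1.smul_measure _

lemma cond_int {A : Set (Sp d)} {g : Sp d → ℝ} (h0 : μ A ≠ 0) (hg : Integrable g μ) :
    Integrable g (ProbabilityTheory.cond μ A) := by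
  unfold ProbabilityTheory.cond
  exact hg.restrict.smul_measure (ENNReal.inv_ne_top.2 h0)

lemma cond_integral (A : Set (Sp d)) (g : Sp d → ℝ) :
    ∫ f, g f ∂(ProbabilityTheory.cond μ A) = (μ A)⁻¹.toReal * ∫ f in A, g f ∂μ := by
  unfold ProbabilityTheory.cond
  rw [integral_smul_measure, smul_eq_mul]

lemma cond_pos {A : Set (Sp d)} (h0 : μ A ≠ 0) : 0 < (μ A)⁻¹.toReal :=
  ENNReal.toReal_pos (ENNReal.inv_ne_zero.2 (measure_ne_top μ A)) (ENNReal.inv_ne_top.2 h0)

include hμ in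
/-- the main inequality on invariant sets -/
lemma set_ineq {k : ℕ} (hk : k ≠ 0) (M : Integrable (fun f : Sp d => f.1 0 ^ (2 * k)) μ)
    (p H : Polynomial ℝ) (hp : p.natDegree ≤ k) (hH : H.derivative = p.derivative ^ 2)
    (hH1 : H.natDegree + 1 ≤ 2 * k) {A : Set (Sp d)} (hA : MeasurableSet[inv d] A) :
    ∫ f in A, H.eval (f.1 0) * f.1 0 ∂μ ≤ (k : ℝ) ^ 2 * ∫ f in A, p.eval (f.1 0) ^ 2 ∂μ := by
  by_cases h0 : μ A = 0
  · have : μ.restrict A = 0 := Measure.restrict_eq_zero.2 h0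
    rw [this]; simp
  · have := ProbabilityTheory.cond_isProbabilityMeasure (μ := μ) h0
    have h := main_ineq (P := ProbabilityTheory.cond μ A) (cond_pres hμ hA)
      (W_of _ (cond_int h0 (val_int M (by lia)))) hk (cond_int h0 M) p H hp hH hH1
    rw [cond_integral, cond_integral] at h
    have hp := cond_pos h0
    have h2 : (μ A)⁻¹.toReal * ∫ f in A, H.eval (f.1 0) * f.1 0 ∂μ ≤
        (μ A)⁻¹.toReal * ((k : ℝ) ^ 2 * ∫ f in A, p.eval (f.1 0) ^ 2 ∂μ) := by
      refine h.trans_eq ?_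
      ring
    exact le_of_mul_le_mul_left h2 hp

include hμ in
/-- integration by parts on invariant sets -/
lemma set_stein {k : ℕ} (hk : k ≠ 0) (M : Integrable (fun f : Sp d => f.1 0 ^ (2 * k)) μ)
    (H : Polynomial ℝ) (hH1 : H.natDegree + 1 ≤ 2 * k) {A : Set (Sp d)}
    (hA : MeasurableSet[inv d] A) :
    ∑ i, ∫ f in A, H.derivative.eval (f.1 0) * D i f.1 0 ^ 2 ∂μ =
      ∫ f in A, H.eval (f.1 0) * f.1 0 ∂μ := by
  by_cases h0 : μ A = 0
  · have : μ.restrict A = 0 := Measure.restrict_eq_zero.2 h0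
    rw [this]; simp
  · have := ProbabilityTheory.cond_isProbabilityMeasure (μ := μ) h0
    have h := (stein (P := ProbabilityTheory.cond μ A) (cond_pres hμ hA)
      (W_of _ (cond_int h0 (val_int M (by lia)))) hk (cond_int h0 M) H hH1).2.2
    simp only [cond_integral] at h
    rw [← Finset.mul_sum] at h
    exact mul_left_cancel₀ (cond_pos h0).ne' h

end cond

lemma ae_le_of_inv {F G : Sp d → ℝ} (mF : Measurable[inv d] F) (mG : Measurable[inv d] G)
    (iF : Integrable F μ) (iG : Integrable G μ)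
    (h : ∀ A, MeasurableSet[inv d] A → ∫ f in A, F f ∂μ ≤ ∫ f in A, G f ∂μ) :
    ∀ᵐ f ∂μ, F f ≤ G f := by
  obtain ⟨A, hA⟩ : ∃ A : Set (Sp d), A = {f | G f < F f} := ⟨_, rfl⟩
  have mA : MeasurableSet[inv d] A := by rw [hA]; exact measurableSet_lt (mδ := inv d) mG mF
  have mA' := inv_le _ mA
  have h1 := h A mA
  have h2 : ∫ f in A, (F f - G f) ∂μ ≤ 0 := by
    rw [integral_sub iF.integrableOn iG.integrableOn]; linarith
  have h3 : 0 ≤ᵐ[μ.restrict A] fun f => F f - G f := by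
    filter_upwards [ae_restrict_mem mA'] with f hf
    rw [hA] at hf
    exact sub_nonneg.2 (le_of_lt hf)
  have h4 : ∫ f in A, (F f - G f) ∂μ = 0 := le_antisymm h2 (integral_nonneg_of_ae h3)
  have h5 := (integral_eq_zero_iff_of_nonneg_ae h3 (iF.sub iG).integrableOn).1 h4
  have h6 := (ae_restrict_iff' mA').1 h5
  filter_upwards [h6] with f hf
  by_contra hc
  push Not at hc
  have h7 : f ∈ A := by rw [hA]; exact hc
  have h8 : F f - G f = 0 := hf h7
  linarith

/-- conditional moments -/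
def cm (μ : Measure (Sp d)) (n : ℕ) : Sp d → ℝ := μ[fun f : Sp d => f.1 0 ^ n | inv d]

lemma cm_me (n : ℕ) : Measurable[inv d] (cm μ n) := stronglyMeasurable_condExp.measurable

lemma cm_int (n : ℕ) : Integrable (cm μ n) μ := integrable_condExp

lemma cm_set {n : ℕ} (hn : Integrable (fun f : Sp d => f.1 0 ^ n) μ) {A : Set (Sp d)}
    (hA : MeasurableSet[inv d] A) : ∫ f in A, cm μ n f ∂μ = ∫ f in A, f.1 0 ^ n ∂μ :=
  setIntegral_condExp inv_le hn hA

lemma cm_all {n : ℕ} : ∫ f, cm μ n f ∂μ = ∫ f, f.1 0 ^ n ∂μ := integral_condExp inv_le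

lemma cm_zero (f : Sp d) : cm μ 0 f = 1 := by
  unfold cm
  simp only [pow_zero]
  rw [condExp_const inv_le]

lemma cm_nonneg (j : ℕ) : ∀ᵐ f ∂μ, 0 ≤ cm μ (2 * j) f :=
  condExp_nonneg (ae_of_all _ fun f => by
    show 0 ≤ f.1 0 ^ (2 * j)
    rw [pow_mul]; exact pow_nonneg (sq_nonneg _) _)

lemma ev_me (c : ℝ) (Q : Polynomial ℝ) :
    Measurable[inv d] fun f => ev (fun n => cm μ n f) c Q := by
  simp only [fun f => ev_range (fun n => cm μ n f) c Q (Nat.lt_succ_self _)]
  refine Finset.measurable_fun_sum (m := inv d) _ fun i _ => ?_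
  exact Measurable.mul_const (Measurable.mul_const (cm_me i) _) _

lemma ev_in (c : ℝ) (Q : Polynomial ℝ) :
    Integrable (fun f => ev (fun n => cm μ n f) c Q) μ := by
  simp only [fun f => ev_range (fun n => cm μ n f) c Q (Nat.lt_succ_self _)]
  exact integrable_finsetSum _ fun i _ => ((cm_int i).mul_const _).mul_const _

lemma ev_set {k : ℕ} (M : Integrable (fun f : Sp d => f.1 0 ^ (2 * k)) μ) (c : ℝ)
    (Q : Polynomial ℝ) (hQ : Q.natDegree ≤ 2 * k) {A : Set (Sp d)}
    (hA : MeasurableSet[inv d] A) :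
    ∫ f in A, ev (fun n => cm μ n f) c Q ∂μ = ∫ f in A, Q.eval (c * f.1 0) ∂μ := by
  simp only [fun f => ev_range (fun n => cm μ n f) c Q (Nat.lt_succ_self _)]
  have e : ∀ f : Sp d, Q.eval (c * f.1 0) = ∑ i ∈ Finset.range (Q.natDegree + 1),
      f.1 0 ^ i * c ^ i * Q.coeff i := by
    intro f
    rw [Polynomial.eval_eq_sum_range]
    exact Finset.sum_congr rfl fun i _ => by rw [mul_pow]; ring
  simp only [e]
  have hi : ∀ i ∈ Finset.range (Q.natDegree + 1), Integrable (fun f : Sp d => f.1 0 ^ i) μ :=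
    fun i hi => val_int M (by have := Finset.mem_range.1 hi; lia)
  rw [integral_finsetSum _ fun i _ => (((cm_int i).mul_const _).mul_const _).integrableOn,
    integral_finsetSum _ fun i h => (((hi i h).mul_const _).mul_const _).integrableOn]
  refine Finset.sum_congr rfl fun i h => ?_
  rw [integral_mul_const, integral_mul_const, integral_mul_const, integral_mul_const,
    cm_set (hi i h) hA]

variable (hμ : ∀ x : E d, MeasurePreserving (sh x) μ μ)

include hμ in
lemma star_c {k : ℕ} (M : Integrable (fun f : Sp d => f.1 0 ^ (2 * k)) μ) (c : ℝ) {j : ℕ}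
    (hj : 1 ≤ j) (hk : j ≤ k) : ∀ᵐ f ∂μ,
    ev (fun n => cm μ n f) c (Polynomial.X * Hj j) ≤
      (j : ℝ) ^ 2 * ev (fun n => cm μ n f) c (T ℝ (j : ℤ) ^ 2) := by
  have Mj : Integrable (fun f : Sp d => f.1 0 ^ (2 * j)) μ := val_int M (by lia)
  have dH := Hj_deg j (by lia)
  have dT : (T ℝ (j : ℤ)).natDegree = j := by
    rw [Polynomial.Chebyshev.natDegree_T]; simp
  refine ae_le_of_inv (ev_me _ _) ((ev_me _ _).const_mul _) (ev_in _ _)
    ((ev_in _ _).const_mul _) fun A hA => ?_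
  rw [integral_const_mul, ev_set Mj c _ ?_ hA, ev_set Mj c _ ?_ hA]
  · obtain ⟨p, hp⟩ : ∃ p : Polynomial ℝ, p = (T ℝ (j : ℤ)).comp (Polynomial.C c * Polynomial.X) :=
      ⟨_, rfl⟩
    obtain ⟨H, hH⟩ : ∃ H : Polynomial ℝ, H = Polynomial.C c *
        (Hj j).comp (Polynomial.C c * Polynomial.X) := ⟨_, rfl⟩
    have dl : (Polynomial.C c * Polynomial.X : Polynomial ℝ).natDegree ≤ 1 :=
      (Polynomial.natDegree_C_mul_le _ _).trans Polynomial.natDegree_X_le
    have d1 : p.natDegree ≤ j := by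
      rw [hp]
      refine Polynomial.natDegree_comp_le.trans ?_
      rw [dT]
      exact (Nat.mul_le_mul_left _ dl).trans_eq (mul_one _)
    have d2 : H.natDegree + 1 ≤ 2 * j := by
      have : H.natDegree ≤ (Hj j).natDegree := by
        rw [hH]
        refine (Polynomial.natDegree_C_mul_le _ _).trans ?_
        refine Polynomial.natDegree_comp_le.trans ?_
        exact (Nat.mul_le_mul_left _ dl).trans_eq (mul_one _)
      lia
    have d3 : H.derivative = p.derivative ^ 2 := by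
      rw [hH, hp, Polynomial.derivative_C_mul, Polynomial.derivative_comp,
        Polynomial.derivative_comp, Hj_der, Polynomial.derivative_C_mul,
        Polynomial.derivative_X, mul_one, Polynomial.pow_comp]
      ring
    have h := set_ineq hμ (k := j) (by lia) Mj p H d1 d3 d2 hA
    have e1 : ∀ f : Sp d, (Polynomial.X * Hj j).eval (c * f.1 0) = H.eval (f.1 0) * f.1 0 := by
      intro f
      rw [hH]
      simp only [Polynomial.eval_mul, Polynomial.eval_X, Polynomial.eval_C, Polynomial.eval_comp]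
      ring
    have e2 : ∀ f : Sp d, (T ℝ (j : ℤ) ^ 2).eval (c * f.1 0) = p.eval (f.1 0) ^ 2 := by
      intro f
      rw [hp]
      simp only [Polynomial.eval_mul, Polynomial.eval_X, Polynomial.eval_C, Polynomial.eval_comp,
        Polynomial.eval_pow]
    simp only [e1, e2]
    exact h
  · refine Polynomial.natDegree_pow_le.trans ?_
    rw [dT]
  · refine Polynomial.natDegree_mul_le.trans ?_
    have := Polynomial.natDegree_X_le (R := ℝ)
    lia

include hμ in
lemma star_ae {k : ℕ} (M : Integrable (fun f : Sp d => f.1 0 ^ (2 * k)) μ) : ∀ᵐ f ∂μ,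
    ∀ c : ℝ, 0 < c → ∀ j : ℕ, 1 ≤ j → j ≤ k → ev (fun n => cm μ n f) c (Polynomial.X * Hj j) ≤
      (j : ℝ) ^ 2 * ev (fun n => cm μ n f) c (T ℝ (j : ℤ) ^ 2) := by
  have h1 : ∀ᵐ f ∂μ, ∀ (q : ℚ) (j : ℕ), 1 ≤ j → j ≤ k →
      ev (fun n => cm μ n f) (q : ℝ) (Polynomial.X * Hj j) ≤
      (j : ℝ) ^ 2 * ev (fun n => cm μ n f) (q : ℝ) (T ℝ (j : ℤ) ^ 2) := by
    rw [ae_all_iff]
    intro q
    rw [ae_all_iff]
    intro j
    by_cases hj : 1 ≤ j ∧ j ≤ k
    · filter_upwards [star_c hμ M (q : ℝ) hj.1 hj.2] with f hf _ _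
      exact hf
    · exact ae_of_all _ fun f h1 h2 => absurd ⟨h1, h2⟩ hj
  filter_upwards [h1] with f hf c _ j hj hk
  have hcl : IsClosed {c : ℝ | ev (fun n => cm μ n f) c (Polynomial.X * Hj j) ≤
      (j : ℝ) ^ 2 * ev (fun n => cm μ n f) c (T ℝ (j : ℤ) ^ 2)} :=
    isClosed_le (ev_cont _ _) (continuous_const.mul (ev_cont _ _))
  have hd : Dense (Set.range ((↑) : ℚ → ℝ)) := Rat.denseRange_cast
  have hsub : Set.range ((↑) : ℚ → ℝ) ⊆ {c : ℝ | ev (fun n => cm μ n f) c (Polynomial.X * Hj j) ≤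
      (j : ℝ) ^ 2 * ev (fun n => cm μ n f) c (T ℝ (j : ℤ) ^ 2)} := by
    rintro _ ⟨q, rfl⟩
    exact hf q j hj hk
  have h2 := hcl.closure_subset_iff.2 hsub
  rw [hd.closure_eq] at h2
  exact h2 (Set.mem_univ c)

/-- the local mass -/
lemma mass_eq_cm : Pool.Agent.W2helper17.FM.mass μ = cm μ 2 := rfl

include hμ in
/-- **the conditional inequalities** -/
theorem cond_main {k : ℕ} (M : Integrable (fun f : Sp d => f.1 0 ^ (2 * k)) μ) :
    ∀ᵐ f ∂μ, (0 < cm μ 2 f →
      (∀ j : ℕ, 2 ≤ j → j ≤ k → 0 ≤ tz (fun n => cm μ n f) (1 / √(2 * cm μ 2 f)) j) ∧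
      (∀ j : ℕ, 3 ≤ j → j ≤ k → 2 * (j : ℝ) / 9 * tz (fun n => cm μ n f) (1 / √(2 * cm μ 2 f)) 2 ≤
        tz (fun n => cm μ n f) (1 / √(2 * cm μ 2 f)) j)) ∧
      (∀ j : ℕ, j < k → (2 * (j : ℝ) + 1) / ((j : ℝ) + 1) * (cm μ 2 f * cm μ (2 * j) f) ≤
        cm μ (2 * (j + 1)) f) := by
  filter_upwards [star_ae hμ M, ae_all_iff.2 (fun j => cm_nonneg (μ := μ) j)] with f hf hn
  have h2 : 0 ≤ cm μ 2 f := hn 1
  rcases h2.eq_or_lt with h0 | h0
  · refine ⟨fun h => absurd h (by rw [← h0]; exact lt_irrefl _), fun j _ => ?_⟩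
    rw [← h0, zero_mul, mul_zero]
    exact hn (j + 1)
  · obtain ⟨a1, a2, a3⟩ := det (N := fun n => cm μ n f) h0 (cm_zero f) rfl hf
    exact ⟨fun _ => ⟨a1, a2⟩, a3⟩

end

end Pool.Agent.W2helper14.EM
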