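import Pool.Agent.W2helper14.EM.I

/-!
# All even moments of stationary waves (helper14)
-/

set_option autoImplicit false
set_option linter.all false

open MeasureTheory Filter Topology
open scoped ContDiff ENNReal

namespace Pool.Agent.W2helper14.EM

open Pool.Agent.Y139.SW
open Pool.Agent.W2helper17.FM (inv inv_le inv_fun mass Q Q_one pw_fwd pw_bwd PW core' core_int mass_l2)
open Polynomial.Chebyshev (T)

noncomputable section

/-- the even moments of a plane wave with mass one -/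
def ck (k : ℕ) : ℝ := ((2 * k).choose k : ℝ) / 2 ^ k

lemma ck_succ (j : ℕ) : ck (j + 1) = (2 * (j : ℝ) + 1) / ((j : ℝ) + 1) * ck j := by
  unfold ck
  have h := choose_eq' j
  rw [show 2 * (j + 1) = 2 * j + 2 by ring, ← h, pow_succ]
  field_simp

lemma ck_zero : ck 0 = 1 := by simp [ck]

lemma ck_pos (k : ℕ) : 0 < ck k := by
  unfold ck
  have : 0 < (2 * k).choose k := Nat.choose_pos (by lia)
  positivity

lemma ck_two : ck 2 = 3 / 2 := by
  unfold ck
  have : (2 * 2).choose 2 = 6 := by decide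
  rw [this]; norm_num

lemma low {N : ℕ → ℝ} {k : ℕ} (N0 : N 0 = 1) (m0 : 0 ≤ N 2)
    (h : ∀ j : ℕ, j < k → (2 * (j : ℝ) + 1) / ((j : ℝ) + 1) * (N 2 * N (2 * j)) ≤ N (2 * (j + 1)))
    (j : ℕ) (hj : j ≤ k) : ck j * N 2 ^ j ≤ N (2 * j) := by
  induction j with
  | zero => simp [ck_zero, N0]
  | succ j ih =>
    refine le_trans ?_ (h j (by lia))
    rw [ck_succ, pow_succ]
    have h1 := ih (by lia)
    have h2 : 0 ≤ (2 * (j : ℝ) + 1) / ((j : ℝ) + 1) * N 2 := by positivity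
    have h3 := mul_le_mul_of_nonneg_left h1 h2
    refine le_trans (le_of_eq ?_) (h3.trans_eq ?_) <;> ring

lemma eq_down {N : ℕ → ℝ} {k : ℕ} (N0 : N 0 = 1) (m0 : 0 < N 2)
    (h : ∀ j : ℕ, j < k → (2 * (j : ℝ) + 1) / ((j : ℝ) + 1) * (N 2 * N (2 * j)) ≤ N (2 * (j + 1)))
    (he : N (2 * k) = ck k * N 2 ^ k) (n : ℕ) :
    ∀ i, i + n = k → N (2 * i) = ck i * N 2 ^ i := by
  induction n with
  | zero =>
    intro i hi
    rw [show i = k by lia]; exact he
  | succ n ih =>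
    intro i hi
    have h1 := ih (i + 1) (by lia)
    have h2 := h i (by lia)
    rw [h1, ck_succ, pow_succ] at h2
    have hp : 0 < (2 * (i : ℝ) + 1) / ((i : ℝ) + 1) * N 2 := by positivity
    refine le_antisymm ?_ (low N0 m0.le h i (by lia))
    have h3 : (2 * (i : ℝ) + 1) / ((i : ℝ) + 1) * N 2 * N (2 * i) ≤
        (2 * (i : ℝ) + 1) / ((i : ℝ) + 1) * N 2 * (ck i * N 2 ^ i) := by
      refine le_trans (le_of_eq ?_) (h2.trans_eq ?_) <;> ring
    exact le_of_mul_le_mul_left h3 hp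

variable {d : ℕ} {μ : Measure (Sp d)} [IsProbabilityMeasure μ]

variable (hμ : ∀ x : E d, MeasurePreserving (sh x) μ μ)

section

variable {k : ℕ} (M : Integrable (fun f : Sp d => f.1 0 ^ (2 * k)) μ)

include hμ M in
lemma low_ae : ∀ᵐ f ∂μ, ∀ j, j ≤ k → ck j * cm μ 2 f ^ j ≤ cm μ (2 * j) f := by
  filter_upwards [cond_main hμ M, cm_nonneg (μ := μ) 1] with f hf h0 j hj
  exact low (N := fun n => cm μ n f) (cm_zero f) h0 hf.2 j hj

include hμ M in
lemma mass_pow_int {j : ℕ} (hj : j ≤ k) : Integrable (fun f => cm μ 2 f ^ j) μ := by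
  have mm : Measurable (cm μ 2) := (cm_me 2).mono inv_le le_rfl
  refine ((cm_int (μ := μ) (2 * j)).const_mul (ck j)⁻¹).mono'
    (mm.pow_const j).aestronglyMeasurable ?_
  filter_upwards [low_ae hμ M, cm_nonneg (μ := μ) 1] with f hf h0
  have h0' : 0 ≤ cm μ 2 f := h0
  rw [Real.norm_eq_abs, abs_of_nonneg (pow_nonneg h0' j), ← div_eq_inv_mul,
    le_div_iff₀ (ck_pos j), mul_comm]
  exact hf j hj

include hμ M in
lemma low_int' {j : ℕ} (hj : j ≤ k) :
    ck j * ∫ f, cm μ 2 f ^ j ∂μ ≤ ∫ f : Sp d, f.1 0 ^ (2 * j) ∂μ := by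
  rw [← integral_const_mul, ← cm_all (μ := μ) (n := 2 * j)]
  refine integral_mono_ae ((mass_pow_int hμ M hj).const_mul _) (cm_int _) ?_
  filter_upwards [low_ae hμ M] with f hf
  exact hf j hj

/-- on the set of mass zero the field vanishes -/
lemma zero_mass (M4 : Integrable (fun f : Sp d => f.1 0 ^ 4) μ) :
    ∀ᵐ f ∂μ, cm μ 2 f = 0 → cm μ 4 f = 0 := by
  have M2 : Integrable (fun f : Sp d => f.1 0 ^ 2) μ := val_int (k := 2) M4 (by lia)
  obtain ⟨A, hA⟩ : ∃ A : Set (Sp d), A = {f | cm μ 2 f = 0} := ⟨_, rfl⟩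
  have mA : MeasurableSet[inv d] A := by
    rw [hA]
    exact cm_me 2 (measurableSet_singleton 0)
  have mA' := inv_le _ mA
  have h1 : ∫ f in A, f.1 0 ^ 2 ∂μ = 0 := by
    rw [← cm_set M2 mA]
    refine setIntegral_eq_zero_of_forall_eq_zero fun f hf => ?_
    rw [hA] at hf
    exact hf
  have h2 := (setIntegral_eq_zero_iff_of_nonneg_ae (ae_of_all _ fun f : Sp d => sq_nonneg (f.1 0))
    M2.integrableOn).1 h1
  have h3 : ∫ f in A, f.1 0 ^ 4 ∂μ = 0 := by
    rw [← integral_zero (Sp d) ℝ (μ := μ.restrict A)]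
    refine integral_congr_ae ?_
    filter_upwards [h2] with f hf
    have h4 : f.1 0 ^ 2 = 0 := hf
    show f.1 0 ^ 4 = 0
    rw [show f.1 0 ^ 4 = (f.1 0 ^ 2) ^ 2 by ring, h4]; ring
  rw [← cm_set M4 mA] at h3
  have h5 := (setIntegral_eq_zero_iff_of_nonneg_ae
    ((cm_nonneg (μ := μ) 2).filter_mono (ae_mono Measure.restrict_le_self))
    (cm_int 4).integrableOn).1 h3
  have h6 := (ae_restrict_iff' mA').1 h5
  filter_upwards [h6] with f hf h0
  exact hf (by rw [hA]; exact h0)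

include hμ M in
lemma eq_fwd (hd : 0 < d) (hk : 2 ≤ k)
    (h : ∫ f : Sp d, f.1 0 ^ (2 * k) ∂μ = ck k * ∫ f, cm μ 2 f ^ k ∂μ) :
    ∀ᵐ f : Sp d ∂μ, ∃ a, PW a f.1 := by
  have M4 : Integrable (fun f : Sp d => f.1 0 ^ 4) μ := val_int M (by lia)
  refine pw_fwd M4 hμ hd ?_
  have i1 := (mass_pow_int hμ M (le_refl k)).const_mul (ck k)
  have e1 : ∀ᵐ f ∂μ, cm μ (2 * k) f = ck k * cm μ 2 f ^ k := by
    have h1 : ∫ f, (cm μ (2 * k) f - ck k * cm μ 2 f ^ k) ∂μ = 0 := by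
      rw [integral_sub (cm_int _) i1, integral_const_mul, cm_all, h, sub_self]
    have h2 : 0 ≤ᵐ[μ] fun f => cm μ (2 * k) f - ck k * cm μ 2 f ^ k := by
      filter_upwards [low_ae hμ M] with f hf
      exact sub_nonneg.2 (hf k le_rfl)
    have h3 := (integral_eq_zero_iff_of_nonneg_ae h2 ((cm_int _).sub i1)).1 h1
    filter_upwards [h3] with f hf
    have : cm μ (2 * k) f - ck k * cm μ 2 f ^ k = 0 := hf
    linarith
  have e2 : ∀ᵐ f ∂μ, cm μ 4 f = 3 / 2 * cm μ 2 f ^ 2 := by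
    filter_upwards [e1, cond_main hμ M, zero_mass M4, cm_nonneg (μ := μ) 1] with f h1 h2 h3 h4
    have h4' : 0 ≤ cm μ 2 f := h4
    rcases h4'.eq_or_lt with h5 | h5
    · rw [h3 h5.symm, ← h5]; norm_num
    · have := eq_down (N := fun n => cm μ n f) (cm_zero f) h5 h2.2 h1 (k - 2) 2 (by lia)
      rw [ck_two] at this
      exact this
  have e3 : ∫ f : Sp d, f.1 0 ^ 4 ∂μ = ∫ f, cm μ 4 f ∂μ := cm_all.symm
  rw [e3, integral_congr_ae e2, integral_const_mul]
  rfl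

include hμ M in
lemma eq_bwd (hk : 2 ≤ k) (h : ∀ᵐ f : Sp d ∂μ, ∃ a, PW a f.1) :
    ∫ f : Sp d, f.1 0 ^ (2 * k) ∂μ = ck k * ∫ f, cm μ 2 f ^ k ∂μ := by
  have M4 : Integrable (fun f : Sp d => f.1 0 ^ 4) μ := val_int M (by lia)
  have M2 : Integrable (fun f : Sp d => f.1 0 ^ 2) μ := val_int M (by lia)
  have b := pw_bwd M4 hμ h
  have h1 := core' M4 hμ
  have h2 : ∫ f : Sp d, (f.1 0 ^ 2 + Q 1 f.1 0 - 2 * mass μ f) ^ 2 ∂μ = 0 := by
    refine le_antisymm ?_ (integral_nonneg fun f => sq_nonneg _)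
    rw [b] at h1
    linarith
  have h3 : ∀ᵐ f : Sp d ∂μ, f.1 0 ^ 2 + ∑ i, D i f.1 0 ^ 2 = 2 * cm μ 2 f := by
    have := (integral_eq_zero_iff_of_nonneg (fun f => sq_nonneg _)
      (core_int M4 (mass_l2 M4) hμ)).1 h2
    filter_upwards [this] with f hf
    have h4 : (f.1 0 ^ 2 + Q 1 f.1 0 - 2 * mass μ f) ^ 2 = 0 := hf
    have h5 : f.1 0 ^ 2 + Q 1 f.1 0 - 2 * mass μ f = 0 := pow_eq_zero_iff (two_ne_zero) |>.1 h4
    rw [← Q_one]
    have h6 : mass μ f = cm μ 2 f := rfl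
    rw [← h6]
    linarith
  have W := W_of μ M2
  -- the recursion
  have hrc : ∀ j, j < k → ∀ᵐ f ∂μ, cm μ (2 * (j + 1)) f =
      (2 * (j : ℝ) + 1) / ((j : ℝ) + 1) * (cm μ (2 * j) f * cm μ 2 f) := by
    intro j hj
    obtain ⟨H, hH⟩ : ∃ H : Polynomial ℝ, H = Polynomial.X ^ (2 * j + 1) := ⟨_, rfl⟩
    have dH : H.natDegree + 1 ≤ 2 * k := by
      rw [hH, Polynomial.natDegree_X_pow]; lia
    have eH : ∀ x : ℝ, H.derivative.eval x = (2 * (j : ℝ) + 1) * x ^ (2 * j) := by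
      intro x
      rw [hH, Polynomial.derivative_X_pow]
      simp
    have eH' : ∀ x : ℝ, H.eval x * x = x ^ (2 * (j + 1)) := by
      intro x
      rw [hH, Polynomial.eval_pow, Polynomial.eval_X]; ring
    have ii : ∀ i, Integrable (fun f : Sp d => f.1 0 ^ (2 * j) * D i f.1 0 ^ 2) μ := by
      intro i
      have := (stein hμ W (by lia) M H dH).1 i
      simp only [eH] at this
      have h2 := this.const_mul (2 * (j : ℝ) + 1)⁻¹
      refine h2.congr (ae_of_all _ fun f => ?_)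
      show (2 * (j : ℝ) + 1)⁻¹ * ((2 * (j : ℝ) + 1) * f.1 0 ^ (2 * j) * D i f.1 0 ^ 2) = _
      have : (2 * (j : ℝ) + 1) ≠ 0 := by positivity
      field_simp
    have Mj1 : Integrable (fun f : Sp d => f.1 0 ^ (2 * (j + 1))) μ := val_int M (by lia)
    have im : Integrable (fun f : Sp d => f.1 0 ^ (2 * j) * cm μ 2 f) μ := by
      have h5 : Integrable (fun f : Sp d => 1 / 2 * (f.1 0 ^ (2 * (j + 1)) +
          ∑ i, f.1 0 ^ (2 * j) * D i f.1 0 ^ 2)) μ :=
        (Mj1.add (integrable_finsetSum _ fun i _ => ii i)).const_mul _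
      refine h5.congr ?_
      filter_upwards [h3] with f hf
      show 1 / 2 * (f.1 0 ^ (2 * (j + 1)) + ∑ i, f.1 0 ^ (2 * j) * D i f.1 0 ^ 2) = _
      rw [← Finset.mul_sum]
      have e : cm μ 2 f = 1 / 2 * (f.1 0 ^ 2 + ∑ i, D i f.1 0 ^ 2) := by linarith
      rw [e]
      ring
    have pull : μ[fun f : Sp d => f.1 0 ^ (2 * j) * cm μ 2 f | inv d] =ᵐ[μ]
        fun f => cm μ (2 * j) f * cm μ 2 f :=
      condExp_mul_of_stronglyMeasurable_right (m := inv d) (cm_me 2).stronglyMeasurable im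
        (val_int M (by lia))
    have ip : Integrable (fun f => cm μ (2 * j) f * cm μ 2 f) μ :=
      integrable_condExp.congr pull
    have sets : ∀ A, MeasurableSet[inv d] A → ∫ f in A, cm μ (2 * (j + 1)) f ∂μ =
        ∫ f in A, (2 * (j : ℝ) + 1) / ((j : ℝ) + 1) * (cm μ (2 * j) f * cm μ 2 f) ∂μ := by
      intro A hA
      have st := set_stein hμ (by lia) M H dH hA
      simp only [eH, eH'] at st
      have p1 : ∫ f in A, cm μ (2 * j) f * cm μ 2 f ∂μ =
          ∫ f in A, f.1 0 ^ (2 * j) * cm μ 2 f ∂μ := by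
        rw [← setIntegral_condExp inv_le im hA]
        exact integral_congr_ae ((pull.symm).filter_mono (ae_mono Measure.restrict_le_self))
      have p2 : ∫ f in A, f.1 0 ^ (2 * j) * cm μ 2 f ∂μ = 1 / 2 *
          (∫ f in A, f.1 0 ^ (2 * (j + 1)) ∂μ + ∑ i, ∫ f in A, f.1 0 ^ (2 * j) * D i f.1 0 ^ 2 ∂μ) := by
        rw [← integral_finsetSum _ fun i _ => (ii i).integrableOn,
          ← integral_add Mj1.integrableOn
            (integrable_finsetSum _ fun i _ => (ii i).integrableOn), ← integral_const_mul]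
        refine integral_congr_ae ?_
        filter_upwards [h3.filter_mono (ae_mono Measure.restrict_le_self)] with f hf
        rw [← Finset.mul_sum]
        have e : cm μ 2 f = 1 / 2 * (f.1 0 ^ 2 + ∑ i, D i f.1 0 ^ 2) := by linarith
        rw [e]
        ring
      have p3 : ∑ i, ∫ f in A, (2 * (j : ℝ) + 1) * f.1 0 ^ (2 * j) * D i f.1 0 ^ 2 ∂μ =
          (2 * (j : ℝ) + 1) * ∑ i, ∫ f in A, f.1 0 ^ (2 * j) * D i f.1 0 ^ 2 ∂μ := by
        rw [Finset.mul_sum]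
        refine Finset.sum_congr rfl fun i _ => ?_
        rw [← integral_const_mul]
        congr 1; funext f; ring
      rw [p3] at st
      rw [integral_const_mul, p1, p2, cm_set Mj1 hA, ← st]
      have : (j : ℝ) + 1 ≠ 0 := by positivity
      field_simp
      ring
    have m1 : Measurable[inv d] (cm μ (2 * (j + 1))) := cm_me _
    have m2 : Measurable[inv d] (fun f => (2 * (j : ℝ) + 1) / ((j : ℝ) + 1) *
        (cm μ (2 * j) f * cm μ 2 f)) :=
      Measurable.const_mul (Measurable.mul (cm_me _) (cm_me 2)) _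
    have a1 := ae_le_of_inv m1 m2 (cm_int _) (ip.const_mul _) fun A hA => (sets A hA).le
    have a2 := ae_le_of_inv m2 m1 (ip.const_mul _) (cm_int _) fun A hA => (sets A hA).ge
    filter_upwards [a1, a2] with f h1 h2
    exact le_antisymm h1 h2
  have all : ∀ j, j ≤ k → ∀ᵐ f ∂μ, cm μ (2 * j) f = ck j * cm μ 2 f ^ j := by
    intro j
    induction j with
    | zero =>
      intro _
      refine ae_of_all _ fun f => ?_
      rw [mul_zero, cm_zero, ck_zero, pow_zero, mul_one]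
    | succ j ih =>
      intro hj
      filter_upwards [ih (by lia), hrc j (by lia)] with f h1 h2
      rw [h2, h1, ck_succ, pow_succ]
      ring
  rw [← cm_all (μ := μ) (n := 2 * k), integral_congr_ae (all k le_rfl), integral_const_mul]

include hμ M in
/-- Bernstein in mean on invariant sets -/
lemma set_grad (hk : k ≠ 0) (p : Polynomial ℝ) (hp : p.natDegree ≤ k) {A : Set (Sp d)}
    (hA : MeasurableSet[inv d] A) :
    (Integrable (fun f : Sp d => p.derivative.eval (f.1 0) ^ 2 *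
      ∑ i, D i f.1 0 ^ 2) μ ∧ Integrable (fun f : Sp d => p.eval (f.1 0) ^ 2) μ) ∧
    ∫ f in A, p.derivative.eval (f.1 0) ^ 2 * ∑ i, D i f.1 0 ^ 2 ∂μ ≤
      (k : ℝ) ^ 2 * ∫ f in A, p.eval (f.1 0) ^ 2 ∂μ := by
  have M2 : Integrable (fun f : Sp d => f.1 0 ^ 2) μ := val_int M (by lia)
  have W := W_of μ M2
  have W1 := fun i => W.der hμ i
  have hn1 : ∀ i : Fin d, ‖(EuclideanSpace.single i (1 : ℝ) : E d)‖ ≤ 1 := fun i => by simp
  have M1 : ∀ i, Integrable (fun f : Sp d => D i f.1 0 ^ (2 * k)) μ := fun i =>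
    (bern hμ W (hn1 i) (by simp) (by lia) M).1
  have hd' : (p.derivative ^ 2).natDegree + 2 ≤ 2 * k := by
    have h1 := Polynomial.natDegree_derivative_le p
    have h2 : (p.derivative ^ 2).natDegree ≤ 2 * p.derivative.natDegree :=
      Polynomial.natDegree_pow_le
    lia
  have ii : ∀ i, Integrable (fun f : Sp d => (p.derivative ^ 2).eval (f.1 0) * D i f.1 0 ^ 2) μ :=
    fun i => int_poly val_me (W1 i).m0 _ hd' M (M1 i)
  have e1 : ∀ f : Sp d, p.derivative.eval (f.1 0) ^ 2 * ∑ i, D i f.1 0 ^ 2 =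
      ∑ i, (p.derivative ^ 2).eval (f.1 0) * D i f.1 0 ^ 2 := by
    intro f
    rw [Finset.mul_sum, Polynomial.eval_pow]
  have i2 : Integrable (fun f : Sp d => p.eval (f.1 0) ^ 2) μ := by
    have h3 : (p ^ 2).natDegree + 0 ≤ 2 * k := by
      have : (p ^ 2).natDegree ≤ 2 * p.natDegree := Polynomial.natDegree_pow_le
      lia
    have := int_poly val_me val_me _ h3 M M
    simpa using this
  refine ⟨⟨?_, i2⟩, ?_⟩
  · simp only [e1]
    exact integrable_finsetSum _ fun i _ => ii i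
  simp only [e1]
  rw [integral_finsetSum _ fun i _ => (ii i).integrableOn]
  by_cases h0 : μ A = 0
  · have : μ.restrict A = 0 := Measure.restrict_eq_zero.2 h0
    rw [this]; simp
  · have := ProbabilityTheory.cond_isProbabilityMeasure (μ := μ) h0
    have h := poly_grad (P := ProbabilityTheory.cond μ A) (cond_pres hμ hA)
      (W_of _ (cond_int h0 M2)) (cond_int h0 M) p hp
    simp only [cond_integral] at h
    rw [← Finset.mul_sum] at h
    have hp := cond_pos h0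
    have e2 : ∀ i, ∫ f in A, (p.derivative ^ 2).eval (f.1 0) * D i f.1 0 ^ 2 ∂μ =
        ∫ f in A, (p.derivative.eval (f.1 0) * D i f.1 0) ^ 2 ∂μ := by
      intro i
      congr 1; funext f
      rw [Polynomial.eval_pow]; ring
    simp only [e2]
    have h2 : (μ A)⁻¹.toReal * ∑ i, ∫ f in A, (p.derivative.eval (f.1 0) * D i f.1 0) ^ 2 ∂μ ≤
        (μ A)⁻¹.toReal * ((k : ℝ) ^ 2 * ∫ f in A, p.eval (f.1 0) ^ 2 ∂μ) := by
      refine h.trans_eq ?_
      ring
    exact le_of_mul_le_mul_left h2 hp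

end

/-- the conditional expectation of `T_{2j} (f(0) / √(2m))` -/
def chb (μ : Measure (Sp d)) (j : ℕ) (f : Sp d) : ℝ :=
  ∑ n ∈ Finset.range (2 * j + 1), (T ℝ (2 * (j : ℤ))).coeff n * (cm μ n f / √(2 * cm μ 2 f) ^ n)

lemma chb_eq (j : ℕ) (f : Sp d) :
    chb μ j f = tz (fun n => cm μ n f) (1 / √(2 * cm μ 2 f)) j := by
  unfold tz chb
  have h : (T ℝ (2 * (j : ℤ))).natDegree < 2 * j + 1 := by
    rw [Polynomial.Chebyshev.natDegree_T]; lia
  rw [ev_range _ _ _ h]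
  refine Finset.sum_congr rfl fun n _ => ?_
  rw [div_pow, one_pow]
  ring

/-- `|∇f(0)|²` -/
def gs (f : Sp d) : ℝ := ∑ i, fderiv ℝ f.1 0 (EuclideanSpace.single i 1) ^ 2

/-- plane waves -/
def PWS (a : ℝ) (f : Sp d) : Prop :=
  ∃ (w : E d) (φ : ℝ), ‖w‖ = 1 ∧ ∀ y, f.1 y = a * Real.cos (inner ℝ w y + φ)

theorem final (hd : 1 ≤ d) (μ : Measure (Sp d)) (pμ : IsProbabilityMeasure μ)
    (hμ : ∀ x : E d, μ.map (sh x) = μ) (k : ℕ) (hk : 1 ≤ k)
    (M : Integrable (fun f : Sp d => f.1 0 ^ (2 * k)) μ) :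
    (∀ᵐ f ∂μ, ∀ j, j < k →
      (2 * (j : ℝ) + 1) / ((j : ℝ) + 1) * (cm μ 2 f * cm μ (2 * j) f) ≤ cm μ (2 * (j + 1)) f) ∧
    (∀ᵐ f ∂μ, 0 < cm μ 2 f → (∀ j, 2 ≤ j → j ≤ k → 0 ≤ chb μ j f) ∧
      ∀ j, 3 ≤ j → j ≤ k → 2 * (j : ℝ) / 9 * chb μ 2 f ≤ chb μ j f) ∧
    (Integrable (fun f => cm μ 2 f ^ k) μ ∧
      ((2 * k).choose k : ℝ) / 2 ^ k * ∫ f, cm μ 2 f ^ k ∂μ ≤ ∫ f : Sp d, f.1 0 ^ (2 * k) ∂μ) ∧
    (2 ≤ k → (∫ f : Sp d, f.1 0 ^ (2 * k) ∂μ =
      ((2 * k).choose k : ℝ) / 2 ^ k * ∫ f, cm μ 2 f ^ k ∂μ ↔ ∀ᵐ f ∂μ, ∃ a, PWS a f)) ∧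
    (∀ (p : Polynomial ℝ), p.natDegree ≤ k → ∀ A, MeasurableSet[inv d] A →
      (Integrable (fun f : Sp d => p.derivative.eval (f.1 0) ^ 2 * gs f) μ ∧
        Integrable (fun f : Sp d => p.eval (f.1 0) ^ 2) μ) ∧
      ∫ f in A, p.derivative.eval (f.1 0) ^ 2 * gs f ∂μ ≤
        (k : ℝ) ^ 2 * ∫ f in A, p.eval (f.1 0) ^ 2 ∂μ) := by
  have hμ' : ∀ x, MeasurePreserving (sh (d := d) x) μ μ := fun x => ⟨sh_me x, hμ x⟩
  refine ⟨?_, ?_, ⟨mass_pow_int hμ' M le_rfl, low_int' hμ' M le_rfl⟩, fun h2 =>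
    ⟨eq_fwd hμ' M hd h2, eq_bwd hμ' M h2⟩, fun p hp A hA => set_grad hμ' M (by lia) p hp hA⟩
  · filter_upwards [cond_main hμ' M] with f hf
    exact hf.2
  · filter_upwards [cond_main hμ' M] with f hf h0
    obtain ⟨h1, h2⟩ := hf.1 h0
    refine ⟨fun j hj hk => ?_, fun j hj hk => ?_⟩
    · rw [chb_eq]; exact h1 j hj hk
    · rw [chb_eq, chb_eq]; exact h2 j hj hk

end

end Pool.Agent.W2helper14.EM
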