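import Pool.Agent.W2helper14.EM.J

/-!
# The constant mass case (helper14)
-/

set_option autoImplicit false
set_option linter.all false

open MeasureTheory Filter Topology
open scoped ContDiff ENNReal

namespace Pool.Agent.W2helper14.EM

open Pool.Agent.Y139.SW
open Pool.Agent.W2helper17.FM (inv inv_le inv_fun mass Q Q_one pw_fwd pw_bwd PW pw2 mass_int
  mass_l2 mass_sq)

noncomputable section

lemma taylor {x M : ℝ} (hx : 0 ≤ x) (hM : 0 ≤ M) (k : ℕ) :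
    M ^ (k + 2) + ((k : ℝ) + 2) * M ^ (k + 1) * (x - M) +
      ((k : ℝ) + 1) * M ^ k * (x - M) ^ 2 ≤ x ^ (k + 2) := by
  induction k with
  | zero =>
    push_cast
    apply le_of_eq
    ring
  | succ k ih =>
    have h1 := mul_le_mul_of_nonneg_left ih hx
    have h2 : 0 ≤ (x - M) ^ 2 * (((k : ℝ) + 1) * M ^ k * x) := by positivity
    push_cast
    have e : x * x ^ (k + 2) = x ^ (k + 1 + 2) := by ring
    rw [e] at h1
    refine le_trans ?_ h1
    have e2 : x * (M ^ (k + 2) + ((k : ℝ) + 2) * M ^ (k + 1) * (x - M) +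
        ((k : ℝ) + 1) * M ^ k * (x - M) ^ 2) =
        M ^ (k + 1 + 2) + ((k : ℝ) + 1 + 2) * M ^ (k + 1 + 1) * (x - M) +
        ((k : ℝ) + 1 + 1) * M ^ (k + 1) * (x - M) ^ 2 +
        (x - M) ^ 2 * (((k : ℝ) + 1) * M ^ k * x) := by ring
    rw [e2]
    linarith

variable {d : ℕ} {μ : Measure (Sp d)} [IsProbabilityMeasure μ]

lemma lin_i {g : Sp d → ℝ} (i1 : Integrable g μ) (a b N : ℝ) :
    Integrable (fun f => a + b * (g f - N)) μ :=
  (integrable_const a).add ((i1.sub (integrable_const N)).const_mul b)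

lemma lin_int {g : Sp d → ℝ} (i1 : Integrable g μ) (a b N : ℝ) :
    ∫ f, (a + b * (g f - N)) ∂μ = a + b * (∫ f, g f ∂μ - N) := by
  have i2 : Integrable (fun f => g f - N) μ := i1.sub (integrable_const N)
  have i3 : Integrable (fun f => b * (g f - N)) μ := i2.const_mul b
  rw [integral_add (integrable_const a) i3, integral_const_mul,
    integral_sub i1 (integrable_const N)]
  simp

variable (hμ : ∀ x : E d, MeasurePreserving (sh x) μ μ)
variable {k : ℕ} (M : Integrable (fun f : Sp d => f.1 0 ^ (2 * k)) μ)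

include hμ M in
lemma jensen (hk : 1 ≤ k) :
    (∫ f : Sp d, f.1 0 ^ 2 ∂μ) ^ k ≤ ∫ f, cm μ 2 f ^ k ∂μ := by
  rcases Nat.lt_or_ge 1 k with h | h
  · obtain ⟨j, rfl⟩ : ∃ j, k = j + 2 := ⟨k - 2, by lia⟩
    obtain ⟨N, hN⟩ : ∃ N, N = ∫ f : Sp d, f.1 0 ^ 2 ∂μ := ⟨_, rfl⟩
    have N0 : 0 ≤ N := by rw [hN]; exact integral_nonneg fun f => sq_nonneg _
    rw [← hN]
    have i1 : Integrable (cm μ 2) μ := cm_int 2
    have ik := mass_pow_int hμ M (le_refl (j + 2))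
    have hm : ∫ f, cm μ 2 f ∂μ = N := by rw [hN]; exact cm_all
    have h1 : ∫ f, (N ^ (j + 2) + ((j : ℝ) + 2) * N ^ (j + 1) * (cm μ 2 f - N)) ∂μ =
        N ^ (j + 2) := by
      rw [lin_int i1, hm]
      ring
    rw [← h1]
    refine integral_mono_ae (lin_i i1 _ _ _) ik ?_
    filter_upwards [cm_nonneg (μ := μ) 1] with f hf
    have h0 : 0 ≤ cm μ 2 f := hf
    have ht := taylor h0 N0 j
    have hp : 0 ≤ ((j : ℝ) + 1) * N ^ j * (cm μ 2 f - N) ^ 2 := by positivity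
    show N ^ (j + 2) + ((j : ℝ) + 2) * N ^ (j + 1) * (cm μ 2 f - N) ≤ cm μ 2 f ^ (j + 2)
    linarith
  · have : k = 1 := by lia
    subst this
    simp only [pow_one]
    exact cm_all.ge

include hμ M in
lemma jensen_eq (hk : 2 ≤ k) (h : ∫ f, cm μ 2 f ^ k ∂μ = (∫ f : Sp d, f.1 0 ^ 2 ∂μ) ^ k) :
    ∀ᵐ f ∂μ, cm μ 2 f = ∫ f : Sp d, f.1 0 ^ 2 ∂μ := by
  obtain ⟨j, rfl⟩ : ∃ j, k = j + 2 := ⟨k - 2, by lia⟩
  obtain ⟨N, hN⟩ : ∃ N, N = ∫ f : Sp d, f.1 0 ^ 2 ∂μ := ⟨_, rfl⟩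
  have N0 : 0 ≤ N := by rw [hN]; exact integral_nonneg fun f => sq_nonneg _
  rw [← hN] at h ⊢
  have i1 : Integrable (cm μ 2) μ := cm_int 2
  have ik := mass_pow_int hμ M (le_refl (j + 2))
  have hm : ∫ f, cm μ 2 f ∂μ = N := by rw [hN]; exact cm_all
  have hnn := cm_nonneg (μ := μ) 1
  rcases N0.eq_or_lt with h0 | h0
  · have h2 := (integral_eq_zero_iff_of_nonneg_ae (f := cm μ 2) hnn i1).1 (by rw [hm, ← h0])
    filter_upwards [h2] with f hf
    rw [← h0]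
    exact hf
  · obtain ⟨g, hg⟩ : ∃ g : Sp d → ℝ, g = fun f => cm μ 2 f ^ (j + 2) -
        (N ^ (j + 2) + ((j : ℝ) + 2) * N ^ (j + 1) * (cm μ 2 f - N)) := ⟨_, rfl⟩
    have ig : Integrable g μ := by
      rw [hg]
      exact ik.sub (lin_i i1 _ _ _)
    have e1 : ∫ f, g f ∂μ = 0 := by
      have e2 : ∫ f, g f ∂μ = ∫ f, cm μ 2 f ^ (j + 2) ∂μ -
          ∫ f, (N ^ (j + 2) + ((j : ℝ) + 2) * N ^ (j + 1) * (cm μ 2 f - N)) ∂μ := by
        rw [hg]
        exact integral_sub ik (lin_i i1 _ _ _)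
      rw [e2, lin_int i1, hm, h]
      ring
    have gp : ∀ᵐ f ∂μ, ((j : ℝ) + 1) * N ^ j * (cm μ 2 f - N) ^ 2 ≤ g f := by
      filter_upwards [hnn] with f hf
      have h0' : 0 ≤ cm μ 2 f := hf
      have ht := taylor h0' N0 j
      rw [hg]
      show _ ≤ cm μ 2 f ^ (j + 2) - (N ^ (j + 2) + ((j : ℝ) + 2) * N ^ (j + 1) * (cm μ 2 f - N))
      linarith
    have g0 : 0 ≤ᵐ[μ] g := by
      filter_upwards [gp] with f hf
      exact le_trans (by positivity) hf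
    have gz := (integral_eq_zero_iff_of_nonneg_ae g0 ig).1 e1
    filter_upwards [gp, gz] with f h1 h2
    have h3 : g f = 0 := h2
    rw [h3] at h1
    have hp : 0 < ((j : ℝ) + 1) * N ^ j := by positivity
    have h4 : (cm μ 2 f - N) ^ 2 ≤ 0 := by
      by_contra hc
      push Not at hc
      have := mul_pos hp hc
      linarith
    have h5 : cm μ 2 f - N = 0 := pow_eq_zero_iff (two_ne_zero) |>.1 (le_antisymm h4 (sq_nonneg _))
    linarith

include hμ M in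
lemma const_iff (hd : 0 < d) (hk : 2 ≤ k) :
    ∫ f : Sp d, f.1 0 ^ (2 * k) ∂μ = ck k * (∫ f : Sp d, f.1 0 ^ 2 ∂μ) ^ k ↔
    ∀ᵐ f : Sp d ∂μ, PW (√(2 * ∫ g : Sp d, g.1 0 ^ 2 ∂μ)) f.1 := by
  have M4 : Integrable (fun f : Sp d => f.1 0 ^ 4) μ := val_int M (by lia)
  have hl := low_int' hμ M (le_refl k)
  have hj := jensen hμ M (by lia)
  have hc := ck_pos k
  constructor
  · intro h
    have e1 : ∫ f, cm μ 2 f ^ k ∂μ = (∫ f : Sp d, f.1 0 ^ 2 ∂μ) ^ k := by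
      refine le_antisymm ?_ hj
      rw [h] at hl
      exact le_of_mul_le_mul_left hl hc
    have hm := jensen_eq hμ M hk e1
    have hpw := eq_fwd hμ M hd hk (by rw [h, e1])
    refine (pw2 M4 hμ hd).1 ?_
    rw [pw_bwd M4 hμ hpw]
    congr 1
    have e2 : ∀ᵐ f ∂μ, mass μ f ^ 2 = (∫ f : Sp d, f.1 0 ^ 2 ∂μ) ^ 2 := by
      filter_upwards [hm] with f hf
      have : mass μ f = cm μ 2 f := rfl
      rw [this, hf]
    rw [integral_congr_ae e2]
    simp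
  · intro h
    have h4 := (pw2 M4 hμ hd).2 h
    have hpw : ∀ᵐ f : Sp d ∂μ, ∃ a, PW a f.1 := by
      filter_upwards [h] with f hf
      exact ⟨_, hf⟩
    rw [eq_bwd hμ M hk hpw]
    congr 1
    have h5 := pw_bwd M4 hμ hpw
    rw [h4] at h5
    have e3 : ∫ f, cm μ 2 f ^ 2 ∂μ = (∫ f : Sp d, f.1 0 ^ 2 ∂μ) ^ 2 := by
      have : ∫ f, cm μ 2 f ^ 2 ∂μ = ∫ f, mass μ f ^ 2 ∂μ := rfl
      rw [this]
      linarith
    have hm := jensen_eq hμ (k := 2) (M := M4) le_rfl e3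
    have e2 : ∀ᵐ f ∂μ, cm μ 2 f ^ k = (∫ f : Sp d, f.1 0 ^ 2 ∂μ) ^ k := by
      filter_upwards [hm] with f hf
      rw [hf]
    rw [integral_congr_ae e2]
    simp

end

end Pool.Agent.W2helper14.EM
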