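import Pool.Agent.W2helper14.EM.J

/-!
# Skewness and kurtosis (helper14)
-/

set_option autoImplicit false
set_option linter.all false

open MeasureTheory Filter Topology
open scoped ContDiff ENNReal

namespace Pool.Agent.W2helper14.EM

open Pool.Agent.Y139.SW
open Pool.Agent.W2helper17.FM (inv inv_le)

noncomputable section

variable {d : ℕ} {μ : Measure (Sp d)} [IsProbabilityMeasure μ]
variable (hμ : ∀ x : E d, MeasurePreserving (sh x) μ μ)
variable (M : Integrable (fun f : Sp d => f.1 0 ^ 4) μ)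

include hμ M in
/-- the conditional mean vanishes -/
lemma cm_one : ∀ᵐ f ∂μ, cm μ 1 f = 0 := by
  have M1 : Integrable (fun f : Sp d => f.1 0 ^ 1) μ := val_int (k := 2) M (by lia)
  have key : ∀ A, MeasurableSet[inv d] A → ∫ f in A, cm μ 1 f ∂μ = ∫ f in A, (0 : ℝ) ∂μ := by
    intro A hA
    rw [cm_set M1 hA]
    have := set_stein hμ (k := 2) (by lia) M (1 : Polynomial ℝ) (by simp) hA
    simp only [Polynomial.derivative_one, Polynomial.eval_zero, zero_mul, integral_zero,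
      Finset.sum_const_zero, Polynomial.eval_one, one_mul] at this
    simp only [pow_one, integral_zero]
    exact this.symm
  have h0 : Measurable[inv d] (fun _ : Sp d => (0 : ℝ)) := measurable_const
  have a1 := ae_le_of_inv (cm_me 1) h0 (cm_int 1) (integrable_const 0) fun A hA => (key A hA).le
  have a2 := ae_le_of_inv h0 (cm_me 1) (integrable_const 0) (cm_int 1) fun A hA => (key A hA).ge
  filter_upwards [a1, a2] with f h1 h2
  exact le_antisymm h1 h2

include hμ M in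
lemma quad_ae (a b : ℝ) : ∀ᵐ f ∂μ,
    0 ≤ 8 / 3 * cm μ 4 f + 6 * a * cm μ 3 f + (3 * a ^ 2 + 8 * b) * cm μ 2 f + 4 * b ^ 2 := by
  have M1 : Integrable (fun f : Sp d => f.1 0 ^ 1) μ := val_int (k := 2) M (by lia)
  have M2 : Integrable (fun f : Sp d => f.1 0 ^ 2) μ := val_int (k := 2) M (by lia)
  have M3 : Integrable (fun f : Sp d => f.1 0 ^ 3) μ := val_int (k := 2) M (by lia)
  obtain ⟨p, hp⟩ : ∃ p : Polynomial ℝ, p = Polynomial.X ^ 2 + Polynomial.C a * Polynomial.X +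
    Polynomial.C b := ⟨_, rfl⟩
  obtain ⟨H, hH⟩ : ∃ H : Polynomial ℝ, H = Polynomial.C (4 / 3) * Polynomial.X ^ 3 +
    Polynomial.C (2 * a) * Polynomial.X ^ 2 + Polynomial.C (a ^ 2) * Polynomial.X := ⟨_, rfl⟩
  have d1 : p.natDegree ≤ 2 := by
    rw [hp]; compute_degree
  have d2 : H.natDegree + 1 ≤ 2 * 2 := by
    have : H.natDegree ≤ 3 := by rw [hH]; compute_degree
    lia
  have d3 : H.derivative = p.derivative ^ 2 := by
    refine Polynomial.funext fun x => ?_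
    rw [hH, hp]
    simp [Polynomial.derivative_pow]
    ring
  have e1 : ∀ f : Sp d, H.eval (f.1 0) * f.1 0 = 4 / 3 * f.1 0 ^ 4 + 2 * a * f.1 0 ^ 3 +
      a ^ 2 * f.1 0 ^ 2 := by
    intro f; rw [hH]; simp; ring
  have e2 : ∀ f : Sp d, p.eval (f.1 0) ^ 2 = f.1 0 ^ 4 + 2 * a * f.1 0 ^ 3 +
      (a ^ 2 + 2 * b) * f.1 0 ^ 2 + 2 * a * b * f.1 0 ^ 1 + b ^ 2 := by
    intro f; rw [hp]; simp; ring
  have m1 : Measurable[inv d] (fun f => 4 / 3 * cm μ 4 f + 2 * a * cm μ 3 f + a ^ 2 * cm μ 2 f) :=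
    Measurable.add (Measurable.add (Measurable.const_mul (cm_me 4) _)
      (Measurable.const_mul (cm_me 3) _)) (Measurable.const_mul (cm_me 2) _)
  have m2 : Measurable[inv d] (fun f => (2 : ℝ) ^ 2 * (cm μ 4 f + 2 * a * cm μ 3 f +
      (a ^ 2 + 2 * b) * cm μ 2 f + 2 * a * b * cm μ 1 f + b ^ 2)) :=
    Measurable.const_mul (Measurable.add (Measurable.add (Measurable.add (Measurable.add (cm_me 4)
      (Measurable.const_mul (cm_me 3) _)) (Measurable.const_mul (cm_me 2) _))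
      (Measurable.const_mul (cm_me 1) _)) measurable_const) _
  have j1 : Integrable (fun f => 4 / 3 * cm μ 4 f + 2 * a * cm μ 3 f) μ :=
    ((cm_int 4).const_mul _).add ((cm_int 3).const_mul _)
  have i1 : Integrable (fun f => 4 / 3 * cm μ 4 f + 2 * a * cm μ 3 f + a ^ 2 * cm μ 2 f) μ :=
    j1.add ((cm_int 2).const_mul _)
  have j2 : Integrable (fun f => cm μ 4 f + 2 * a * cm μ 3 f) μ :=
    (cm_int 4).add ((cm_int 3).const_mul _)
  have j3 : Integrable (fun f => cm μ 4 f + 2 * a * cm μ 3 f + (a ^ 2 + 2 * b) * cm μ 2 f) μ :=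
    j2.add ((cm_int 2).const_mul _)
  have j4 : Integrable (fun f => cm μ 4 f + 2 * a * cm μ 3 f + (a ^ 2 + 2 * b) * cm μ 2 f +
      2 * a * b * cm μ 1 f) μ := j3.add ((cm_int 1).const_mul _)
  have i2 : Integrable (fun f => cm μ 4 f + 2 * a * cm μ 3 f + (a ^ 2 + 2 * b) * cm μ 2 f +
      2 * a * b * cm μ 1 f + b ^ 2) μ := j4.add (integrable_const _)
  have k1 : Integrable (fun f : Sp d => 4 / 3 * f.1 0 ^ 4 + 2 * a * f.1 0 ^ 3) μ :=
    (M.const_mul _).add (M3.const_mul _)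
  have k2 : Integrable (fun f : Sp d => f.1 0 ^ 4 + 2 * a * f.1 0 ^ 3) μ :=
    M.add (M3.const_mul _)
  have k3 : Integrable (fun f : Sp d => f.1 0 ^ 4 + 2 * a * f.1 0 ^ 3 +
      (a ^ 2 + 2 * b) * f.1 0 ^ 2) μ := k2.add (M2.const_mul _)
  have k4 : Integrable (fun f : Sp d => f.1 0 ^ 4 + 2 * a * f.1 0 ^ 3 +
      (a ^ 2 + 2 * b) * f.1 0 ^ 2 + 2 * a * b * f.1 0 ^ 1) μ := k3.add (M1.const_mul _)
  have key := ae_le_of_inv m1 m2 i1 (i2.const_mul _) fun A hA => by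
    have h := set_ineq hμ (k := 2) (by lia) M p H d1 d3 d2 hA
    simp only [e1, e2] at h
    rw [integral_add k1.integrableOn (M2.const_mul _).integrableOn,
      integral_add (M.const_mul _).integrableOn (M3.const_mul _).integrableOn,
      integral_add k4.integrableOn (integrable_const _).integrableOn,
      integral_add k3.integrableOn (M1.const_mul _).integrableOn,
      integral_add k2.integrableOn (M2.const_mul _).integrableOn,
      integral_add M.integrableOn (M3.const_mul _).integrableOn] at h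
    simp only [integral_const_mul] at h
    rw [integral_const_mul, integral_add j1.integrableOn ((cm_int 2).const_mul _).integrableOn,
      integral_add ((cm_int 4).const_mul _).integrableOn ((cm_int 3).const_mul _).integrableOn,
      integral_add j4.integrableOn (integrable_const _).integrableOn,
      integral_add j3.integrableOn ((cm_int 1).const_mul _).integrableOn,
      integral_add j2.integrableOn ((cm_int 2).const_mul _).integrableOn,
      integral_add (cm_int 4).integrableOn ((cm_int 3).const_mul _).integrableOn]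
    simp only [integral_const_mul]
    rw [cm_set M hA, cm_set M3 hA, cm_set M2 hA, cm_set M1 hA]
    push_cast at h
    exact h
  filter_upwards [key, cm_one hμ M] with f h1 h2
  rw [h2] at h1
  linarith

include hμ M in
/-- the kurtosis is at least `3/2 + 9/8 skewness²` -/
theorem skew : ∀ᵐ f ∂μ, 0 < cm μ 2 f →
    3 / 2 * cm μ 2 f ^ 3 + 9 / 8 * cm μ 3 f ^ 2 ≤ cm μ 2 f * cm μ 4 f := by
  have h1 : ∀ᵐ f ∂μ, ∀ q : ℚ × ℚ, 0 ≤ 8 / 3 * cm μ 4 f + 6 * (q.1 : ℝ) * cm μ 3 f +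
      (3 * (q.1 : ℝ) ^ 2 + 8 * (q.2 : ℝ)) * cm μ 2 f + 4 * (q.2 : ℝ) ^ 2 := by
    rw [ae_all_iff]
    intro q
    exact quad_ae hμ M _ _
  filter_upwards [h1] with f hf h0
  have hcl : IsClosed {c : ℝ × ℝ | 0 ≤ 8 / 3 * cm μ 4 f + 6 * c.1 * cm μ 3 f +
      (3 * c.1 ^ 2 + 8 * c.2) * cm μ 2 f + 4 * c.2 ^ 2} :=
    isClosed_le continuous_const (by fun_prop)
  have hd : DenseRange (Prod.map ((↑) : ℚ → ℝ) ((↑) : ℚ → ℝ)) :=
    Rat.denseRange_cast.prodMap Rat.denseRange_cast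
  have hsub : Set.range (Prod.map ((↑) : ℚ → ℝ) ((↑) : ℚ → ℝ)) ⊆
      {c : ℝ × ℝ | 0 ≤ 8 / 3 * cm μ 4 f + 6 * c.1 * cm μ 3 f +
      (3 * c.1 ^ 2 + 8 * c.2) * cm μ 2 f + 4 * c.2 ^ 2} := by
    rintro _ ⟨q, rfl⟩
    exact hf q
  have h2 := hcl.closure_subset_iff.2 hsub
  rw [hd.closure_range] at h2
  have h3 : 0 ≤ 8 / 3 * cm μ 4 f + 6 * (-(cm μ 3 f / cm μ 2 f)) * cm μ 3 f +
      (3 * (-(cm μ 3 f / cm μ 2 f)) ^ 2 + 8 * (-cm μ 2 f)) * cm μ 2 f + 4 * (-cm μ 2 f) ^ 2 :=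
    h2 (Set.mem_univ (-(cm μ 3 f / cm μ 2 f), -cm μ 2 f))
  have h4 := mul_nonneg h0.le h3
  have e : cm μ 2 f * (8 / 3 * cm μ 4 f + 6 * (-(cm μ 3 f / cm μ 2 f)) * cm μ 3 f +
      (3 * (-(cm μ 3 f / cm μ 2 f)) ^ 2 + 8 * (-cm μ 2 f)) * cm μ 2 f + 4 * (-cm μ 2 f) ^ 2) =
      8 / 3 * (cm μ 2 f * cm μ 4 f) - 3 * cm μ 3 f ^ 2 - 4 * cm μ 2 f ^ 3 := by
    field_simp
    ring
  rw [e] at h4
  linarith

end

end Pool.Agent.W2helper14.EM
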