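import Pool.Agent.W2helper14.EM.J

/-!
# The moment matrix (helper14)
-/

set_option autoImplicit false
set_option linter.all false

open MeasureTheory Filter Topology
open scoped ContDiff ENNReal

namespace Pool.Agent.W2helper14.EM

open Pool.Agent.Y139.SW
open Pool.Agent.W2helper17.FM (inv inv_le)
open Polynomial (C X)

noncomputable section

/-- the entries of the matrix -/
def ent (k i j : ℕ) : ℝ := (k : ℝ) ^ 2 - (i : ℝ) * j / ((i : ℝ) + j - 1)

/-- the polynomial with the given coefficients -/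
def pc (k : ℕ) (c : Fin (k + 1) → ℝ) : Polynomial ℝ := ∑ i, C (c i) * X ^ (i : ℕ)

/-- `∫ p'²` -/
def Hc (k : ℕ) (c : Fin (k + 1) → ℝ) : Polynomial ℝ :=
  ∑ i, ∑ j, C (c i * c j * (((i : ℕ) : ℝ) * (j : ℕ) / (((i : ℕ) : ℝ) + (j : ℕ) - 1))) *
    X ^ ((i : ℕ) + (j : ℕ) - 1)

lemma pc_deg (k : ℕ) (c : Fin (k + 1) → ℝ) : (pc k c).natDegree ≤ k := by
  unfold pc
  refine Polynomial.natDegree_sum_le_of_forall_le _ _ fun i _ => ?_
  refine (Polynomial.natDegree_C_mul_X_pow_le _ _).trans ?_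
  have := i.2
  lia

lemma Hc_deg (k : ℕ) (hk : k ≠ 0) (c : Fin (k + 1) → ℝ) : (Hc k c).natDegree + 1 ≤ 2 * k := by
  have : (Hc k c).natDegree ≤ 2 * k - 1 := by
    unfold Hc
    refine Polynomial.natDegree_sum_le_of_forall_le _ _ fun i _ => ?_
    refine Polynomial.natDegree_sum_le_of_forall_le _ _ fun j _ => ?_
    refine (Polynomial.natDegree_C_mul_X_pow_le _ _).trans ?_
    have := i.2
    have := j.2
    lia
  lia

lemma Hc_der (k : ℕ) (c : Fin (k + 1) → ℝ) :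
    (Hc k c).derivative = (pc k c).derivative ^ 2 := by
  unfold Hc pc
  rw [Polynomial.derivative_sum, Polynomial.derivative_sum, sq, Finset.sum_mul_sum]
  refine Finset.sum_congr rfl fun i _ => ?_
  rw [Polynomial.derivative_sum]
  refine Finset.sum_congr rfl fun j _ => ?_
  rw [Polynomial.derivative_C_mul_X_pow, Polynomial.derivative_C_mul_X_pow,
    Polynomial.derivative_C_mul_X_pow]
  rcases Nat.eq_zero_or_pos (i : ℕ) with hi | hi
  · rw [hi]; simp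
  rcases Nat.eq_zero_or_pos (j : ℕ) with hj | hj
  · rw [hj]; simp
  have e1 : (((i : ℕ) + (j : ℕ) - 1 : ℕ) : ℝ) = ((i : ℕ) : ℝ) + (j : ℕ) - 1 := by
    rw [Nat.cast_sub (by lia)]
    push_cast; ring
  have e2 : (i : ℕ) + (j : ℕ) - 1 - 1 = ((i : ℕ) - 1) + ((j : ℕ) - 1) := by lia
  rw [e1, e2, pow_add]
  have h0 : ((i : ℕ) : ℝ) + (j : ℕ) - 1 ≠ 0 := by
    have h1 : (1 : ℝ) ≤ ((i : ℕ) : ℝ) := by exact_mod_cast hi
    have h2 : (1 : ℝ) ≤ ((j : ℕ) : ℝ) := by exact_mod_cast hj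
    have : 0 < ((i : ℕ) : ℝ) + (j : ℕ) - 1 := by linarith
    exact this.ne'
  have e3 : c i * c j * (((i : ℕ) : ℝ) * (j : ℕ) / (((i : ℕ) : ℝ) + (j : ℕ) - 1)) *
      (((i : ℕ) : ℝ) + (j : ℕ) - 1) = (c i * (i : ℕ)) * (c j * (j : ℕ)) := by
    field_simp
  rw [e3, Polynomial.C_mul]
  ring

variable {d : ℕ} {μ : Measure (Sp d)} [IsProbabilityMeasure μ]
variable (hμ : ∀ x : E d, MeasurePreserving (sh x) μ μ)

lemma Hc_eval (k : ℕ) (c : Fin (k + 1) → ℝ) (x : ℝ) : (Hc k c).eval x * x =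
    ∑ i : Fin (k + 1), ∑ j : Fin (k + 1),
      c i * c j * (((i : ℕ) : ℝ) * (j : ℕ) / (((i : ℕ) : ℝ) + (j : ℕ) - 1)) *
      x ^ ((i : ℕ) + (j : ℕ)) := by
  unfold Hc
  rw [Polynomial.eval_finsetSum, Finset.sum_mul]
  refine Finset.sum_congr rfl fun i _ => ?_
  rw [Polynomial.eval_finsetSum, Finset.sum_mul]
  refine Finset.sum_congr rfl fun j _ => ?_
  rw [Polynomial.eval_mul, Polynomial.eval_C, Polynomial.eval_pow, Polynomial.eval_X]
  rcases Nat.eq_zero_or_pos (i : ℕ) with hi | hi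
  · rw [hi]; simp
  have : x ^ ((i : ℕ) + (j : ℕ)) = x ^ ((i : ℕ) + (j : ℕ) - 1) * x := by
    rw [← pow_succ]; congr 1; lia
  rw [this]; ring

lemma pc_eval (k : ℕ) (c : Fin (k + 1) → ℝ) (x : ℝ) : (pc k c).eval x ^ 2 =
    ∑ i : Fin (k + 1), ∑ j : Fin (k + 1), c i * c j * x ^ ((i : ℕ) + (j : ℕ)) := by
  unfold pc
  rw [Polynomial.eval_finsetSum, sq, Finset.sum_mul_sum]
  refine Finset.sum_congr rfl fun i _ => Finset.sum_congr rfl fun j _ => ?_
  simp only [Polynomial.eval_mul, Polynomial.eval_C, Polynomial.eval_pow, Polynomial.eval_X]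
  ring

include hμ in
lemma mat_c {k : ℕ} (hk : k ≠ 0) (M : Integrable (fun f : Sp d => f.1 0 ^ (2 * k)) μ)
    (c : Fin (k + 1) → ℝ) : ∀ᵐ f ∂μ, 0 ≤ ∑ i : Fin (k + 1), ∑ j : Fin (k + 1),
      c i * c j * ent k i j * cm μ ((i : ℕ) + (j : ℕ)) f := by
  have Mi : ∀ i j : Fin (k + 1), Integrable (fun f : Sp d => f.1 0 ^ ((i : ℕ) + (j : ℕ))) μ :=
    fun i j => val_int M (by have := i.2; have := j.2; lia)
  have m0 : Measurable[inv d] (fun _ : Sp d => (0 : ℝ)) := measurable_const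
  have m1 : Measurable[inv d] (fun f => ∑ i : Fin (k + 1), ∑ j : Fin (k + 1),
      c i * c j * ent k i j * cm μ ((i : ℕ) + (j : ℕ)) f) :=
    Finset.measurable_fun_sum (m := inv d) _ fun i _ =>
      Finset.measurable_fun_sum (m := inv d) _ fun j _ => Measurable.const_mul (cm_me _) _
  have i1 : Integrable (fun f => ∑ i : Fin (k + 1), ∑ j : Fin (k + 1),
      c i * c j * ent k i j * cm μ ((i : ℕ) + (j : ℕ)) f) μ :=
    integrable_finsetSum _ fun i _ => integrable_finsetSum _ fun j _ => (cm_int _).const_mul _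
  refine ae_le_of_inv m0 m1 (integrable_const 0) i1 fun A hA => ?_
  have h := set_ineq hμ hk M (pc k c) (Hc k c) (pc_deg k c) (Hc_der k c) (Hc_deg k hk c) hA
  simp only [Hc_eval, pc_eval] at h
  have e : ∀ a : Fin (k + 1) → Fin (k + 1) → ℝ,
      ∫ f in A, ∑ i : Fin (k + 1), ∑ j : Fin (k + 1), a i j * f.1 0 ^ ((i : ℕ) + (j : ℕ)) ∂μ =
      ∑ i : Fin (k + 1), ∑ j : Fin (k + 1), a i j *
        ∫ f in A, cm μ ((i : ℕ) + (j : ℕ)) f ∂μ := by
    intro a
    rw [integral_finsetSum _ fun i _ => (integrable_finsetSum _ fun j _ =>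
      (Mi i j).const_mul _).integrableOn]
    refine Finset.sum_congr rfl fun i _ => ?_
    rw [integral_finsetSum _ fun j _ => ((Mi i j).const_mul _).integrableOn]
    refine Finset.sum_congr rfl fun j _ => ?_
    rw [integral_const_mul, cm_set (Mi i j) hA]
  rw [e, e] at h
  rw [integral_zero, integral_finsetSum _ fun i _ => (integrable_finsetSum _ fun j _ =>
      (cm_int _).const_mul _).integrableOn]
  have e2 : ∀ i : Fin (k + 1), ∫ f in A, ∑ j : Fin (k + 1),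
      c i * c j * ent k i j * cm μ ((i : ℕ) + (j : ℕ)) f ∂μ =
      ∑ j : Fin (k + 1), c i * c j * ent k i j * ∫ f in A, cm μ ((i : ℕ) + (j : ℕ)) f ∂μ := by
    intro i
    rw [integral_finsetSum _ fun j _ => ((cm_int _).const_mul _).integrableOn]
    exact Finset.sum_congr rfl fun j _ => integral_const_mul _ _
  simp only [e2]
  rw [Finset.mul_sum] at h
  rw [← sub_nonneg, ← Finset.sum_sub_distrib] at h
  refine h.trans_eq (Finset.sum_congr rfl fun i _ => ?_)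
  rw [Finset.mul_sum, ← Finset.sum_sub_distrib]
  refine Finset.sum_congr rfl fun j _ => ?_
  unfold ent
  ring

include hμ in
/-- **the moment matrix inequality** -/
theorem mat {k : ℕ} (hk : k ≠ 0) (M : Integrable (fun f : Sp d => f.1 0 ^ (2 * k)) μ) :
    ∀ᵐ f ∂μ, ∀ c : Fin (k + 1) → ℝ, 0 ≤ ∑ i : Fin (k + 1), ∑ j : Fin (k + 1),
      c i * c j * ent k i j * cm μ ((i : ℕ) + (j : ℕ)) f := by
  have h1 : ∀ᵐ f ∂μ, ∀ q : Fin (k + 1) → ℚ, 0 ≤ ∑ i : Fin (k + 1), ∑ j : Fin (k + 1),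
      (q i : ℝ) * (q j : ℝ) * ent k i j * cm μ ((i : ℕ) + (j : ℕ)) f := by
    rw [ae_all_iff]
    intro q
    exact mat_c hμ hk M fun i => (q i : ℝ)
  filter_upwards [h1] with f hf c
  have hcl : IsClosed {c : Fin (k + 1) → ℝ | 0 ≤ ∑ i : Fin (k + 1), ∑ j : Fin (k + 1),
      c i * c j * ent k i j * cm μ ((i : ℕ) + (j : ℕ)) f} :=
    isClosed_le continuous_const (by fun_prop)
  have hd : DenseRange (Pi.map fun (_ : Fin (k + 1)) => ((↑) : ℚ → ℝ)) :=
    DenseRange.piMap fun _ => Rat.denseRange_cast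
  have hsub : Set.range (Pi.map fun (_ : Fin (k + 1)) => ((↑) : ℚ → ℝ)) ⊆
      {c : Fin (k + 1) → ℝ | 0 ≤ ∑ i : Fin (k + 1), ∑ j : Fin (k + 1),
      c i * c j * ent k i j * cm μ ((i : ℕ) + (j : ℕ)) f} := by
    rintro _ ⟨q, rfl⟩
    exact hf q
  have h2 := hcl.closure_subset_iff.2 hsub
  rw [hd.closure_range] at h2
  exact h2 (Set.mem_univ c)

include hμ in
/-- the second, fourth and sixth moment -/
theorem six (M : Integrable (fun f : Sp d => f.1 0 ^ 6) μ) : ∀ᵐ f ∂μ,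
    10 / 9 * cm μ 4 f ^ 2 ≤ cm μ 2 f * cm μ 6 f := by
  have M4 : Integrable (fun f : Sp d => f.1 0 ^ 4) μ := val_int (k := 3) M (by lia)
  filter_upwards [mat hμ (k := 3) (by lia) M, cm_nonneg (μ := μ) 1,
    Pool.Agent.W2helper14.EM.zero_mass M4] with f hf h2 hz
  have h2' : 0 ≤ cm μ 2 f := h2
  rcases h2'.eq_or_lt with h0 | h0
  · rw [hz h0.symm, ← h0]; simp
  have h := hf ![0, -(cm μ 4 f / cm μ 2 f), 0, 1]
  simp [Fin.sum_univ_succ, ent] at h
  obtain ⟨a, ha⟩ : ∃ a, a = cm μ 4 f / cm μ 2 f := ⟨_, rfl⟩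
  have ham : a * cm μ 2 f = cm μ 4 f := by rw [ha]; field_simp
  rw [← ha] at h
  norm_num at h
  have h4 := mul_nonneg h0.le h
  have e : cm μ 2 f * (a * a * 8 * cm μ 2 f + -(a * 8 * cm μ 4 f) + (-(a * 8 * cm μ 4 f) +
      36 / 5 * cm μ 6 f)) = 36 / 5 * (cm μ 2 f * cm μ 6 f) - 8 * cm μ 4 f ^ 2 := by
    linear_combination (8 * a * cm μ 2 f + 8 * cm μ 4 f - 16 * cm μ 4 f) * ham
  have h5 : 0 ≤ 36 / 5 * (cm μ 2 f * cm μ 6 f) - 8 * cm μ 4 f ^ 2 := by
    rw [← e]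
    refine h4.trans_eq ?_
    ring
  linarith

end

end Pool.Agent.W2helper14.EM
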