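import Pool.Agent.W2helper14.EM.K
import Pool.Agent.W2helper14.EM.L
import Pool.Agent.W2helper14.EM.M

/-!
# Summary of the results on moments (helper14)
-/

set_option autoImplicit false
set_option linter.all false

open MeasureTheory Filter Topology
open scoped ContDiff ENNReal

namespace Pool.Agent.W2helper14.EM

open Pool.Agent.Y139.SW
open Pool.Agent.W2helper17.FM (inv inv_le inv_fun mass Q Q_one pw_fwd pw_bwd PW core' core_int mass_l2)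

noncomputable section

variable {d : ℕ}

theorem final2 (hd : 1 ≤ d) (μ : Measure (Sp d)) (pμ : IsProbabilityMeasure μ)
    (hμ : ∀ x : E d, μ.map (sh x) = μ) (k : ℕ) (hk : 1 ≤ k)
    (M : Integrable (fun f : Sp d => f.1 0 ^ (2 * k)) μ) :
    (∀ᵐ f ∂μ, ∀ c : Fin (k + 1) → ℝ, 0 ≤ ∑ i : Fin (k + 1), ∑ j : Fin (k + 1),
      c i * c j * ent k i j * cm μ ((i : ℕ) + (j : ℕ)) f) ∧
    (2 ≤ k → ∀ᵐ f ∂μ, 0 < cm μ 2 f →
      3 / 2 * cm μ 2 f ^ 3 + 9 / 8 * cm μ 3 f ^ 2 ≤ cm μ 2 f * cm μ 4 f) ∧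
    (3 ≤ k → ∀ᵐ f ∂μ, 10 / 9 * cm μ 4 f ^ 2 ≤ cm μ 2 f * cm μ 6 f) ∧
    ((∫ f : Sp d, f.1 0 ^ 2 ∂μ) ^ k ≤ ∫ f, cm μ 2 f ^ k ∂μ) ∧
    (2 ≤ k → (∫ f : Sp d, f.1 0 ^ (2 * k) ∂μ = ck k * (∫ f : Sp d, f.1 0 ^ 2 ∂μ) ^ k ↔
      ∀ᵐ f : Sp d ∂μ, PW (√(2 * ∫ g : Sp d, g.1 0 ^ 2 ∂μ)) f.1)) := by
  have hμ' : ∀ x, MeasurePreserving (sh (d := d) x) μ μ := fun x => ⟨sh_me x, hμ x⟩
  refine ⟨?_, fun hk2 => ?_, fun hk3 => ?_, ?_, fun hk2 => ?_⟩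
  · exact mat hμ' (by lia) M
  · exact skew hμ' (val_int M (by lia))
  · exact six hμ' (val_int M (by lia))
  · exact jensen hμ' M hk
  · exact const_iff hμ' M hd hk2

end

end Pool.Agent.W2helper14.EM
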